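import Pool.Agent.H136R3.Cauchy

set_option autoImplicit false

open Filter Topology Set Metric

namespace Pool.Agent.H136R3

/-! ### Connectedness of discs with circular holes -/

theorem isPreconnected_annulus (a : ℂ) {r r' : ℝ} (hr : 0 ≤ r) :
    IsPreconnected {z : ℂ | r < ‖z - a‖ ∧ ‖z - a‖ < r'} := by
  have h1 : {z : ℂ | r < ‖z - a‖ ∧ ‖z - a‖ < r'} =
      (fun p : ℝ × ℝ => a + p.1 * Complex.exp (p.2 * Complex.I)) '' (Ioo r r' ×ˢ univ) := by
    ext z
    constructor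
    · rintro ⟨h1, h2⟩
      refine ⟨(‖z - a‖, Complex.arg (z - a)), ⟨⟨h1, h2⟩, mem_univ _⟩, ?_⟩
      simp only
      rw [Complex.norm_mul_exp_arg_mul_I]
      ring
    · rintro ⟨⟨s, θ⟩, ⟨⟨h1, h2⟩, -⟩, rfl⟩
      simp only at h1 h2
      have hs : 0 < s := by linarith
      have h3 : ‖a + (s : ℂ) * Complex.exp (θ * Complex.I) - a‖ = s := by
        rw [add_sub_cancel_left, norm_mul, Complex.norm_exp_ofReal_mul_I, mul_one,
          Complex.norm_real, Real.norm_of_nonneg hs.le]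
      simp only [mem_setOf_eq]
      rw [h3]
      exact ⟨h1, h2⟩
  rw [h1]
  refine (isPreconnected_Ioo.prod isPreconnected_univ).image _ ?_
  fun_prop

theorem isPreconnected_diff_closedBall {U : Set ℂ} (hU : IsOpen U) (hc : IsPreconnected U)
    {a : ℂ} {r : ℝ} (hr : 0 < r) (hD : closedBall a r ⊆ U) :
    IsPreconnected (U \ closedBall a r) := by
  obtain ⟨δ, hδ, hδU⟩ := (isCompact_closedBall a r).exists_cthickening_subset_open hU hD
  have hbig : closedBall a (r + δ) ⊆ U := by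
    rw [cthickening_closedBall hδ.le hr.le, add_comm] at hδU
    exact hδU
  set A : Set ℂ := {z : ℂ | r < ‖z - a‖ ∧ ‖z - a‖ < r + δ} with hA
  have hAc : IsPreconnected A := isPreconnected_annulus a hr.le
  have hAU : A ⊆ U \ closedBall a r := by
    intro z hz
    refine ⟨hbig ?_, ?_⟩
    · rw [mem_closedBall, dist_eq_norm]; exact hz.2.le
    · rw [mem_closedBall, dist_eq_norm, not_le]; exact hz.1
  -- a point of the annulus
  have hp : a + ((r + δ / 2 : ℝ) : ℂ) ∈ A := by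
    have h3 : ‖a + ((r + δ / 2 : ℝ) : ℂ) - a‖ = r + δ / 2 := by
      rw [add_sub_cancel_left, Complex.norm_real, Real.norm_of_nonneg (by positivity)]
    simp only [hA, mem_setOf_eq]
    rw [h3]
    constructor <;> linarith
  set p := a + ((r + δ / 2 : ℝ) : ℂ) with hpdef
  refine isPreconnected_of_forall_constant fun f hf => ?_
  classical
  let g : ℂ → Bool := fun z => if z ∈ ball a (r + δ) then f p else f z
  have hfA : ∀ z ∈ A, f z = f p := fun z hz => hAc.constant (hf.mono hAU) hz hp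
  have hgf : ∀ z ∈ U \ closedBall a r, g z = f z := by
    intro z hz
    by_cases h : z ∈ ball a (r + δ)
    · simp only [g, if_pos h]
      refine (hfA z ⟨?_, ?_⟩).symm
      · have := hz.2
        rw [mem_closedBall, dist_eq_norm, not_le] at this
        exact this
      · rw [mem_ball, dist_eq_norm] at h
        exact h
    · simp only [g, if_neg h]
  have hopen : IsOpen (U \ closedBall a r) := hU.sdiff isClosed_closedBall
  have hg : ContinuousOn g U := by
    intro z hz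
    by_cases h : z ∈ ball a (r + δ)
    · have h1 : g =ᶠ[𝓝 z] fun _ => f p := by
        filter_upwards [isOpen_ball.mem_nhds h] with w hw
        simp only [g, if_pos hw]
      exact (continuousAt_const.congr h1.symm).continuousWithinAt
    · have hz' : z ∈ U \ closedBall a r := ⟨hz, fun h' => h (by
        rw [mem_closedBall] at h'
        rw [mem_ball]
        linarith)⟩
      have h1 : g =ᶠ[𝓝 z] f := by
        filter_upwards [hopen.mem_nhds hz'] with w hw using hgf w hw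
      exact (((hf z hz').continuousAt (hopen.mem_nhds hz')).congr h1.symm).continuousWithinAt
  intro x hx y hy
  rw [← hgf x hx, ← hgf y hy]
  exact hc.constant hg hx.1 hy.1

section config

variable {ι : Type*} {c : ℂ} {R : ℝ} {a : ι → ℂ} {r : ι → ℝ}

theorem isOpen_Om (S : Finset ι) : IsOpen (Om c R S a r) := by
  have h1 : Om c R S a r = ball c R ∩ ⋂ i ∈ S, (closedBall (a i) (r i))ᶜ := by
    ext w; simp [Om]
  rw [h1]
  exact isOpen_ball.inter (isOpen_biInter_finset fun i _ => isClosed_closedBall.isOpen_compl)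

theorem Config.isPreconnected {S : Finset ι} (h : Config c R S a r) :
    IsPreconnected (Om c R S a r) := by
  classical
  induction S using Finset.induction_on with
  | empty =>
    have h1 : Om c R (∅ : Finset ι) a r = ball c R := by
      ext w; simp [Om]
    rw [h1]
    exact (convex_ball c R).isPreconnected
  | insert i S hi ih =>
    have h' : Config c R S a r := ⟨h.pos, fun j hj => h.rpos j (Finset.mem_insert_of_mem hj),
      fun j hj => h.inside j (Finset.mem_insert_of_mem hj),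
      fun j hj k hk => h.disj j (Finset.mem_insert_of_mem hj) k (Finset.mem_insert_of_mem hk)⟩
    have h1 : Om c R (insert i S) a r = Om c R S a r \ closedBall (a i) (r i) := by
      ext w
      simp only [Om, mem_setOf_eq, Finset.mem_insert, forall_eq_or_imp, mem_diff]
      tauto
    rw [h1]
    refine isPreconnected_diff_closedBall (isOpen_Om S) (ih h')
      (h.rpos i (Finset.mem_insert_self _ _)) ?_
    intro w hw
    refine ⟨h.inside i (Finset.mem_insert_self _ _) hw, fun j hj hwj => ?_⟩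
    have hij : i ≠ j := fun hij => hi (hij ▸ hj)
    exact Set.disjoint_left.1 (h.disj i (Finset.mem_insert_self _ _) j
      (Finset.mem_insert_of_mem hj) hij) hw hwj

end config

/-! ### A Harnack type inequality -/

theorem sq_norm_sub_eq (w p : ℂ) :
    ‖1 - (starRingEnd ℂ) p * w‖ ^ 2 - ‖w - p‖ ^ 2 = (1 - ‖w‖ ^ 2) * (1 - ‖p‖ ^ 2) := by
  rw [← Complex.normSq_eq_norm_sq, ← Complex.normSq_eq_norm_sq, ← Complex.normSq_eq_norm_sq,
    ← Complex.normSq_eq_norm_sq]
  simp only [Complex.normSq_apply, Complex.sub_re, Complex.sub_im, Complex.one_re, Complex.one_im,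
    Complex.mul_re, Complex.mul_im, Complex.conj_re, Complex.conj_im]
  ring

theorem schwarz_pick_aux {f : ℂ → ℂ} {c : ℂ} {R : ℝ} (hd : DifferentiableOn ℂ f (ball c R))
    {s : ℝ} (hs : s < 1) (hf : ∀ z ∈ ball c R, ‖f z‖ ≤ s) {z : ℂ}
    (hz : ‖z - c‖ ≤ R / 2) (hR : 0 < R) : ‖f z - f c‖ ≤ 1 - ‖f c‖ ^ 2 := by
  have hcb : c ∈ ball c R := mem_ball_self hR
  have hzb : z ∈ ball c R := by rw [mem_ball, dist_eq_norm]; linarith
  have hc1 : ‖f c‖ < 1 := (hf c hcb).trans_lt hs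
  have hz1 : ‖f z‖ < 1 := (hf z hzb).trans_lt hs
  have hcs : 0 < 1 - ‖f c‖ ^ 2 := by nlinarith [norm_nonneg (f c)]
  have hne : ∀ w ∈ ball c R, 1 - (starRingEnd ℂ) (f c) * f w ≠ 0 := by
    intro w hw h
    have h1 : ‖(starRingEnd ℂ) (f c) * f w‖ < 1 := by
      rw [norm_mul, RCLike.norm_conj]
      have h2 : ‖f w‖ < 1 := (hf w hw).trans_lt hs
      have h3 := norm_nonneg (f c)
      have h4 := norm_nonneg (f w)
      nlinarith
    rw [← sub_eq_zero.1 h, norm_one] at h1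
    exact lt_irrefl _ h1
  let g : ℂ → ℂ := fun w => (f w - f c) / (1 - (starRingEnd ℂ) (f c) * f w)
  have hg : DifferentiableOn ℂ g (ball c R) := by
    refine DifferentiableOn.div (hd.sub_const _) ?_ hne
    exact (differentiableOn_const _).sub (hd.const_mul _)
  have hgc : g c = 0 := by simp [g]
  have hmaps : MapsTo g (ball c R) (ball (g c) 1) := by
    intro w hw
    rw [hgc, mem_ball, dist_zero_right]
    simp only [g]
    rw [norm_div, div_lt_one (norm_pos_iff.2 (hne w hw))]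
    have h1 := sq_norm_sub_eq (f w) (f c)
    have h2 : ‖f w‖ < 1 := (hf w hw).trans_lt hs
    have h3 : 0 < (1 - ‖f w‖ ^ 2) * (1 - ‖f c‖ ^ 2) := by
      have : 0 < 1 - ‖f w‖ ^ 2 := by nlinarith [norm_nonneg (f w)]
      positivity
    have h4 : ‖f w - f c‖ ^ 2 < ‖1 - (starRingEnd ℂ) (f c) * f w‖ ^ 2 := by linarith
    exact lt_of_pow_lt_pow_left₀ 2 (norm_nonneg _) h4
  have h5 := Complex.dist_le_div_mul_dist_of_mapsTo_ball hg (hmaps.mono_right ball_subset_closedBall) hzb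
  rw [hgc, dist_zero_right, dist_eq_norm] at h5
  have h6 : ‖g z‖ ≤ 1 / 2 := by
    refine h5.trans ?_
    rw [div_mul_eq_mul_div, one_mul, div_le_div_iff₀ hR (by norm_num)]
    linarith
  simp only [g] at h6
  rw [norm_div, div_le_iff₀ (norm_pos_iff.2 (hne z hzb))] at h6
  have h7 : ‖1 - (starRingEnd ℂ) (f c) * f z‖ ≤ (1 - ‖f c‖ ^ 2) + ‖f c‖ * ‖f z - f c‖ := by
    have h8 : 1 - (starRingEnd ℂ) (f c) * f z =
        ((1 - ‖f c‖ ^ 2 : ℝ) : ℂ) - (starRingEnd ℂ) (f c) * (f z - f c) := by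
      have h9 : (starRingEnd ℂ) (f c) * f c = ((‖f c‖ ^ 2 : ℝ) : ℂ) := by
        rw [mul_comm, Complex.mul_conj, Complex.normSq_eq_norm_sq]
      rw [mul_sub, h9]
      push_cast
      ring
    rw [h8]
    refine (norm_sub_le _ _).trans ?_
    rw [Complex.norm_real, Real.norm_of_nonneg hcs.le, norm_mul, RCLike.norm_conj]
  have h10 : ‖f c‖ * ‖f z - f c‖ ≤ ‖f z - f c‖ := by
    have := norm_nonneg (f z - f c)
    nlinarith
  linarith

theorem schwarz_pick {f : ℂ → ℂ} {c : ℂ} {R : ℝ} (hd : DifferentiableOn ℂ f (ball c R))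
    (hf : ∀ z ∈ ball c R, ‖f z‖ ≤ 1) {z : ℂ} (hz : ‖z - c‖ ≤ R / 2) (hR : 0 < R) :
    ‖f z - f c‖ ≤ 2 * (1 - ‖f c‖) := by
  have hcb : c ∈ ball c R := mem_ball_self hR
  have h1 : ∀ s : ℝ, 0 < s → s < 1 → s * ‖f z - f c‖ ≤ 1 - (s * ‖f c‖) ^ 2 := by
    intro s hs0 hs1
    have h2 := schwarz_pick_aux (f := fun w => (s : ℂ) * f w) (c := c) (R := R)
      (hd.const_mul _) hs1 (fun w hw => by
        rw [norm_mul, Complex.norm_real, Real.norm_of_nonneg hs0.le]
        have := hf w hw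
        nlinarith) hz hR
    rw [← mul_sub, norm_mul, norm_mul, Complex.norm_real, Real.norm_of_nonneg hs0.le] at h2
    exact h2
  have h3 : ‖f z - f c‖ ≤ 1 - ‖f c‖ ^ 2 := by
    have h4 : Tendsto (fun s : ℝ => s * ‖f z - f c‖) (𝓝[<] 1) (𝓝 (1 * ‖f z - f c‖)) :=
      ((continuous_id.mul continuous_const).tendsto 1).mono_left nhdsWithin_le_nhds
    have h5 : Tendsto (fun s : ℝ => 1 - (s * ‖f c‖) ^ 2) (𝓝[<] 1) (𝓝 (1 - (1 * ‖f c‖) ^ 2)) := by
      have : Continuous fun s : ℝ => 1 - (s * ‖f c‖) ^ 2 := by fun_prop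
      exact (this.tendsto 1).mono_left nhdsWithin_le_nhds
    rw [one_mul] at h4 h5
    refine le_of_tendsto_of_tendsto h4 h5 ?_
    filter_upwards [Ioo_mem_nhdsLT (show (0 : ℝ) < 1 by norm_num)] with s hs
    exact h1 s hs.1 hs.2
  have h6 := hf c hcb
  nlinarith [norm_nonneg (f c)]

/-- `h z` is near `h x` if `|h x|` is near `1`. -/
def HR (Ω : Set ℂ) (x : ℂ) (K : Set ℂ) : Prop :=
  ∃ κ : ℝ, 0 < κ ∧ ∃ C : ℝ, 0 < C ∧ ∀ h : ℂ → ℂ, DifferentiableOn ℂ h Ω →
    (∀ w, ball w κ ⊆ Ω → ‖h w‖ ≤ 1) → ∀ z ∈ K, ‖h z - h x‖ ≤ C * (1 - ‖h x‖)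

theorem HR.step {Ω : Set ℂ} {x c : ℂ} {t : ℝ} (ht : 0 < t) (hx : x ∈ Ω) (hΩ : IsOpen Ω)
    (hc : HR Ω x {c}) (hball : ball c (3 * t) ⊆ Ω) : HR Ω x (ball c t) := by
  obtain ⟨κ, hκ, C, hC, H⟩ := hc
  obtain ⟨κ₁, hκ₁, hκ₂⟩ := Metric.isOpen_iff.1 hΩ x hx
  refine ⟨min (min κ t) κ₁, by positivity, 3 * C + 2, by positivity, fun h hd hb z hz => ?_⟩
  have hx1 : ‖h x‖ ≤ 1 := hb x ((ball_subset_ball (min_le_right _ _)).trans hκ₂)
  have h1 := H h hd (fun w hw => hb w ((ball_subset_ball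
    ((min_le_left _ _).trans (min_le_left _ _))).trans hw)) c rfl
  have hsub : ∀ w ∈ ball c (2 * t), ball w t ⊆ ball c (3 * t) := by
    intro w hw v hv
    rw [mem_ball] at *
    have := dist_triangle v w c
    linarith
  have h2 := schwarz_pick (f := h) (c := c) (R := 2 * t)
    (hd.mono ((ball_subset_ball (by linarith)).trans hball))
    (fun w hw => hb w ((ball_subset_ball ((min_le_left _ _).trans (min_le_right _ _))).trans
      ((hsub w hw).trans hball)))
    (z := z) (by rw [mem_ball, dist_eq_norm] at hz; linarith) (by positivity)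
  have h3 : ‖h x‖ ≤ ‖h c‖ + ‖h c - h x‖ := by
    have : h x = h c - (h c - h x) := by ring
    conv_lhs => rw [this]
    exact norm_sub_le _ _
  have h4 : ‖h z - h x‖ ≤ ‖h z - h c‖ + ‖h c - h x‖ := by
    have : h z - h x = (h z - h c) + (h c - h x) := by ring
    rw [this]
    exact norm_add_le _ _
  nlinarith

theorem HR.self {Ω : Set ℂ} (hΩ : IsOpen Ω) {x : ℂ} (hx : x ∈ Ω) : HR Ω x {x} := by
  obtain ⟨κ₁, hκ₁, hκ₂⟩ := Metric.isOpen_iff.1 hΩ x hx
  refine ⟨κ₁, hκ₁, 1, one_pos, fun h _ hb z hz => ?_⟩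
  obtain rfl : z = x := hz
  have := hb z hκ₂
  rw [sub_self, norm_zero]
  linarith

theorem HR.mono {Ω : Set ℂ} {x : ℂ} {K L : Set ℂ} (h : HR Ω x L) (hKL : K ⊆ L) : HR Ω x K := by
  obtain ⟨κ, hκ, C, hC, H⟩ := h
  exact ⟨κ, hκ, C, hC, fun h hd hb z hz => H h hd hb z (hKL hz)⟩

theorem HR.union {Ω : Set ℂ} (hΩ : IsOpen Ω) {x : ℂ} (hx : x ∈ Ω) {K L : Set ℂ} (h : HR Ω x K)
    (h' : HR Ω x L) : HR Ω x (K ∪ L) := by
  obtain ⟨κ, hκ, C, hC, H⟩ := h
  obtain ⟨κ', hκ', C', hC', H'⟩ := h'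
  obtain ⟨κ₁, hκ₁, hκ₂⟩ := Metric.isOpen_iff.1 hΩ x hx
  refine ⟨min (min κ κ') κ₁, by positivity, C + C', by positivity, fun h hd hb z hz => ?_⟩
  have hx1 : ‖h x‖ ≤ 1 := hb x ((ball_subset_ball (min_le_right _ _)).trans hκ₂)
  rcases hz with hz | hz
  · have h1 := H h hd (fun w hw => hb w ((ball_subset_ball
      ((min_le_left _ _).trans (min_le_left _ _))).trans hw)) z hz
    nlinarith
  · have h1 := H' h hd (fun w hw => hb w ((ball_subset_ball
      ((min_le_left _ _).trans (min_le_right _ _))).trans hw)) z hz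
    nlinarith

theorem HR.all {Ω : Set ℂ} (hΩ : IsOpen Ω) (hc : IsPreconnected Ω) {x : ℂ} (hx : x ∈ Ω) :
    ∀ z ∈ Ω, ∃ t > 0, HR Ω x (ball z t) := by
  set Z : Set ℂ := {z | ∃ t > 0, HR Ω x (ball z t)} with hZ
  have hopen : IsOpen Z := by
    rw [Metric.isOpen_iff]
    rintro z ⟨t, ht, hz⟩
    refine ⟨t / 2, by positivity, fun w hw => ⟨t / 2, by positivity, hz.mono ?_⟩⟩
    intro v hv
    rw [mem_ball] at *
    have := dist_triangle v w z
    linarith
  have hxZ : x ∈ Z := by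
    obtain ⟨κ₁, hκ₁, hκ₂⟩ := Metric.isOpen_iff.1 hΩ x hx
    refine ⟨κ₁ / 3, by positivity, HR.step (by positivity) hx hΩ (HR.self hΩ hx) ?_⟩
    rwa [mul_div_cancel₀ _ (by norm_num : (3 : ℝ) ≠ 0)]
  refine hc.subset_of_closure_inter_subset hopen ⟨x, hx, hxZ⟩ ?_
  rintro z ⟨hz, hzΩ⟩
  obtain ⟨κ₁, hκ₁, hκ₂⟩ := Metric.isOpen_iff.1 hΩ z hzΩ
  obtain ⟨c, hcZ, hcz⟩ := Metric.mem_closure_iff.1 hz (κ₁ / 8) (by positivity)
  obtain ⟨t, ht, htc⟩ := hcZ
  have h1 : HR Ω x {c} := htc.mono (singleton_subset_iff.2 (mem_ball_self ht))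
  have h2 : HR Ω x (ball c (κ₁ / 4)) := by
    refine HR.step (by positivity) hx hΩ h1 (Subset.trans ?_ hκ₂)
    intro v hv
    rw [mem_ball] at *
    have := dist_triangle v c z
    rw [dist_comm] at hcz
    linarith
  refine ⟨κ₁ / 8, by positivity, h2.mono ?_⟩
  intro v hv
  rw [mem_ball] at *
  have := dist_triangle v z c
  linarith

theorem HR.compact {Ω : Set ℂ} (hΩ : IsOpen Ω) (hc : IsPreconnected Ω) {x : ℂ} (hx : x ∈ Ω)
    {K : Set ℂ} (hK : IsCompact K) (hKΩ : K ⊆ Ω) : HR Ω x K := by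
  refine hK.induction_on (p := fun s => HR Ω x s) ?_ (fun s t hst h => h.mono hst)
    (fun s t hs ht => hs.union hΩ hx ht) ?_
  · exact (HR.self hΩ hx).mono (empty_subset _)
  · intro z hz
    obtain ⟨t, ht, h⟩ := HR.all hΩ hc hx z (hKΩ hz)
    exact ⟨ball z t, mem_nhdsWithin_of_mem_nhds (ball_mem_nhds z ht), h⟩

end Pool.Agent.H136R3
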