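import Pool.Agent.H136R3.Nonpeak
import Pool.Agent.H136R3.Conn

set_option autoImplicit false

open MeasureTheory Filter Topology Set Metric
open scoped NNReal ENNReal

namespace Pool.Agent.H136R3

open Deriv

/-- `x` is a peak point for `R(X)`. -/
def IsPeak (X : Set ℂ) (x : X) : Prop :=
  ∃ f ∈ R X, f x = 1 ∧ ∀ y : X, y ≠ x → ‖f y‖ < 1

theorem geom_half (n : ℕ) : ∑ j ∈ Finset.range n, (1 / 2 : ℝ) ^ (j + 1) = 1 - (1 / 2) ^ n := by
  induction n with
  | zero => simp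
  | succ n ih => rw [Finset.sum_range_succ, ih, pow_succ]; ring

theorem sum_bound (G : ℕ → ℝ) (n : ℕ) {ε : ℝ} (hε0 : 0 ≤ ε) (hε : ε ≤ (1 / 8) * (1 / 2) ^ n)
    (h1 : ∀ j < n, G j ≤ 1 + ε) (h2 : G n ≤ 4 / 3) (h3 : ∀ j, n < j → G j ≤ 1 / 3) {S : ℝ}
    (hS : HasSum (fun j => (1 / 2 : ℝ) ^ (j + 1) * G j) S) : S < 1 := by
  have a1 : HasSum (fun j : ℕ => (1 / 2 : ℝ) ^ (j + 1) * (1 / 3)) (1 / 3) := by
    have h := (hasSum_geometric_two.mul_left (1 / 2 : ℝ)).mul_right (1 / 3)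
    have h4 : (1 / 2 : ℝ) * 2 * (1 / 3) = 1 / 3 := by norm_num
    rw [h4] at h
    refine h.congr_fun fun j => ?_
    rw [pow_succ]; ring
  have a2 : HasSum (fun j : ℕ => if j < n then (1 / 2 : ℝ) ^ (j + 1) * (2 / 3 + ε) else 0)
      ((1 - (1 / 2) ^ n) * (2 / 3 + ε)) := by
    have h : HasSum (fun j : ℕ => if j < n then (1 / 2 : ℝ) ^ (j + 1) * (2 / 3 + ε) else 0)
        (∑ j ∈ Finset.range n, (if j < n then (1 / 2 : ℝ) ^ (j + 1) * (2 / 3 + ε) else 0)) :=
      hasSum_sum_of_ne_finset_zero (fun b hb => by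
        rw [Finset.mem_range] at hb
        exact if_neg hb)
    have h5 : ∑ j ∈ Finset.range n, (if j < n then (1 / 2 : ℝ) ^ (j + 1) * (2 / 3 + ε) else 0) =
        (1 - (1 / 2) ^ n) * (2 / 3 + ε) := by
      rw [← geom_half, Finset.sum_mul]
      refine Finset.sum_congr rfl fun j hj => ?_
      rw [if_pos (Finset.mem_range.1 hj)]
    rwa [h5] at h
  have a3 : HasSum (fun j : ℕ => if j = n then (1 / 2 : ℝ) ^ (n + 1) else 0)
      ((1 / 2 : ℝ) ^ (n + 1)) := hasSum_ite_eq n _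
  have a4 := (a1.add a2).add a3
  have hle : S ≤ 1 / 3 + (1 - (1 / 2) ^ n) * (2 / 3 + ε) + (1 / 2 : ℝ) ^ (n + 1) := by
    refine hasSum_le (fun j => ?_) hS a4
    have hp : (0 : ℝ) < (1 / 2) ^ (j + 1) := by positivity
    rcases lt_trichotomy j n with h | h | h
    · rw [if_pos h, if_neg h.ne]
      have := h1 j h
      nlinarith
    · subst h
      rw [if_neg (lt_irrefl _), if_pos rfl]
      nlinarith
    · rw [if_neg (by omega), if_neg (by omega)]
      have := h3 j h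
      nlinarith
  have hp : (0 : ℝ) < (1 / 2) ^ n := by positivity
  rw [pow_succ] at hle
  nlinarith

/-- Bishop's criterion. -/
theorem peak_of_bishop {X : Set ℂ} (hX : IsCompact X) {x : X}
    (H : ∀ U : Set ℂ, U ∈ 𝓝 (x : ℂ) → ∃ g ∈ QX X, g x = 1 ∧ (∀ z ∈ X, ‖g z‖ ≤ 4 / 3) ∧
      ∀ z ∈ X, z ∉ U → ‖g z‖ ≤ 1 / 3) : IsPeak X x := by
  classical
  have : CompactSpace X := isCompact_iff_compactSpace.1 hX
  obtain ⟨f, hf, hr⟩ := exists_seq_of_forall_finset_exists
    (fun p : (ℂ → ℂ) × Set ℂ × ℝ => p.1 ∈ QX X ∧ p.1 x = 1 ∧ (∀ z ∈ X, ‖p.1 z‖ ≤ 4 / 3) ∧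
      (∀ z ∈ X, z ∉ p.2.1 → ‖p.1 z‖ ≤ 1 / 3) ∧ p.2.1 ∈ 𝓝 (x : ℂ) ∧ 0 < p.2.2 ∧ p.2.2 ≤ 1 / 8 ∧
      p.2.1 ⊆ ball (x : ℂ) p.2.2)
    (fun p p' : (ℂ → ℂ) × Set ℂ × ℝ => p'.2.1 ⊆ p.2.1 ∧ (∀ z ∈ p'.2.1, ‖p.1 z‖ ≤ 1 + p'.2.2) ∧
      p'.2.2 ≤ p.2.2 / 2) (by
    intro s hs
    obtain ⟨ε, hε, hε8, hεs⟩ : ∃ ε : ℝ, 0 < ε ∧ ε ≤ 1 / 8 ∧ ∀ p ∈ s, ε ≤ p.2.2 / 2 := by
      clear H
      induction s using Finset.induction_on with
      | empty => exact ⟨1 / 8, by norm_num, le_rfl, by simp⟩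
      | insert p s _ ih =>
        obtain ⟨ε, h1, h2, h3⟩ := ih fun p hp => hs p (Finset.mem_insert_of_mem hp)
        have h4 := (hs p (Finset.mem_insert_self _ _)).2.2.2.2.2.1
        refine ⟨min ε (p.2.2 / 2), by positivity, (min_le_left _ _).trans h2, ?_⟩
        intro p' hp'
        rcases Finset.mem_insert.1 hp' with rfl | hp'
        · exact min_le_right _ _
        · exact (min_le_left _ _).trans (h3 p' hp')
    set U : Set ℂ := ball (x : ℂ) ε ∩ ⋂ p ∈ s, (p.2.1 ∩ {z | ‖p.1 z‖ < 1 + ε}) with hU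
    have hUn : U ∈ 𝓝 (x : ℂ) := by
      refine Filter.inter_mem (ball_mem_nhds _ hε) ?_
      rw [Filter.biInter_finset_mem]
      intro p hp
      obtain ⟨h1, h2, -, -, h3, -, -, -⟩ := hs p hp
      refine Filter.inter_mem h3 ?_
      have h4 : ContinuousAt (fun z => ‖p.1 z‖) (x : ℂ) :=
        (QX.differentiableAt h1 x.2).continuousAt.norm
      refine h4.eventually_lt_const ?_
      change ‖p.1 x‖ < 1 + ε
      rw [h2, norm_one]
      linarith
    obtain ⟨g, hg1, hg2, hg3, hg4⟩ := H U hUn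
    refine ⟨(g, U, ε), ⟨hg1, hg2, hg3, hg4, hUn, hε, hε8, inter_subset_left⟩, ?_⟩
    intro p hp
    refine ⟨fun z hz => (mem_iInter₂.1 hz.2 p hp).1, fun z hz => ?_, hεs p hp⟩
    exact (mem_iInter₂.1 hz.2 p hp).2.le)
  -- the sequences
  have hεn : ∀ n, (f n).2.2 ≤ (1 / 8) * (1 / 2) ^ n := by
    intro n
    induction n with
    | zero => simpa using (hf 0).2.2.2.2.2.2.1
    | succ n ih =>
      have := (hr n (n + 1) (Nat.lt_succ_self n)).2.2
      rw [pow_succ]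
      linarith
  let a : ℕ → C(X, ℂ) := fun n => ((1 / 2 : ℂ) ^ (n + 1)) • restr X ⟨(f n).1, (hf n).1⟩
  have hnorm : ∀ n, ‖restr X ⟨(f n).1, (hf n).1⟩‖ ≤ 4 / 3 := by
    intro n
    rw [ContinuousMap.norm_le _ (by norm_num)]
    intro z
    exact (hf n).2.2.1 z z.2
  have hsum : Summable a := by
    refine Summable.of_norm_bounded (g := fun n => (1 / 2 : ℝ) ^ (n + 1) * (4 / 3)) ?_ fun n => ?_
    · exact ((summable_geometric_two).comp_injective (add_left_injective 1)).mul_right _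
    · simp only [a]
      rw [norm_smul, norm_pow]
      have h1 : ‖(1 / 2 : ℂ)‖ = 1 / 2 := by norm_num
      rw [h1]
      exact mul_le_mul_of_nonneg_left (hnorm n) (by positivity)
  have hval : ∀ y : X, HasSum (fun n => ((1 / 2 : ℂ) ^ (n + 1)) * (f n).1 y) ((∑' n, a n) y) := by
    intro y
    have h1 := hsum.hasSum
    have h2 : Continuous fun g : C(X, ℂ) => g y := continuous_eval_const y
    exact h1.map (⟨⟨fun g : C(X, ℂ) => g y, rfl⟩, fun _ _ => rfl⟩ : C(X, ℂ) →+ ℂ) h2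
  refine ⟨∑' n, a n, ?_, ?_, ?_⟩
  · -- membership
    have h1 := hsum.hasSum.tendsto_sum_nat
    refine isClosed_closure.mem_of_tendsto h1 (Eventually.of_forall fun N => subset_closure ?_)
    have h2 : ∑ n ∈ Finset.range N, a n = restr X (∑ n ∈ Finset.range N,
        ((1 / 2 : ℂ) ^ (n + 1)) • (⟨(f n).1, (hf n).1⟩ : QX X)) := by
      rw [map_sum]
      refine Finset.sum_congr rfl fun n _ => ?_
      rw [map_smul]
    rw [h2]
    exact restr_mem _
  · -- value at `x`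
    have h1 := hval x
    have h2 : HasSum (fun n : ℕ => ((1 / 2 : ℂ) ^ (n + 1)) * (f n).1 x) 1 := by
      have h3 : HasSum (fun j : ℕ => (1 / 2 : ℝ) ^ (j + 1)) 1 := by
        have h := hasSum_geometric_two.mul_left (1 / 2 : ℝ)
        have h4 : (1 / 2 : ℝ) * 2 = 1 := by norm_num
        rw [h4] at h
        refine h.congr_fun fun j => ?_
        rw [pow_succ]; ring
      have h4 := Complex.hasSum_ofReal.2 h3
      have h5 : ((1 : ℝ) : ℂ) = 1 := Complex.ofReal_one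
      rw [h5] at h4
      refine h4.congr_fun fun j => ?_
      rw [(hf j).2.1]
      push_cast
      ring
    exact h1.unique h2
  · intro y hy
    have hyx : (y : ℂ) ≠ x := fun h => hy (Subtype.ext h)
    have hex : ∃ n, (y : ℂ) ∉ (f n).2.1 := by
      by_contra hcon
      push Not at hcon
      have hpos : 0 < ‖(y : ℂ) - x‖ := norm_pos_iff.2 (sub_ne_zero.2 hyx)
      obtain ⟨n, hn⟩ := exists_pow_lt_of_lt_one hpos (show (1 / 2 : ℝ) < 1 by norm_num)
      have h1 := (hf n).2.2.2.2.2.2.2 (hcon n)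
      rw [mem_ball, dist_eq_norm] at h1
      have h2 := hεn n
      have h3 : (0 : ℝ) < (1 / 2) ^ n := by positivity
      linarith
    set N := Nat.find hex with hN
    have hNspec : (y : ℂ) ∉ (f N).2.1 := Nat.find_spec hex
    have hge : ∀ j, N ≤ j → ‖(f j).1 y‖ ≤ 1 / 3 := by
      intro j hj
      refine (hf j).2.2.2.1 y y.2 fun h => ?_
      rcases hj.eq_or_lt with rfl | hj
      · exact hNspec h
      · exact hNspec ((hr N j hj).1 h)
    -- the sum of the norms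
    have hsn : Summable fun j => (1 / 2 : ℝ) ^ (j + 1) * ‖(f j).1 y‖ := by
      refine Summable.of_nonneg_of_le (fun j => by positivity) (fun j => ?_)
        (((summable_geometric_two).comp_injective (add_left_injective 1)).mul_right (4 / 3))
      exact mul_le_mul_of_nonneg_left ((hf j).2.2.1 y y.2) (by positivity)
    have hle : ‖(∑' n, a n) y‖ ≤ ∑' j, (1 / 2 : ℝ) ^ (j + 1) * ‖(f j).1 y‖ := by
      rw [← (hval y).tsum_eq]
      refine (norm_tsum_le_tsum_norm ?_).trans (le_of_eq ?_)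
      · refine hsn.congr fun j => ?_
        rw [norm_mul, norm_pow]; norm_num
      · refine tsum_congr fun j => ?_
        rw [norm_mul, norm_pow]; norm_num
    refine hle.trans_lt ?_
    rcases Nat.eq_zero_or_pos N with h0 | hpos
    · refine sum_bound (fun j => ‖(f j).1 y‖) 0 (ε := 0) le_rfl (by norm_num) (by simp) ?_ ?_
        hsn.hasSum
      · have := hge 0 (by omega)
        linarith
      · intro j _
        exact hge j (by omega)
    · obtain ⟨n, hn⟩ : ∃ n, N = n + 1 := ⟨N - 1, by omega⟩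
      have hyn : (y : ℂ) ∈ (f n).2.1 := by
        have := Nat.find_min hex (show n < Nat.find hex by omega)
        exact not_not.1 this
      refine sum_bound (fun j => ‖(f j).1 y‖) n (hf n).2.2.2.2.2.1.le (hεn n) ?_ ?_ ?_ hsn.hasSum
      · intro j hj
        exact (hr j n hj).2.1 y hyn
      · exact (hf n).2.2.1 y y.2
      · intro j hj
        exact hge j (by omega)

/-- A nonpeak point has a dominating measure without mass at the point. -/
theorem exists_measure0 {X : Set ℂ} (hX : IsCompact X) {x : X} (hx : ¬ IsPeak X x) :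
    ∃ μ : Measure X, IsFiniteMeasure μ ∧ μ {x} = 0 ∧
      ∀ f ∈ QX X, ‖f x‖ ≤ ∫ z : X, ‖f z‖ ∂μ := by
  have : CompactSpace X := isCompact_iff_compactSpace.1 hX
  obtain ⟨U, hU, hUno⟩ : ∃ U : Set ℂ, U ∈ 𝓝 (x : ℂ) ∧ ¬ ∃ g ∈ QX X, g x = 1 ∧
      (∀ z ∈ X, ‖g z‖ ≤ 4 / 3) ∧ ∀ z ∈ X, z ∉ U → ‖g z‖ ≤ 1 / 3 := by
    by_contra hcon
    push Not at hcon
    exact hx (peak_of_bishop hX fun U hU => by
      obtain ⟨g, h1, h2, h3, h4⟩ := hcon U hU
      exact ⟨g, h1, h2, h3, h4⟩)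
  obtain ⟨r, hr, hrU⟩ := Metric.mem_nhds_iff.1 hU
  have claim : ∀ f ∈ QX X, ∀ m : ℝ, 0 ≤ m → (∀ z ∈ X, ‖f z‖ ≤ 4 / 3 * m) →
      (∀ z ∈ X, z ∉ U → ‖f z‖ ≤ m / 4) → ‖f x‖ ≤ m := by
    intro f hf m hm h1 h2
    by_contra hlt
    push Not at hlt
    have hfx : 0 < ‖f x‖ := hm.trans_lt hlt
    apply hUno
    refine ⟨fun z => (f x)⁻¹ * f z, mul_mem (QX.const_mem X _) hf, ?_, ?_, ?_⟩
    · exact inv_mul_cancel₀ (norm_pos_iff.1 hfx)
    · intro z hz
      rw [norm_mul, norm_inv, inv_mul_le_iff₀ hfx]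
      have := h1 z hz
      linarith
    · intro z hz hzU
      rw [norm_mul, norm_inv, inv_mul_le_iff₀ hfx]
      have := h2 z hz hzU
      linarith
  -- the weight
  let ω : ℂ → ℝ := fun z => 3 / 4 + 13 / 4 * min 1 (‖z - x‖ / r)
  have hωc : Continuous ω := by
    refine continuous_const.add (continuous_const.mul (continuous_const.min ?_))
    exact (continuous_id.sub continuous_const).norm.div_const _
  have hω1 : ∀ z, 3 / 4 ≤ ω z := by
    intro z
    have : 0 ≤ min 1 (‖z - x‖ / r) := by positivity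
    simp only [ω]
    linarith
  have hω2 : ∀ z, ω z ≤ 4 := by
    intro z
    have : min 1 (‖z - x‖ / r) ≤ 1 := min_le_left _ _
    simp only [ω]
    linarith
  have hω3 : ∀ z, z ∉ U → ω z = 4 := by
    intro z hz
    have h1 : r ≤ ‖z - x‖ := by
      by_contra h
      push Not at h
      exact hz (hrU (by rw [mem_ball, dist_eq_norm]; exact h))
    have h2 : min 1 (‖z - x‖ / r) = 1 := min_eq_left (by rw [le_div_iff₀ hr]; linarith)
    simp only [ω]
    rw [h2]; norm_num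
  have hωx : ω x = 3 / 4 := by
    simp only [ω]
    rw [sub_self, norm_zero, zero_div, min_eq_right zero_le_one]; norm_num
  let ωC : C(X, ℂ) := ⟨fun z => ((ω z : ℝ) : ℂ), by fun_prop⟩
  let T : QX X →ₗ[ℂ] C(X, ℂ) := (LinearMap.mulRight ℂ ωC).comp (restr X)
  let l : QX X →ₗ[ℂ] ℂ :=
    { toFun := fun f => f.1 x
      map_add' := fun f g => rfl
      map_smul' := fun c f => rfl }
  have hT : ∀ (f : QX X) (z : X), ‖T f z‖ = ‖f.1 z‖ * ω z := by
    intro f z
    change ‖f.1 z * ((ω z : ℝ) : ℂ)‖ = _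
    rw [norm_mul, Complex.norm_real, Real.norm_of_nonneg (by linarith [hω1 z])]
  obtain ⟨Ψ, hΨ, hΨ2⟩ := Pool.Agent.H731R2.exists_functional T l 1 zero_le_one (by
    intro f
    rw [one_mul]
    refine claim f.1 f.2 _ (norm_nonneg _) ?_ ?_
    · intro z hz
      have h1 := (T f).norm_coe_le_norm ⟨z, hz⟩
      rw [hT] at h1
      have h2 := hω1 z
      have h3 := norm_nonneg (f.1 z)
      simp only at h1
      nlinarith
    · intro z hz hzU
      have h1 := (T f).norm_coe_le_norm ⟨z, hz⟩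
      rw [hT] at h1
      simp only at h1
      rw [hω3 z hzU] at h1
      linarith)
  obtain ⟨ν, hν1, hν2, hν3⟩ := exists_dominating Ψ
  have hsing : MeasurableSet ({x} : Set X) := measurableSet_singleton x
  refine ⟨(16 : ℝ≥0∞) • ν.restrict {x}ᶜ, ?_, ?_, ?_⟩
  · refine ⟨?_⟩
    rw [Measure.smul_apply, smul_eq_mul]
    exact ENNReal.mul_lt_top (by norm_num) (measure_lt_top _ _)
  · rw [Measure.smul_apply, Measure.restrict_apply hsing, inter_compl_self, measure_empty,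
      smul_zero]
  · intro f hf
    have h1 := hν3 (T ⟨f, hf⟩)
    rw [hΨ2] at h1
    change ‖f x‖ ≤ ∫ z : X, ‖T ⟨f, hf⟩ z‖ ∂ν at h1
    have hint : Integrable (fun z : X => ‖T ⟨f, hf⟩ z‖) ν :=
      (BoundedContinuousFunction.mkOfCompact ⟨_, (T ⟨f, hf⟩).continuous.norm⟩).integrable _
    have hcont : Continuous fun z : X => ‖f z‖ := (QX.continuousOn hf).domRestrict.norm
    have hint2 : Integrable (fun z : X => ‖f z‖) ν :=
      (BoundedContinuousFunction.mkOfCompact ⟨_, hcont⟩).integrable _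
    rw [← integral_add_compl hsing hint, integral_singleton] at h1
    have h2 : ∫ z in ({x}ᶜ : Set X), ‖T ⟨f, hf⟩ z‖ ∂ν ≤ 4 * ∫ z in ({x}ᶜ : Set X), ‖f z‖ ∂ν := by
      rw [← integral_const_mul]
      refine setIntegral_mono hint.integrableOn (hint2.integrableOn.const_mul 4) fun z => ?_
      simp only
      rw [hT]
      have h3 := hω2 z
      have h4 := norm_nonneg (f z)
      simp only
      nlinarith
    rw [hT] at h1
    simp only at h1
    rw [hωx, smul_eq_mul] at h1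
    have h3 : ν.real {x} ≤ 1 :=
      (measureReal_mono (subset_univ _) (measure_ne_top _ _)).trans (hν2.trans hΨ)
    have h4 : ν.real {x} * (‖f x‖ * (3 / 4)) ≤ ‖f x‖ * (3 / 4) := by
      have := norm_nonneg (f x)
      have h5 : 0 ≤ ‖f x‖ * (3 / 4) := by positivity
      nlinarith
    rw [integral_smul_measure]
    have h6 : (16 : ℝ≥0∞).toReal = 16 := by norm_num
    rw [h6, smul_eq_mul]
    linarith

theorem QX.inv_mem' {X : Set ℂ} {g : ℂ → ℂ} (hg : g ∈ QX X) (hne : ∀ z ∈ X, g z ≠ 0) :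
    (fun z => (g z)⁻¹) ∈ QX X := by
  obtain ⟨p, q, hq, h⟩ := hg
  refine ⟨q * q, p * q, fun z hz => ?_, fun z hz => ?_⟩
  · rw [Polynomial.eval_mul]
    refine mul_ne_zero (fun h0 => ?_) (hq z hz)
    apply hne z hz
    rw [h z (hq z hz), h0, zero_div]
  · rw [Polynomial.eval_mul] at hz
    have h1 := left_ne_zero_of_mul hz
    have h2 := right_ne_zero_of_mul hz
    rw [Polynomial.eval_mul, Polynomial.eval_mul]
    change (g z)⁻¹ = _
    rw [h z h2, inv_div]
    field_simp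

/-- The evaluation at a peak point has distance `2` from the other evaluations. -/
theorem not_cl_of_peak {X : Set ℂ} (hX : IsCompact X) {x y : X} (hxy : x ≠ y)
    (hx : IsPeak X x) {δ : ℝ} (hδ : δ < 2) : ¬ Cl X δ x y := by
  intro hcl
  obtain ⟨F, hF, hFx, hlt⟩ := hx
  have hFy : ‖F y‖ < 1 := hlt y hxy.symm
  have hle : ∀ z, ‖F z‖ ≤ 1 := fun z => by
    by_cases hz : z = x
    · rw [hz, hFx, norm_one]
    · exact (hlt z hz).le
  obtain ⟨s, hs0, hs1, hsδ⟩ : ∃ s : ℝ, 0 < s ∧ s < 1 ∧ δ < 1 + s := by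
    refine ⟨max (1 / 2) (δ / 2), ?_, ?_, ?_⟩
    · exact lt_of_lt_of_le (by norm_num) (le_max_left _ _)
    · exact max_lt (by norm_num) (by linarith)
    · have := le_max_right (1 / 2) (δ / 2)
      linarith
  set gap := 1 + s - δ with hgap
  have hgap0 : 0 < gap := by linarith
  have h1s : 0 < 1 - s := by linarith
  obtain ⟨η, hη0, hη1, hη2⟩ : ∃ η : ℝ, 0 < η ∧ 4 * η ≤ gap / 4 ∧ 4 * η / (1 - s) ≤ gap / 4 := by
    refine ⟨gap * (1 - s) / 16, by positivity, ?_, ?_⟩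
    · nlinarith
    · rw [div_le_iff₀ h1s]
      nlinarith
  obtain ⟨n, hn⟩ := exists_pow_lt_of_lt_one hη0 hFy
  obtain ⟨g, hg, hgF⟩ := approx hX (R_pow hX hF n) hη0
  have hη1' : (0 : ℝ) < 1 + η := by linarith
  -- normalisation
  let g' : ℂ → ℂ := fun z => ((1 + η : ℝ) : ℂ)⁻¹ * g z
  have hg' : g' ∈ QX X := mul_mem (QX.const_mem X _) hg
  have hnorm' : ∀ z, ‖g' z‖ = (1 + η)⁻¹ * ‖g z‖ := fun z => by
    simp only [g']
    rw [norm_mul, norm_inv, Complex.norm_real, Real.norm_of_nonneg hη1'.le]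
  have hg'1 : ∀ z ∈ X, ‖g' z‖ ≤ 1 := by
    intro z hz
    rw [hnorm', inv_mul_le_iff₀ hη1', mul_one]
    have h3 := hgF ⟨z, hz⟩
    have h5 : g z = (F ^ n) ⟨z, hz⟩ + (g z - (F ^ n) ⟨z, hz⟩) := by ring
    rw [h5]
    refine (norm_add_le _ _).trans (add_le_add ?_ h3)
    rw [ContinuousMap.pow_apply, norm_pow]
    exact pow_le_one₀ (norm_nonneg _) (hle _)
  have hg'x : ‖g' x - 1‖ ≤ 2 * η := by
    have h3 := hgF x
    rw [ContinuousMap.pow_apply, hFx, one_pow] at h3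
    have h4 : g' x - 1 = ((1 + η : ℝ) : ℂ)⁻¹ * ((g x - 1) - (η : ℂ)) := by
      have : ((1 + η : ℝ) : ℂ) ≠ 0 := by exact_mod_cast hη1'.ne'
      simp only [g']
      field_simp
      push_cast
      ring
    rw [h4, norm_mul, norm_inv, Complex.norm_real, Real.norm_of_nonneg hη1'.le,
      inv_mul_le_iff₀ hη1']
    have h5 : ‖(g x - 1) - (η : ℂ)‖ ≤ η + η := by
      refine (norm_sub_le _ _).trans (add_le_add h3 ?_)
      rw [Complex.norm_real, Real.norm_of_nonneg hη0.le]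
    nlinarith
  have hg'y : ‖g' y‖ ≤ 2 * η := by
    rw [hnorm', inv_mul_le_iff₀ hη1']
    have h3 := hgF y
    have h5 : g y = (F ^ n) y + (g y - (F ^ n) y) := by ring
    have h6 : ‖g y‖ ≤ η + η := by
      rw [h5]
      refine (norm_add_le _ _).trans (add_le_add ?_ h3)
      rw [ContinuousMap.pow_apply, norm_pow]
      exact hn.le
    nlinarith
  -- the composition
  have hden : ∀ z ∈ X, 1 - s ≤ ‖1 - (s : ℂ) * g' z‖ := by
    intro z hz
    have h3 := norm_sub_norm_le (1 : ℂ) ((s : ℂ) * g' z)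
    rw [norm_one, norm_mul, Complex.norm_real, Real.norm_of_nonneg hs0.le] at h3
    have h4 := hg'1 z hz
    nlinarith
  have hden0 : ∀ z ∈ X, 1 - (s : ℂ) * g' z ≠ 0 := fun z hz => by
    rw [← norm_pos_iff]
    exact h1s.trans_le (hden z hz)
  let h : ℂ → ℂ := fun z => (g' z - (s : ℂ)) * (1 - (s : ℂ) * g' z)⁻¹
  have hh : h ∈ QX X := by
    have h3 : (fun z => 1 - (s : ℂ) * g' z) ∈ QX X :=
      sub_mem (QX.const_mem X 1) (mul_mem (QX.const_mem X _) hg')
    exact mul_mem (sub_mem hg' (QX.const_mem X _)) (QX.inv_mem' h3 hden0)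
  have hh1 : ∀ z ∈ X, ‖h z‖ ≤ 1 := by
    intro z hz
    simp only [h]
    rw [norm_mul, norm_inv, mul_inv_le_iff₀ (h1s.trans_le (hden z hz)), one_mul]
    have h3 := sq_norm_sub_eq (g' z) (s : ℂ)
    rw [Complex.conj_ofReal, Complex.norm_real, Real.norm_of_nonneg hs0.le] at h3
    have h4 : 0 ≤ (1 - ‖g' z‖ ^ 2) * (1 - s ^ 2) := by
      have h5 := hg'1 z hz
      have h6 : 0 ≤ 1 - ‖g' z‖ ^ 2 := by nlinarith [norm_nonneg (g' z)]
      have h7 : 0 ≤ 1 - s ^ 2 := by nlinarith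
      positivity
    exact le_of_sq_le_sq (by linarith) (norm_nonneg _)
  have hhx : ‖h x - 1‖ ≤ gap / 4 := by
    have h3 : h x - 1 = (1 + (s : ℂ)) * (g' x - 1) * (1 - (s : ℂ) * g' x)⁻¹ := by
      have := hden0 x x.2
      change (g' x - (s : ℂ)) * (1 - (s : ℂ) * g' x)⁻¹ - 1 =
        (1 + (s : ℂ)) * (g' x - 1) * (1 - (s : ℂ) * g' x)⁻¹
      generalize g' (x : ℂ) = w at this ⊢
      linear_combination mul_inv_cancel₀ this
    rw [h3, norm_mul, norm_mul, norm_inv]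
    refine le_trans ?_ hη2
    rw [mul_inv_le_iff₀ (h1s.trans_le (hden x x.2))]
    have h4 : ‖1 + (s : ℂ)‖ ≤ 2 := by
      refine (norm_add_le _ _).trans ?_
      rw [norm_one, Complex.norm_real, Real.norm_of_nonneg hs0.le]
      linarith
    have h5 := hden x x.2
    calc ‖1 + (s : ℂ)‖ * ‖g' x - 1‖ ≤ 2 * (2 * η) := by gcongr
      _ = 4 * η / (1 - s) * (1 - s) := by field_simp; ring
      _ ≤ _ := by gcongr
  have hhy : ‖h y + (s : ℂ)‖ ≤ gap / 4 := by
    have h3 : h y + (s : ℂ) = (1 - (s : ℂ) ^ 2) * g' y * (1 - (s : ℂ) * g' y)⁻¹ := by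
      have := hden0 y y.2
      change (g' y - (s : ℂ)) * (1 - (s : ℂ) * g' y)⁻¹ + (s : ℂ) =
        (1 - (s : ℂ) ^ 2) * g' y * (1 - (s : ℂ) * g' y)⁻¹
      generalize g' (y : ℂ) = w at this ⊢
      linear_combination (-(s : ℂ)) * mul_inv_cancel₀ this
    rw [h3, norm_mul, norm_mul, norm_inv]
    refine le_trans ?_ hη1
    rw [mul_inv_le_iff₀ (h1s.trans_le (hden y y.2))]
    have h4 : ‖1 - (s : ℂ) ^ 2‖ = (1 + s) * (1 - s) := by
      have : (1 - (s : ℂ) ^ 2) = (((1 + s) * (1 - s) : ℝ) : ℂ) := by push_cast; ring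
      rw [this, Complex.norm_real, Real.norm_of_nonneg (by positivity)]
    have h5 := hden y y.2
    rw [h4]
    calc (1 + s) * (1 - s) * ‖g' y‖ ≤ (1 + 1) * (1 - s) * (2 * η) := by gcongr
      _ = 4 * η * (1 - s) := by ring
      _ ≤ _ := by gcongr
  have hfin := hcl h hh 1 hh1
  have h3 : ((1 + s : ℝ) : ℂ) = -(h x - 1) + (h x - h y) + (h y + (s : ℂ)) := by push_cast; ring
  have h4 : 1 + s ≤ gap / 4 + δ * 1 + gap / 4 := by
    calc 1 + s = ‖((1 + s : ℝ) : ℂ)‖ := by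
          rw [Complex.norm_real, Real.norm_of_nonneg (by linarith)]
      _ = ‖-(h x - 1) + (h x - h y) + (h y + (s : ℂ))‖ := by rw [← h3]
      _ ≤ _ := by
        refine (norm_add_le _ _).trans (add_le_add ?_ hhy)
        refine (norm_add_le _ _).trans (add_le_add ?_ hfin)
        rw [norm_neg]
        exact hhx
  linarith

end Pool.Agent.H136R3
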