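import Pool.Agent.H136R3.Grid

set_option autoImplicit false

open MeasureTheory Filter Topology Set Metric
open scoped NNReal ENNReal Real

namespace Pool.Agent.H136R3

theorem harmonic_two_pow (m : ℕ) : (m : ℝ) / 2 ≤ ∑ i ∈ Finset.range (2 ^ m), ((i : ℝ) + 1)⁻¹ := by
  induction m with
  | zero => simp
  | succ m ih =>
    rw [pow_succ, mul_two, Finset.sum_range_add]
    have h1 : (1 : ℝ) / 2 ≤ ∑ x ∈ Finset.range (2 ^ m), (((2 ^ m + x : ℕ) : ℝ) + 1)⁻¹ := by
      calc (1 : ℝ) / 2 = ∑ _x ∈ Finset.range (2 ^ m), ((2 : ℝ) ^ m * 2)⁻¹ := by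
            rw [Finset.sum_const, Finset.card_range, nsmul_eq_mul]
            push_cast
            field_simp
        _ ≤ _ := by
            refine Finset.sum_le_sum fun x hx => ?_
            rw [Finset.mem_range] at hx
            have h2 : ((x : ℝ) + 1) ≤ 2 ^ m := by exact_mod_cast hx
            push_cast
            gcongr
            linarith
    push_cast at h1 ⊢
    linarith

namespace Par

variable (P : Par)

theorem ctr_notMem (i : ℕ × ℤ × ℤ) : P.ctr i ∉ P.XX := by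
  intro h
  have := h.2 i
  rw [sub_self, norm_zero] at this
  have := P.rr_pos i.1
  linarith

/-- sum of `r / |z - a|` over finitely many grid points of one stage, for `z` in `XX`. -/
theorem sum_stage_le {ι : Type*} (A : Finset ι) (k : ℕ) (a : ι → ℤ × ℤ) (ha : Set.InjOn a A)
    {z y : ℂ} (hz : ∀ i ∈ A, P.rr k ≤ ‖z - P.ctr (k, a i)‖) {T : ℝ} (hT : 0 < T)
    (hin : ∀ i ∈ A, ‖P.ctr (k, a i) - y‖ ≤ T) :
    ∑ i ∈ A, P.rr k * ‖z - P.ctr (k, a i)‖⁻¹ ≤ 1 + 60 * (T + 1) * P.cc k := by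
  classical
  have hd := P.dl_pos k
  have hr := P.rr_pos k
  have hsep : ∀ i ∈ A, ∀ j ∈ A, i ≠ j → P.dl k ≤ ‖P.ctr (k, a i) - P.ctr (k, a j)‖ := by
    intro i hi j hj hij
    refine P.sep_stage (i := (k, a i)) (i' := (k, a j)) rfl ?_
    intro h
    exact hij (ha hi hj (Prod.ext_iff.1 h).2)
  rw [← Finset.sum_filter_add_sum_filter_not A (fun i => ‖z - P.ctr (k, a i)‖ < P.dl k / 8)]
  refine add_le_add ?_ ?_
  · have hcard : (A.filter fun i => ‖z - P.ctr (k, a i)‖ < P.dl k / 8).card ≤ 1 := by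
      rw [Finset.card_le_one]
      intro i hi j hj
      rw [Finset.mem_filter] at hi hj
      by_contra hij
      have h1 := hsep i hi.1 j hj.1 hij
      have h3 : ‖P.ctr (k, a i) - P.ctr (k, a j)‖ ≤ ‖z - P.ctr (k, a j)‖ + ‖z - P.ctr (k, a i)‖ := by
        have : P.ctr (k, a i) - P.ctr (k, a j) = (z - P.ctr (k, a j)) - (z - P.ctr (k, a i)) := by
          ring
        rw [this]; exact norm_sub_le _ _
      linarith [hi.2, hj.2]
    calc ∑ i ∈ A.filter (fun i => ‖z - P.ctr (k, a i)‖ < P.dl k / 8),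
          P.rr k * ‖z - P.ctr (k, a i)‖⁻¹
        ≤ ∑ i ∈ A.filter (fun i => ‖z - P.ctr (k, a i)‖ < P.dl k / 8), (1 : ℝ) := by
          refine Finset.sum_le_sum fun i hi => ?_
          rw [Finset.mem_filter] at hi
          have h1 := hz i hi.1
          have h2 : 0 < ‖z - P.ctr (k, a i)‖ := hr.trans_le h1
          rw [← div_eq_mul_inv, div_le_one h2]
          exact h1
      _ = ((A.filter fun i => ‖z - P.ctr (k, a i)‖ < P.dl k / 8).card : ℝ) := by simp
      _ ≤ 1 := by exact_mod_cast hcard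
  · rw [← Finset.mul_sum]
    have h1 := sum_inv_le (A.filter fun i => ¬ ‖z - P.ctr (k, a i)‖ < P.dl k / 8)
      (fun i => P.ctr (k, a i)) (z := z) (y := y) hd (P.dl_le k) hT
      (fun i hi j hj hij => hsep i (Finset.mem_filter.1 hi).1 j (Finset.mem_filter.1 hj).1 hij)
      (fun i hi => hin i (Finset.mem_filter.1 hi).1)
      (fun i hi => not_lt.1 (Finset.mem_filter.1 hi).2)
    calc _ ≤ P.rr k * (60 * (T + 1) / P.dl k ^ 2) := mul_le_mul_of_nonneg_left h1 hr.le
      _ = 60 * (T + 1) * P.cc k := by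
        unfold rr
        field_simp

/-- The norms of the derivatives are unbounded at each point. -/
theorem not_N2 (hP : ∀ k, k * 2 ^ P.s k ≤ P.m k) {x : ℂ} (hx : x ∈ P.XX) (K : ℝ) :
    ¬ N2 P.XX K x := by
  intro hK
  have key : ∀ k : ℕ, (k : ℝ) / 16 ≤ K * 9 := by
    intro k
    have hd := P.dl_pos k
    have hr := P.rr_pos k
    set N := 2 ^ P.m k with hN
    have hNd : (N : ℝ) * P.dl k = 1 := by
      unfold dl
      rw [hN]
      push_cast
      rw [← mul_pow]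
      norm_num
    let A : Finset ((_ : ℕ) × ℕ) := (Finset.range N).sigma fun i => Finset.range (i + 1)
    let a : ((_ : ℕ) × ℕ) → ℤ × ℤ := fun p =>
      (⌊x.re / P.dl k⌋ + ((p.1 : ℤ) + 1), ⌊x.im / P.dl k⌋ + ((p.2 : ℤ) + 1))
    have ha : Set.InjOn a A := by
      rintro ⟨i, j⟩ - ⟨i', j'⟩ - h
      simp only [a, Prod.mk.injEq, add_right_inj, add_left_inj, Nat.cast_inj] at h
      obtain ⟨rfl, rfl⟩ := h
      rfl
    -- coordinates of the difference
    have hsq : ∀ p ∈ A, ‖P.ctr (k, a p) - x‖ ^ 2 ≤ 2 * ((p.1 : ℝ) + 1) ^ 2 * P.dl k ^ 2 := by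
      rintro ⟨i, j⟩ hp
      simp only [A, Finset.mem_sigma, Finset.mem_range] at hp
      have hji : (j : ℝ) ≤ i := by
        have : j ≤ i := by omega
        exact_mod_cast this
      rw [norm_sq_eq]
      have hre : (P.ctr (k, a ⟨i, j⟩) - x).re = ((⌊x.re / P.dl k⌋ : ℝ) + (i + 1)) * P.dl k - x.re := by
        simp [ctr, a]
      have him : (P.ctr (k, a ⟨i, j⟩) - x).im = ((⌊x.im / P.dl k⌋ : ℝ) + (j + 1)) * P.dl k - x.im := by
        simp [ctr, a]
      rw [hre, him]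
      have bnd : ∀ (t : ℝ) (n : ℕ), 0 ≤ ((⌊t / P.dl k⌋ : ℝ) + (n + 1)) * P.dl k - t ∧
          ((⌊t / P.dl k⌋ : ℝ) + (n + 1)) * P.dl k - t ≤ ((n : ℝ) + 1) * P.dl k := by
        intro t n
        have h1 := Int.floor_le (t / P.dl k)
        have h2 := Int.lt_floor_add_one (t / P.dl k)
        rw [le_div_iff₀ hd] at h1
        rw [div_lt_iff₀ hd] at h2
        have hn : (0 : ℝ) ≤ n := Nat.cast_nonneg n
        have h3 : 0 ≤ (n : ℝ) * P.dl k := by positivity
        constructor <;> nlinarith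
      obtain ⟨h1, h2⟩ := bnd x.re i
      obtain ⟨h3, h4⟩ := bnd x.im j
      have h5 : ((j : ℝ) + 1) * P.dl k ≤ ((i : ℝ) + 1) * P.dl k := by gcongr
      have h6 := pow_le_pow_left₀ h1 h2 2
      have h7 := pow_le_pow_left₀ h3 (h4.trans h5) 2
      have h8 : (((i : ℝ) + 1) * P.dl k) ^ 2 = ((i : ℝ) + 1) ^ 2 * P.dl k ^ 2 := by ring
      rw [h8] at h6 h7
      have h9 : 2 * ((i : ℝ) + 1) ^ 2 * P.dl k ^ 2 = ((i : ℝ) + 1) ^ 2 * P.dl k ^ 2 +
        ((i : ℝ) + 1) ^ 2 * P.dl k ^ 2 := by ring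
      rw [h9]
      exact add_le_add h6 h7
    have hin : ∀ p ∈ A, ‖P.ctr (k, a p) - x‖ ≤ 2 := by
      intro p hp
      have h1 := hsq p hp
      have h2 : ((p.1 : ℝ) + 1) * P.dl k ≤ 1 := by
        have : p.1 + 1 ≤ N := by
          have := (Finset.mem_sigma.1 hp).1
          rw [Finset.mem_range] at this
          omega
        have h3 : ((p.1 : ℝ) + 1) ≤ N := by exact_mod_cast this
        calc ((p.1 : ℝ) + 1) * P.dl k ≤ N * P.dl k := by gcongr
          _ = 1 := hNd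
      have h3 : 0 ≤ ((p.1 : ℝ) + 1) * P.dl k := by positivity
      have h4 : ‖P.ctr (k, a p) - x‖ ^ 2 ≤ 2 := by
        have h5 : 2 * ((p.1 : ℝ) + 1) ^ 2 * P.dl k ^ 2 = 2 * (((p.1 : ℝ) + 1) * P.dl k) ^ 2 := by
          ring
        rw [h5] at h1
        nlinarith
      nlinarith [norm_nonneg (P.ctr (k, a p) - x)]
    have hxa : ∀ p, 0 < ‖x - P.ctr (k, a p)‖ := fun p => hr.trans_le (hx.2 (k, a p))
    -- the function
    let u : ((_ : ℕ) × ℕ) → ℂ := fun p =>
      (P.rr k : ℂ) * ((x - P.ctr (k, a p)) ^ 2 / ((‖x - P.ctr (k, a p)‖ : ℂ) ^ 2))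
    have hu : ∀ p, ‖u p‖ = P.rr k := by
      intro p
      have h1 : ‖x - P.ctr (k, a p)‖ ^ 2 ≠ 0 := by have := hxa p; positivity
      simp only [u]
      rw [norm_mul, norm_div, norm_pow, norm_pow, Complex.norm_real, Complex.norm_real, norm_norm,
        div_self h1, mul_one, Real.norm_of_nonneg hr.le]
    let g : ℂ → ℂ := fun z => ∑ p ∈ A, u p * (z - P.ctr (k, a p))⁻¹
    have hgmem : g ∈ QX P.XX := by
      have h1 : g = ∑ p ∈ A, (fun _ => u p) * (fun z => (z - P.ctr (k, a p))⁻¹) := by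
        funext z
        simp [g, Finset.sum_apply]
      rw [h1]
      exact sum_mem fun p _ => mul_mem (QX.const_mem _ _) (QX.inv_mem (P.ctr_notMem _))
    have hgb : ∀ z ∈ P.XX, ‖g z‖ ≤ 9 := by
      intro z hz
      have h1 := P.sum_stage_le A k a ha (z := z) (y := x) (fun i _ => hz.2 (k, a i))
        (T := 2) (by norm_num) hin
      have h2 := P.cc_le k
      calc ‖g z‖ ≤ ∑ p ∈ A, ‖u p * (z - P.ctr (k, a p))⁻¹‖ := norm_sum_le _ _
        _ = ∑ p ∈ A, P.rr k * ‖z - P.ctr (k, a p)‖⁻¹ := by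
            refine Finset.sum_congr rfl fun p _ => ?_
            rw [norm_mul, hu, norm_inv]
        _ ≤ _ := h1
        _ ≤ 9 := by linarith
    have hder : HasDerivAt g (∑ p ∈ A, u p * (-1 / (x - P.ctr (k, a p)) ^ 2)) x := by
      refine HasDerivAt.fun_sum fun p _ => ?_
      refine HasDerivAt.const_mul _ ?_
      have h1 : HasDerivAt (fun z : ℂ => z - P.ctr (k, a p)) 1 x := (hasDerivAt_id' x).sub_const _
      exact h1.fun_inv (norm_pos_iff.1 (hxa p))
    have hval : ∑ p ∈ A, u p * (-1 / (x - P.ctr (k, a p)) ^ 2) =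
        ((-∑ p ∈ A, P.rr k / ‖x - P.ctr (k, a p)‖ ^ 2 : ℝ) : ℂ) := by
      rw [← Finset.sum_neg_distrib]
      push_cast
      refine Finset.sum_congr rfl fun p _ => ?_
      have h1 : x - P.ctr (k, a p) ≠ 0 := norm_pos_iff.1 (hxa p)
      have h2 : (‖x - P.ctr (k, a p)‖ : ℂ) ≠ 0 := by
        have := (hxa p).ne'
        exact_mod_cast this
      simp only [u]
      field_simp
    have h3 := hK g hgmem 9 hgb
    rw [hder.deriv, hval, Complex.norm_real, norm_neg, Real.norm_of_nonneg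
      (Finset.sum_nonneg fun p _ => by positivity)] at h3
    refine le_trans ?_ h3
    have h4 : ∑ i ∈ Finset.range N, P.cc k / 2 * ((i : ℝ) + 1)⁻¹ ≤
        ∑ p ∈ A, P.rr k / ‖x - P.ctr (k, a p)‖ ^ 2 := by
      rw [Finset.sum_sigma]
      refine Finset.sum_le_sum fun i hi => ?_
      calc P.cc k / 2 * ((i : ℝ) + 1)⁻¹
          = ∑ _j ∈ Finset.range (i + 1), P.rr k / (2 * ((i : ℝ) + 1) ^ 2 * P.dl k ^ 2) := by
            rw [Finset.sum_const, Finset.card_range, nsmul_eq_mul]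
            unfold rr
            push_cast
            field_simp
        _ ≤ _ := by
            refine Finset.sum_le_sum fun j hj => ?_
            have h5 := hsq ⟨i, j⟩ (Finset.mem_sigma.2 ⟨hi, hj⟩)
            have h6 := hxa ⟨i, j⟩
            rw [norm_sub_rev] at h5
            gcongr
    refine le_trans ?_ h4
    rw [← Finset.mul_sum]
    have h5 := harmonic_two_pow (P.m k)
    rw [← hN] at h5
    have h6 : (1 / 2 : ℝ) ^ P.s k / 2 ≤ P.cc k := by
      unfold cc
      have : Real.sqrt 3 ≤ 2 := by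
        rw [Real.sqrt_le_left (by norm_num)]; norm_num
      gcongr
    have h7 : (k : ℝ) * 2 ^ P.s k ≤ P.m k := by exact_mod_cast hP k
    have h8 : (k : ℝ) ≤ P.m k * (1 / 2) ^ P.s k := by
      have h9 : (2 : ℝ) ^ P.s k * (1 / 2) ^ P.s k = 1 := by rw [← mul_pow]; norm_num
      calc (k : ℝ) = (k * 2 ^ P.s k) * (1 / 2) ^ P.s k := by rw [mul_assoc, h9, mul_one]
        _ ≤ _ := by gcongr
    calc (k : ℝ) / 16 ≤ (P.m k * (1 / 2) ^ P.s k) / 8 := by
          have : (0 : ℝ) ≤ k := Nat.cast_nonneg k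
          linarith
      _ = (1 / 2 : ℝ) ^ P.s k / 2 / 2 * (P.m k / 2) := by ring
      _ ≤ P.cc k / 2 * ∑ i ∈ Finset.range N, ((i : ℝ) + 1)⁻¹ := by
          have := P.cc_pos k
          gcongr
  obtain ⟨k, hk⟩ := exists_nat_gt (K * 9 * 16)
  have := key k
  linarith

end Par

end Pool.Agent.H136R3
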