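import Pool.Agent.H136R3.Cheese

set_option autoImplicit false

open MeasureTheory Filter Topology Set Metric
open scoped NNReal ENNReal

namespace Pool.Agent.H136R3

/-- summability of `r n / (|a n - w| - r n)` from the finiteness of the potential -/
theorem summable_of_potential {a : ℕ → ℂ} {r : ℕ → ℝ} {w : ℂ} (hr : ∀ n, 0 < r n)
    (hgt : ∀ n, r n < ‖a n - w‖)
    (hw2 : ∑' n, ENNReal.ofReal (r n) * (‖a n - w‖ₑ)⁻¹ < ⊤) :
    Summable fun n => r n / (‖a n - w‖ - r n) := by
  -- summability of `r n / |a n - w|`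
  have hsum : Summable fun n => r n / ‖a n - w‖ := by
    have h3 : ∀ n, ENNReal.ofReal (r n) * (‖a n - w‖ₑ)⁻¹ = ENNReal.ofReal (r n / ‖a n - w‖) := by
      intro n
      have hpos : 0 < ‖a n - w‖ := (hr n).trans (hgt n)
      rw [← ofReal_norm, ← ENNReal.ofReal_inv_of_pos hpos, ← ENNReal.ofReal_mul (hr n).le,
        div_eq_mul_inv]
    simp_rw [h3] at hw2
    have h4 := ENNReal.summable_toReal hw2.ne
    refine h4.congr fun n => ?_
    rw [ENNReal.toReal_ofReal (div_nonneg (hr n).le (norm_nonneg _))]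
  -- eventually `r n ≤ |a n - w| / 2`
  have h5 : ∀ᶠ n in atTop, r n / ‖a n - w‖ < 1 / 2 :=
    (hsum.tendsto_atTop_zero).eventually (gt_mem_nhds (by norm_num))
  obtain ⟨N, hN⟩ := eventually_atTop.1 h5
  rw [← summable_nat_add_iff N]
  refine Summable.of_nonneg_of_le (fun n => ?_) (fun n => ?_)
    (((summable_nat_add_iff N).2 hsum).mul_left 2)
  · exact div_nonneg (hr _).le (by linarith [hgt (n + N)])
  · have h6 := hN (n + N) (by omega)
    have hpos : 0 < ‖a (n + N) - w‖ := (hr _).trans (hgt _)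
    rw [div_lt_iff₀ hpos] at h6
    have h7 := hgt (n + N)
    have h8 := hr (n + N)
    rw [div_le_iff₀ (by linarith)]
    have h9 : 2 * (r (n + N) / ‖a (n + N) - w‖) * (‖a (n + N) - w‖ - r (n + N)) =
        2 * r (n + N) * ((‖a (n + N) - w‖ - r (n + N)) / ‖a (n + N) - w‖) := by
      field_simp
    rw [h9]
    have h10 : 1 / 2 ≤ (‖a (n + N) - w‖ - r (n + N)) / ‖a (n + N) - w‖ := by
      rw [le_div_iff₀ hpos]; linarith
    nlinarith


end Pool.Agent.H136R3
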