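import Pool.Agent.H136R3.Param
import Pool.Agent.H136R3.Bishop
import Pool.Agent.H136R3.NoBpd
import Pool.Agent.H136R3.Potential

set_option autoImplicit false

open MeasureTheory Filter Topology Set Metric
open scoped NNReal ENNReal Real

namespace Pool.Agent.H136R3

open Deriv

/-- from a transfer property to the Gleason relation -/
theorem cl_of_transfer {X : Set ℂ} {y x : ℂ} (hy : y ∈ X) (hx : x ∈ X) {τ c : ℝ} (hτ : 0 < τ)
    (hc : c < 2) (H : ∀ f ∈ QX X, (∀ w ∈ X, ‖f w‖ ≤ 1) → ‖f y - 1‖ ≤ τ → ‖f x - 1‖ ≤ c) :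
    ∃ δ : ℝ, δ < 2 ∧ Cl X δ y x := by
  set τ' := min τ (min ((2 - c) / 4) (1 / 2)) with hτ'
  have h2c : 0 < (2 - c) / 4 := by linarith
  have hτ0 : 0 < τ' := by positivity
  have ht1 : τ' ≤ τ := min_le_left _ _
  have ht2 : τ' ≤ (2 - c) / 4 := (min_le_right _ _).trans (min_le_left _ _)
  have ht3 : τ' ≤ 1 / 2 := (min_le_right _ _).trans (min_le_right _ _)
  refine ⟨2 - τ', by linarith, fun f hf M hM => ?_⟩
  have hM0 : 0 ≤ M := (norm_nonneg _).trans (hM y hy)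
  by_contra hcon
  push Not at hcon
  rcases hM0.eq_or_lt with h0 | hMpos
  · have h1 := hM y hy
    have h2 := hM x hx
    rw [← h0] at h1 h2 hcon
    have h3 := norm_sub_le (f y) (f x)
    linarith
  have hxM := hM x hx
  have hyM := hM y hy
  have hfy : (1 - τ') * M < ‖f y‖ := by
    have h3 := norm_sub_le (f y) (f x)
    nlinarith
  have hfy0 : 0 < ‖f y‖ := by
    refine lt_of_le_of_lt ?_ hfy
    have : 0 ≤ 1 - τ' := by linarith
    positivity
  have hfyne : f y ≠ 0 := norm_pos_iff.1 hfy0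
  set u : ℂ := (‖f y‖ : ℂ) * (f y)⁻¹ * (M : ℂ)⁻¹ with hu
  have hun : ‖u‖ = M⁻¹ := by
    rw [hu, norm_mul, norm_mul, norm_inv, norm_inv, Complex.norm_real, norm_norm,
      mul_inv_cancel₀ hfy0.ne', one_mul, Complex.norm_real, Real.norm_of_nonneg hM0]
  have h1 := H (fun z => u * f z) (mul_mem (QX.const_mem X u) hf) (fun w hw => by
    rw [norm_mul, hun, inv_mul_le_iff₀ hMpos, mul_one]
    exact hM w hw) (by
      have h2 : u * f y - 1 = (((‖f y‖ - M) / M : ℝ) : ℂ) := by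
        have hMne : (M : ℂ) ≠ 0 := by exact_mod_cast hMpos.ne'
        rw [hu]
        push_cast
        field_simp
      rw [h2, Complex.norm_real, Real.norm_eq_abs, abs_div, abs_of_pos hMpos,
        div_le_iff₀ hMpos, abs_of_nonpos (by linarith)]
      nlinarith)
  have h2 : ‖u * f y - 1‖ ≤ τ' := by
    have h2 : u * f y - 1 = (((‖f y‖ - M) / M : ℝ) : ℂ) := by
      have hMne : (M : ℂ) ≠ 0 := by exact_mod_cast hMpos.ne'
      rw [hu]
      push_cast
      field_simp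
    rw [h2, Complex.norm_real, Real.norm_eq_abs, abs_div, abs_of_pos hMpos,
      div_le_iff₀ hMpos, abs_of_nonpos (by linarith)]
    nlinarith
  have h3 : ‖u * f y - u * f x‖ ≤ τ' + c := by
    have h4 : u * f y - u * f x = (u * f y - 1) - (u * f x - 1) := by ring
    rw [h4]
    exact (norm_sub_le _ _).trans (add_le_add h2 h1)
  rw [← mul_sub, norm_mul, hun, inv_mul_le_iff₀ hMpos] at h3
  nlinarith

theorem rel_of_cl {X : Set ℂ} (hX : IsCompact X) {x y : X} {δ : ℝ} (h : Cl X δ x y) :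
    ∀ f ∈ R X, ∀ M : ℝ, (∀ z : X, ‖f z‖ ≤ M) → ‖f x - f y‖ ≤ δ * M := by
  intro f hf M hM
  have h1 : ∀ ε : ℝ, 0 < ε → ‖f x - f y‖ ≤ δ * M + (|δ| + 2) * ε := by
    intro ε hε
    obtain ⟨g, hg, hgf⟩ := approx hX hf hε
    have h2 := h g hg (M + ε) (fun z hz => by
      have h3 : g z = f ⟨z, hz⟩ + (g z - f ⟨z, hz⟩) := by ring
      rw [h3]
      exact (norm_add_le _ _).trans (add_le_add (hM _) (hgf ⟨z, hz⟩)))
    have h4 : f x - f y = -(g x - f x) + (g x - g y) + (g y - f y) := by ring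
    rw [h4]
    have h5 : ‖-(g x - f x) + (g x - g y) + (g y - f y)‖ ≤ ε + δ * (M + ε) + ε := by
      refine (norm_add_le _ _).trans (add_le_add ?_ (hgf y))
      refine (norm_add_le _ _).trans (add_le_add ?_ h2)
      rw [norm_neg]
      exact hgf x
    have h6 : δ * ε ≤ |δ| * ε := mul_le_mul_of_nonneg_right (le_abs_self δ) hε.le
    linarith
  apply le_of_forall_pos_le_add
  intro ε hε
  have h2 := h1 (ε / (|δ| + 2)) (by positivity)
  rw [mul_div_cancel₀ _ (by positivity)] at h2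
  exact h2

theorem cl_of_rel {X : Set ℂ} {x y : X} {δ : ℝ}
    (h : ∀ f ∈ R X, ∀ M : ℝ, (∀ z : X, ‖f z‖ ≤ M) → ‖f x - f y‖ ≤ δ * M) : Cl X δ x y := by
  intro f hf M hM
  exact h (restr X ⟨f, hf⟩) (subset_closure (restr_mem _)) M fun z => hM z z.2

namespace Par

variable (P : Par)

theorem interior_XX : interior P.XX = ∅ := by
  rw [Set.eq_empty_iff_forall_notMem]
  intro z hz
  obtain ⟨ε, hε, hball⟩ := Metric.isOpen_iff.1 isOpen_interior z hz
  obtain ⟨k, hk⟩ := exists_pow_lt_of_lt_one (show 0 < ε / 2 by positivity)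
    (show (1 / 2 : ℝ) < 1 by norm_num)
  have hd := P.dl_pos k
  have hdk : P.dl k ≤ (1 / 2) ^ k := by
    unfold dl
    exact pow_le_pow_of_le_one (by norm_num) (by norm_num) (P.m_mono.id_le k)
  have key : ∀ t : ℝ, |t - (⌊t / P.dl k⌋ : ℝ) * P.dl k| ≤ P.dl k := by
    intro t
    have h1 := Int.floor_le (t / P.dl k)
    have h2 := Int.lt_floor_add_one (t / P.dl k)
    rw [le_div_iff₀ hd] at h1
    rw [div_lt_iff₀ hd] at h2
    rw [abs_le]
    constructor <;> linarith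
  apply P.ctr_notMem (k, ⌊z.re / P.dl k⌋, ⌊z.im / P.dl k⌋)
  apply interior_subset (hball ?_)
  rw [mem_ball, dist_comm, dist_eq_norm]
  have h1 := Complex.norm_le_abs_re_add_abs_im (z - P.ctr (k, ⌊z.re / P.dl k⌋, ⌊z.im / P.dl k⌋))
  have h2 : (z - P.ctr (k, ⌊z.re / P.dl k⌋, ⌊z.im / P.dl k⌋)).re =
      z.re - (⌊z.re / P.dl k⌋ : ℝ) * P.dl k := by simp [ctr]
  have h3 : (z - P.ctr (k, ⌊z.re / P.dl k⌋, ⌊z.im / P.dl k⌋)).im =
      z.im - (⌊z.im / P.dl k⌋ : ℝ) * P.dl k := by simp [ctr]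
  rw [h2, h3] at h1
  have h4 := key z.re
  have h5 := key z.im
  linarith

theorem infinite_good : Infinite {i : ℕ × ℤ × ℤ // P.Good i} := by
  by_contra hcon
  rw [not_infinite_iff_finite] at hcon
  have hfin : {i : ℕ × ℤ × ℤ | P.Good i}.Finite :=
    (Set.finite_range fun i : {i : ℕ × ℤ × ℤ // P.Good i} => i.1).subset
      fun i hi => ⟨⟨i, hi⟩, rfl⟩
  set S := hfin.toFinset with hS
  have hmem : ∀ i, i ∈ S ↔ P.Good i := fun i => by rw [hS, Set.Finite.mem_toFinset]; rfl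
  have hsub : Om (0 : ℂ) R0 S P.ctr (fun i => P.rr i.1) ⊆ P.XX := by
    intro z hz
    by_contra hzX
    have h1 := hz.1
    rw [mem_ball, dist_zero_right] at h1
    obtain ⟨i, hi, hzi⟩ := P.exists_good hzX h1.le
    exact hz.2 i ((hmem i).2 hi) (ball_subset_closedBall hzi)
  have hx : x0 ∈ Om (0 : ℂ) R0 S P.ctr (fun i => P.rr i.1) := by
    obtain ⟨h1, h2⟩ := P.mem_XX_of_line (z := x0) (by simp [x0]) rfl
    refine ⟨by rwa [mem_ball, dist_zero_right], fun i _ => ?_⟩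
    rw [mem_closedBall, dist_eq_norm, not_le]
    have := h2 i
    have := P.rr_le' i.1
    have := P.dl_pos i.1
    linarith
  have h1 : x0 ∈ interior P.XX := interior_maximal hsub (isOpen_Om S) hx
  rw [P.interior_XX] at h1
  exact h1

theorem summable_rr : Summable fun i : {i : ℕ × ℤ × ℤ // P.Good i} => P.rr i.1.1 := by
  refine summable_of_sum_le (c := 13 * (480 * P.cc 0)) (fun i => (P.rr_pos _).le) fun u => ?_
  have h1 := P.tail_sum (u.map (Function.Embedding.subtype _)) 0 (fun _ _ => Nat.zero_le _)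
    (fun i hi => by
      obtain ⟨j, -, rfl⟩ := Finset.mem_map.1 hi
      exact (j.2.1.le.trans R0_lt.le)) (z := 10) (fun i hi => by
      obtain ⟨j, -, rfl⟩ := Finset.mem_map.1 hi
      have h2 : ‖P.ctr j.1‖ ≤ 3 := j.2.1.le.trans R0_lt.le
      have h3 := norm_sub_norm_le (10 : ℂ) (P.ctr j.1)
      have h4 : ‖(10 : ℂ)‖ = 10 := by norm_num
      have h5 := P.dl_le j.1.1
      change P.dl j.1.1 / 6 ≤ ‖10 - P.ctr j.1‖
      linarith)
  rw [Finset.sum_map] at h1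
  have h2 : ∑ i ∈ u, P.rr i.1.1 ≤ 13 * ∑ i ∈ u, P.rr i.1.1 * ‖10 - P.ctr i.1‖⁻¹ := by
    rw [Finset.mul_sum]
    refine Finset.sum_le_sum fun i _ => ?_
    have h2 : ‖P.ctr i.1‖ ≤ 3 := i.2.1.le.trans R0_lt.le
    have h3 := norm_sub_norm_le (10 : ℂ) (P.ctr i.1)
    have h4 : ‖(10 : ℂ)‖ = 10 := by norm_num
    have h5 : ‖10 - P.ctr i.1‖ ≤ 13 := by
      refine (norm_sub_le _ _).trans ?_
      linarith
    have h6 : 0 < ‖10 - P.ctr i.1‖ := by linarith
    have h7 : (1 : ℝ) ≤ 13 * ‖10 - P.ctr i.1‖⁻¹ := by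
      rw [← div_eq_mul_inv, one_le_div h6]
      exact h5
    have h8 := P.rr_pos i.1.1
    calc P.rr i.1.1 = P.rr i.1.1 * 1 := (mul_one _).symm
      _ ≤ P.rr i.1.1 * (13 * ‖10 - P.ctr i.1‖⁻¹) := by gcongr
      _ = _ := by ring
  exact h2.trans (mul_le_mul_of_nonneg_left h1 (by norm_num))

theorem XX_eq (e : ℕ ≃ {i : ℕ × ℤ × ℤ // P.Good i}) :
    P.XX = closedBall (0 : ℂ) R0 \ ⋃ n, ball (P.ctr (e n).1) (P.rr (e n).1.1) := by
  ext z
  constructor
  · rintro ⟨h1, h2⟩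
    refine ⟨by rwa [mem_closedBall, dist_zero_right], fun h => ?_⟩
    obtain ⟨n, hn⟩ := mem_iUnion.1 h
    rw [mem_ball, dist_eq_norm] at hn
    exact absurd hn (not_lt.2 (h2 (e n).1))
  · rintro ⟨h1, h2⟩
    rw [mem_closedBall, dist_zero_right] at h1
    by_contra hz
    obtain ⟨i, hi, hzi⟩ := P.exists_good hz h1
    refine h2 (mem_iUnion.2 ⟨e.symm ⟨i, hi⟩, ?_⟩)
    rw [Equiv.apply_symm_apply]
    exact hzi

/-- good points -/
def GP (K : ℕ → Set ℂ) : Set ℂ :=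
  {z | ‖z‖ < R0 ∧ (∀ i : ℕ × ℤ × ℤ, P.rr i.1 < ‖z - P.ctr i‖) ∧ (∀ᶠ k in atTop, z ∈ K k) ∧
    ∀ᶠ k in atTop, ∀ S : Finset (ℕ × ℤ × ℤ), (∀ i ∈ S, P.Good i) → (∀ i ∈ S, k + 1 ≤ i.1) →
      ∑ i ∈ S, P.rr i.1 / (‖z - P.ctr i‖ - P.rr i.1) ≤ 1 / 8}

theorem transfer_of_GP {K : ℕ → Set ℂ}
    (hK : ∀ k, Cond k (P.W k) (max (P.cc (k + 1)) (P.dl (k + 1))) (K k)) {z : ℂ}
    (hz : z ∈ P.GP K) : ∃ τ : ℝ, 0 < τ ∧ ∀ f ∈ QX P.XX, (∀ w ∈ P.XX, ‖f w‖ ≤ 1) →
      ‖f x0 - 1‖ ≤ τ → ‖f z - 1‖ ≤ 1 / 2 := by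
  obtain ⟨h1, h2, h3, h4⟩ := hz
  obtain ⟨k, hk3, hk4⟩ := (h3.and h4).exists
  obtain ⟨-, -, κ, C, hκ, hC, hc, H⟩ := hK k
  have hm1 := le_max_left (P.cc (k + 1)) (P.dl (k + 1))
  have hm2 := le_max_right (P.cc (k + 1)) (P.dl (k + 1))
  refine ⟨1 / (64 * (C + 1)), by positivity, fun f hf hf1 hfx => ?_⟩
  refine P.transfer k h1 h2 (κ := κ) (C := C) (τ := 1 / (64 * (C + 1))) (by linarith) hC
    (fun h hd hb => H h hd hb z hk3) ?_ hk4 (by positivity) ?_ hf hf1 hfx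
  · refine le_trans ?_ hc
    gcongr
  · apply le_of_eq
    field_simp

theorem exists_finset_nat {ι : Type*} {p : ι → Prop} (e : ℕ ≃ {i : ι // p i}) (S : Finset ι)
    (hS : ∀ i ∈ S, p i) (F : ι → ℝ) (s : Finset ℕ) (hs : ∀ n ∈ s, (e n).1 ∉ S) :
    ∃ t : Finset ℕ, Disjoint t s ∧ ∑ n ∈ t, F (e n).1 = ∑ i ∈ S, F i := by
  have hinj : Function.Injective fun n : ℕ => (e n).1 :=
    Subtype.val_injective.comp e.injective
  refine ⟨S.preimage (fun n => (e n).1) hinj.injOn, ?_, ?_⟩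
  · rw [Finset.disjoint_left]
    intro n hn hns
    have h1 := (Finset.mem_preimage (f := fun n : ℕ => (e n).1)).1 hn
    exact hs n hns h1
  · refine Finset.sum_preimage (fun n : ℕ => (e n).1) S hinj.injOn F fun x hx hxr => ?_
    refine absurd ⟨e.symm ⟨x, hS x hx⟩, ?_⟩ hxr
    change (e (e.symm ⟨x, hS x hx⟩)).1 = x
    rw [Equiv.apply_symm_apply]

/-- almost all points of `XX` are good -/
theorem ae_GP {K : ℕ → Set ℂ}
    (hK : ∀ k, Cond k (P.W k) (max (P.cc (k + 1)) (P.dl (k + 1))) (K k))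
    (e : ℕ ≃ {i : ℕ × ℤ × ℤ // P.Good i}) : volume (P.XX \ P.GP K) = 0 := by
  -- circles
  have hsph : ∀ (c : ℂ) (r : ℝ), 0 < r → volume (sphere c r) = 0 := fun c r hr =>
    Measure.addHaar_sphere_of_ne_zero volume c hr.ne'
  have hN1 : volume (sphere (0 : ℂ) R0 ∪ ⋃ i : ℕ × ℤ × ℤ, sphere (P.ctr i) (P.rr i.1)) = 0 := by
    rw [measure_union_null_iff]
    refine ⟨hsph _ _ R0_pos, ?_⟩
    rw [measure_iUnion_null_iff]
    exact fun i => hsph _ _ (P.rr_pos i.1)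
  -- Borel-Cantelli
  have hN2 : ∀ᵐ z : ℂ, ∀ᶠ k in atTop, z ∉ P.W k \ K k := by
    apply ae_eventually_notMem
    refine ne_top_of_le_ne_top ?_ (ENNReal.tsum_le_tsum fun k => (hK k).2.1)
    have h1 : Summable fun k : ℕ => ((1 / 2 : ℝ)) ^ k := summable_geometric_two
    rw [← ENNReal.ofReal_tsum_of_nonneg (fun k => by positivity) h1]
    exact ENNReal.ofReal_ne_top
  -- potentials
  have hr : ∀ n, 0 < P.rr (e n).1.1 := fun n => P.rr_pos _
  have hs : Summable fun n => P.rr (e n).1.1 := (Equiv.summable_iff e).2 P.summable_rr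
  have hN3 := ae_potential (c := (0 : ℂ)) (a := fun n => P.ctr (e n).1) (r := fun n => P.rr (e n).1.1)
    R0_pos hr hs
  rw [ae_restrict_iff' isOpen_ball.measurableSet] at hN3
  have hall : ∀ᵐ z : ℂ, z ∈ P.XX → z ∈ P.GP K := by
    filter_upwards [measure_eq_zero_iff_ae_notMem.1 hN1, hN2, hN3] with z hz1 hz2 hz3 hzX
    rw [mem_union, not_or] at hz1
    have hzR : ‖z‖ < R0 := lt_of_le_of_ne hzX.1 fun h => hz1.1 (by
      rw [mem_sphere, dist_zero_right]; exact h)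
    have hzr : ∀ i : ℕ × ℤ × ℤ, P.rr i.1 < ‖z - P.ctr i‖ := fun i =>
      lt_of_le_of_ne (hzX.2 i) fun h => hz1.2 (mem_iUnion.2 ⟨i, by
        rw [mem_sphere, dist_eq_norm]; exact h.symm⟩)
    refine ⟨hzR, hzr, ?_, ?_⟩
    · filter_upwards [hz2] with k hk
      by_contra hkK
      exact hk ⟨⟨hzR, fun i _ => hzr i⟩, hkK⟩
    · have hw2 := hz3 (by rw [mem_ball, dist_zero_right]; exact hzR)
      have hgt : ∀ n, P.rr (e n).1.1 < ‖P.ctr (e n).1 - z‖ := fun n => by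
        rw [norm_sub_rev]; exact hzr _
      have hsum := summable_of_potential hr hgt hw2
      obtain ⟨s, hs1⟩ := summable_iff_vanishing_norm.1 hsum (1 / 8) (by norm_num)
      obtain ⟨k0, hk0⟩ : ∃ k0, ∀ n ∈ s, (e n).1.1 ≤ k0 :=
        ⟨s.sup fun n => (e n).1.1, fun n hn => Finset.le_sup (f := fun n => (e n).1.1) hn⟩
      filter_upwards [eventually_ge_atTop k0] with k hk S hS hSk
      obtain ⟨t, ht1, ht2⟩ := exists_finset_nat e S hS
        (fun i => P.rr i.1 / (‖z - P.ctr i‖ - P.rr i.1)) s (fun n hn hnS => by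
          have h1 := hk0 n hn
          have h2 := hSk _ hnS
          omega)
      have h1 := hs1 t ht1
      rw [← ht2]
      refine (Real.le_norm_self _).trans (le_trans (le_of_eq ?_) h1.le)
      congr 1
      refine Finset.sum_congr rfl fun n _ => ?_
      rw [norm_sub_rev]
  rw [ae_iff] at hall
  refine measure_mono_null ?_ hall
  intro z hz h
  exact hz.2 (h hz.1)

end Par

end Pool.Agent.H136R3
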