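import Pool.Agent.H136R3.QX

set_option autoImplicit false

open MeasureTheory Filter Topology Set Metric
open scoped NNReal ENNReal

namespace Pool.Agent.H136R3

theorem measurable_kernel (X : Set ℂ) :
    Measurable fun p : ℂ × X => (‖(p.2 : ℂ) - p.1‖ₑ)⁻¹ := by fun_prop

theorem pot_le {X : Set ℂ} (μ : Measure X) {y y' w : ℂ} {t : ℝ} (ht : 0 < t)
    (hyt : dist y y' ≤ t) (hw : w ∈ ball y' t) :
    pot μ y w ≤ ENNReal.ofReal (2 * t) * μ univ +
      ENNReal.ofReal (4 * t ^ 2) * ∫⁻ z : X, (‖(z : ℂ) - w‖ₑ)⁻¹ ∂μ := by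
  have h1 : ‖w - y‖ₑ ≤ ENNReal.ofReal (2 * t) := by
    rw [← ofReal_norm]
    apply ENNReal.ofReal_le_ofReal
    rw [← dist_eq_norm]
    have := dist_triangle w y' y
    rw [mem_ball] at hw
    rw [dist_comm y' y] at this
    linarith
  have h2 : ∀ z : X, ‖(z : ℂ) - y‖ₑ * (‖(z : ℂ) - w‖ₑ)⁻¹ ≤
      1 + ENNReal.ofReal (2 * t) * (‖(z : ℂ) - w‖ₑ)⁻¹ := by
    intro z
    have h3 : ‖(z : ℂ) - y‖ₑ ≤ ‖(z : ℂ) - w‖ₑ + ENNReal.ofReal (2 * t) := by
      have h4 : (z : ℂ) - y = ((z : ℂ) - w) + (w - y) := by ring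
      rw [h4]
      exact (enorm_add_le _ _).trans (add_le_add le_rfl h1)
    calc ‖(z : ℂ) - y‖ₑ * (‖(z : ℂ) - w‖ₑ)⁻¹
        ≤ (‖(z : ℂ) - w‖ₑ + ENNReal.ofReal (2 * t)) * (‖(z : ℂ) - w‖ₑ)⁻¹ := by gcongr
      _ = ‖(z : ℂ) - w‖ₑ * (‖(z : ℂ) - w‖ₑ)⁻¹ +
          ENNReal.ofReal (2 * t) * (‖(z : ℂ) - w‖ₑ)⁻¹ := by rw [add_mul]
      _ ≤ _ := by
          gcongr
          exact ENNReal.mul_inv_le_one _
  have hmeas : Measurable fun z : X => (‖(z : ℂ) - w‖ₑ)⁻¹ := by fun_prop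
  calc pot μ y w ≤ ENNReal.ofReal (2 * t) *
        ∫⁻ z : X, (1 + ENNReal.ofReal (2 * t) * (‖(z : ℂ) - w‖ₑ)⁻¹) ∂μ := by
        unfold pot
        exact mul_le_mul' h1 (lintegral_mono h2)
    _ = ENNReal.ofReal (2 * t) * (μ univ + ENNReal.ofReal (2 * t) *
          ∫⁻ z : X, (‖(z : ℂ) - w‖ₑ)⁻¹ ∂μ) := by
        rw [lintegral_add_left measurable_const, lintegral_const, one_mul,
          lintegral_const_mul _ hmeas]
    _ = _ := by
        have h5 : 2 * t * (2 * t) = 4 * t ^ 2 := by ring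
        rw [mul_add, ← mul_assoc, ← ENNReal.ofReal_mul (by positivity), h5]

theorem lintegral_pot_le {X : Set ℂ} (μ : Measure X) [IsFiniteMeasure μ] {y y' : ℂ} {t : ℝ}
    (ht : 0 < t) (hyt : dist y y' ≤ t) :
    ∫⁻ w in ball y' t, pot μ y w ≤ ENNReal.ofReal (14 * Real.pi * t ^ 3) * μ univ := by
  have hB : MeasurableSet (ball y' t) := isOpen_ball.measurableSet
  have hmeas2 : Measurable fun w : ℂ => ∫⁻ z : X, (‖(z : ℂ) - w‖ₑ)⁻¹ ∂μ :=
    (measurable_kernel X).lintegral_prod_right'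
  calc ∫⁻ w in ball y' t, pot μ y w
      ≤ ∫⁻ w in ball y' t, (ENNReal.ofReal (2 * t) * μ univ +
        ENNReal.ofReal (4 * t ^ 2) * ∫⁻ z : X, (‖(z : ℂ) - w‖ₑ)⁻¹ ∂μ) :=
        setLIntegral_mono' hB fun w hw => pot_le μ ht hyt hw
    _ = ENNReal.ofReal (2 * t) * μ univ * volume (ball y' t) +
        ENNReal.ofReal (4 * t ^ 2) * ∫⁻ w in ball y' t, ∫⁻ z : X, (‖(z : ℂ) - w‖ₑ)⁻¹ ∂μ := by
        rw [lintegral_add_left measurable_const, setLIntegral_const,
          lintegral_const_mul _ hmeas2]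
    _ = ENNReal.ofReal (2 * t) * μ univ * volume (ball y' t) +
        ENNReal.ofReal (4 * t ^ 2) *
          ∫⁻ z : X, (∫⁻ w : ℂ in ball y' t, (‖(z : ℂ) - w‖ₑ)⁻¹) ∂μ := by
        rw [lintegral_lintegral_swap (measurable_kernel X).aemeasurable]
    _ ≤ ENNReal.ofReal (2 * t) * μ univ * volume (ball y' t) +
        ENNReal.ofReal (4 * t ^ 2) * ∫⁻ _z : X, ENNReal.ofReal (3 * Real.pi * t) ∂μ := by
        gcongr with z
        exact lint_inv _ _ _ ht
    _ = ENNReal.ofReal (14 * Real.pi * t ^ 3) * μ univ := by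
        have hv : volume (ball y' t) = ENNReal.ofReal (Real.pi * t ^ 2) := by
          rw [Complex.volume_ball, ← ENNReal.ofReal_coe_nnreal, ← ENNReal.ofReal_pow ht.le,
            NNReal.coe_real_pi, ← ENNReal.ofReal_mul (by positivity), mul_comm]
        have h5 : 14 * Real.pi * t ^ 3 =
            2 * t * (Real.pi * t ^ 2) + 4 * t ^ 2 * (3 * Real.pi * t) := by ring
        rw [lintegral_const, hv, h5, ENNReal.ofReal_add (by positivity) (by positivity),
          ENNReal.ofReal_mul (p := 2 * t) (by positivity),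
          ENNReal.ofReal_mul (p := 4 * t ^ 2) (by positivity), add_mul]
        ring

/-- Most points near `y` lie in `X` and are close to `y`. -/
theorem avg_close {X : Set ℂ} (hX : IsCompact X) {y y' : ℂ} (hy : y ∈ X) {K : ℝ}
    (hK : N2 X K y) (hK0 : 0 < K) {t : ℝ} (ht : 0 < t) (hyt : dist y y' ≤ t)
    (hsmall : 56 * K * t < 1) :
    volume (ball y' t ∩ {w | ¬ (w ∈ X ∧ Cl X (112 * K * t) w y)}) ≤
      ENNReal.ofReal (Real.pi * t ^ 2 / 4) := by
  obtain ⟨μ, hfin, hmass, hμ⟩ := exists_measure hX hy hK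
  have hmass' : μ univ ≤ ENNReal.ofReal K := by
    rw [← ENNReal.ofReal_toReal (measure_ne_top μ univ)]
    exact ENNReal.ofReal_le_ofReal hmass
  have hq0 : 0 < 56 * K * t := by positivity
  have hmeas : Measurable fun w : ℂ => pot μ y w := by
    unfold pot
    apply Measurable.mul (by fun_prop)
    have h1 : Measurable fun p : ℂ × X => ‖(p.2 : ℂ) - y‖ₑ * (‖(p.2 : ℂ) - p.1‖ₑ)⁻¹ := by
      fun_prop
    exact h1.lintegral_prod_right'
  have hsub : ball y' t ∩ {w | ¬ (w ∈ X ∧ Cl X (112 * K * t) w y)} ⊆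
      ball y' t ∩ {w | ENNReal.ofReal (56 * K * t) ≤ pot μ y w} := by
    rintro w ⟨hw1, hw2⟩
    refine ⟨hw1, ?_⟩
    by_contra hcon
    rw [mem_ofPred_eq, not_le] at hcon
    apply hw2
    by_cases hwy : w = y
    · rw [hwy]
      refine ⟨hy, fun f hf M hM => ?_⟩
      have hM0 : 0 ≤ M := (norm_nonneg _).trans (hM y hy)
      rw [sub_self, norm_zero]
      positivity
    · have h1 := close_of_pot hX hy hwy hμ hq0.le hcon.le hsmall
      have h2 : 2 * (56 * K * t) = 112 * K * t := by ring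
      rwa [h2] at h1
  refine (measure_mono hsub).trans ?_
  have h3 := mul_meas_ge_le_lintegral₀ (μ := volume.restrict (ball y' t)) hmeas.aemeasurable
    (ENNReal.ofReal (56 * K * t))
  rw [Measure.restrict_apply (measurableSet_le measurable_const hmeas), inter_comm] at h3
  have h4 := h3.trans (lintegral_pot_le μ ht hyt)
  have h5 : ENNReal.ofReal (14 * Real.pi * t ^ 3) * μ univ ≤
      ENNReal.ofReal (56 * K * t) * ENNReal.ofReal (Real.pi * t ^ 2 / 4) := by
    refine (mul_le_mul' le_rfl hmass').trans ?_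
    rw [← ENNReal.ofReal_mul (by positivity), ← ENNReal.ofReal_mul (by positivity)]
    apply ENNReal.ofReal_le_ofReal
    apply le_of_eq
    ring
  have h6 := h4.trans h5
  exact (ENNReal.mul_le_mul_iff_right (by simpa using hq0) ENNReal.ofReal_ne_top).1 h6

/-- one good point -/
theorem exists_close_one {X : Set ℂ} (hX : IsCompact X) {y y' : ℂ} (hy : y ∈ X) {K : ℝ}
    (hK : N2 X K y) (hK0 : 0 < K) {t : ℝ} (ht : 0 < t) (hyt : dist y y' ≤ t)
    (hsmall : 56 * K * t < 1) : ∃ w ∈ ball y' t, w ∈ X ∧ Cl X (112 * K * t) w y := by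
  by_contra hcon
  push Not at hcon
  have h1 := avg_close hX hy hK hK0 ht hyt hsmall
  have h2 : ball y' t ∩ {w | ¬ (w ∈ X ∧ Cl X (112 * K * t) w y)} = ball y' t := by
    ext w
    simp only [mem_inter_iff, mem_ofPred_eq, and_iff_left_iff_imp]
    intro hw hw2
    exact hcon w hw hw2.1 hw2.2
  rw [h2, Complex.volume_ball, ← ENNReal.ofReal_coe_nnreal, ← ENNReal.ofReal_pow ht.le,
    NNReal.coe_real_pi, ← ENNReal.ofReal_mul (by positivity),
    ENNReal.ofReal_le_ofReal_iff (by positivity)] at h1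
  have : 0 < Real.pi * t ^ 2 := by positivity
  linarith

/-- one good point for two centres -/
theorem exists_close_two {X : Set ℂ} (hX : IsCompact X) {x y y' : ℂ} (hx : x ∈ X) (hy : y ∈ X)
    {K : ℝ} (hKx : N2 X K x) (hKy : N2 X K y) (hK0 : 0 < K) {t : ℝ} (ht : 0 < t)
    (hxt : dist x y' ≤ t) (hyt : dist y y' ≤ t) (hsmall : 56 * K * t < 1) :
    Cl X (224 * K * t) x y := by
  have h1 := avg_close hX hx hKx hK0 ht hxt hsmall
  have h2 := avg_close hX hy hKy hK0 ht hyt hsmall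
  have h3 : ∃ w ∈ ball y' t, (w ∈ X ∧ Cl X (112 * K * t) w x) ∧
      (w ∈ X ∧ Cl X (112 * K * t) w y) := by
    by_contra hcon
    have hsub : ball y' t ⊆ (ball y' t ∩ {w | ¬ (w ∈ X ∧ Cl X (112 * K * t) w x)}) ∪
        (ball y' t ∩ {w | ¬ (w ∈ X ∧ Cl X (112 * K * t) w y)}) := by
      intro w hw
      by_cases hwx : w ∈ X ∧ Cl X (112 * K * t) w x
      · right
        exact ⟨hw, fun h => hcon ⟨w, hw, hwx, h⟩⟩
      · left
        exact ⟨hw, hwx⟩
    have h4 := (measure_mono hsub).trans ((measure_union_le _ _).trans (add_le_add h1 h2))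
    rw [Complex.volume_ball, ← ENNReal.ofReal_coe_nnreal, ← ENNReal.ofReal_pow ht.le,
      NNReal.coe_real_pi, ← ENNReal.ofReal_mul (by positivity),
      ← ENNReal.ofReal_add (by positivity) (by positivity),
      ENNReal.ofReal_le_ofReal_iff (by positivity)] at h4
    have : 0 < Real.pi * t ^ 2 := by positivity
    linarith
  obtain ⟨w, -, ⟨-, h5⟩, -, h6⟩ := h3
  have h7 := h5.symm.trans h6
  have h8 : 112 * K * t + 112 * K * t = 224 * K * t := by ring
  rwa [h8] at h7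

/-- **Main theorem.** Let `X` be compact with empty interior and let `P` be a property of points
of `X` which holds at `x₀` and at all points whose evaluation has distance at most `1/2` from the
one at `x₀`. Then some point of `X` with property `P` has no bound for the derivative. -/
theorem exists_unbounded {X : Set ℂ} (hX : IsCompact X) (hint : interior X = ∅) {x₀ : ℂ}
    (hx₀ : x₀ ∈ X) : ∃ y ∈ X, Cl X (1 / 2) x₀ y ∧ ∀ K : ℝ, ¬ N2 X K y := by
  by_contra hcon
  push Not at hcon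
  have hall : ∀ y ∈ X, Cl X (1 / 2) x₀ y → ∃ K : ℝ, N2 X K y := fun y hy hc => hcon y hy hc
  set G : Set ℂ := {y | y ∈ X ∧ ∃ δ : ℝ, δ < 1 / 2 ∧ Cl X δ x₀ y} with hG
  set T : Set ℂ := closure G with hT
  have hGX : G ⊆ X := fun y hy => hy.1
  have hTX : T ⊆ X := closure_minimal hGX hX.isClosed
  have hTc : IsCompact T := hX.of_isClosed_subset isClosed_closure hTX
  have hx₀G : x₀ ∈ G := by
    refine ⟨hx₀, 0, by norm_num, fun f hf M hM => ?_⟩
    simp
  have hT2 : ∀ y ∈ T, Cl X (1 / 2) x₀ y := by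
    intro y hy f hf M hM
    have hM0 : 0 ≤ M := (norm_nonneg _).trans (hM x₀ hx₀)
    have hyX := hTX hy
    have hc : ContinuousAt (fun w => ‖f x₀ - f w‖) y :=
      (continuousAt_const.sub (QX.differentiableAt hf hyX).continuousAt).norm
    rw [hT, mem_closure_iff_frequently] at hy
    by_contra hlt
    push Not at hlt
    have hev : ∀ᶠ w in 𝓝 y, 1 / 2 * M < ‖f x₀ - f w‖ := hc.eventually (lt_mem_nhds hlt)
    obtain ⟨w, hw1, hw2⟩ := (hy.and_eventually hev).exists
    obtain ⟨hwX, δ, hδ, hcl⟩ := hw1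
    have := hcl f hf M hM
    have h3 : δ * M ≤ 1 / 2 * M := mul_le_mul_of_nonneg_right hδ.le hM0
    linarith
  -- the closed sets
  let F : ℕ → Set T := fun n => {y | N2 X (n + 1) (y : ℂ)}
  have hFc : ∀ n, IsClosed (F n) := by
    intro n
    have h1 : F n = ⋂ (f : ℂ → ℂ) (_ : f ∈ QX X) (M : ℝ) (_ : ∀ z ∈ X, ‖f z‖ ≤ M),
        {y : T | ‖deriv f (y : ℂ)‖ ≤ (n + 1) * M} := by
      ext y
      simp only [F, N2, mem_ofPred_eq, mem_iInter]
    rw [h1]
    refine isClosed_iInter fun f => isClosed_iInter fun hf => isClosed_iInter fun M =>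
      isClosed_iInter fun _ => isClosed_le ?_ continuous_const
    exact ((QX.continuousOn_deriv hf).mono hTX).domRestrict.norm
  have hFU : ⋃ n, F n = univ := by
    rw [eq_univ_iff_forall]
    rintro ⟨y, hy⟩
    obtain ⟨K, hK⟩ := hall y (hTX hy) (hT2 y hy)
    obtain ⟨n, hn⟩ := exists_nat_gt K
    rw [mem_iUnion]
    refine ⟨n, fun f hf M hM => (hK f hf M hM).trans ?_⟩
    have hM0 : 0 ≤ M := (norm_nonneg _).trans (hM x₀ hx₀)
    exact mul_le_mul_of_nonneg_right (by linarith) hM0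
  have : CompactSpace T := isCompact_iff_compactSpace.1 hTc
  have : Nonempty T := ⟨⟨x₀, subset_closure hx₀G⟩⟩
  obtain ⟨n, ⟨y₀, hy₀⟩⟩ := nonempty_interior_of_iUnion_of_closed hFc hFU
  rw [mem_interior_iff_mem_nhds, Metric.mem_nhds_iff] at hy₀
  obtain ⟨ρ, hρ, hball⟩ := hy₀
  set K : ℝ := (n : ℝ) + 1 with hKdef
  have hK0 : 0 < K := by positivity
  have hN2 : ∀ y ∈ T, dist y (y₀ : ℂ) < ρ → N2 X K y := by
    intro y hy hd
    exact hball (show (⟨y, hy⟩ : T) ∈ ball y₀ ρ from hd)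
  -- a point of `G` near `y₀`
  obtain ⟨x₁, hx₁G, hx₁d⟩ := Metric.mem_closure_iff.1 y₀.2 (ρ / 2) (by positivity)
  obtain ⟨hx₁X, δ₁, hδ₁, hcl₁⟩ := hx₁G
  have hx₁T : x₁ ∈ T := subset_closure ⟨hx₁X, δ₁, hδ₁, hcl₁⟩
  rw [dist_comm] at hx₁d
  have hx₁N := hN2 x₁ hx₁T (by linarith)
  -- choice of a small scale
  obtain ⟨s, hs0, hs1, hs2, hs3⟩ : ∃ s : ℝ, 0 < s ∧ s < ρ / 8 ∧ 112 * K * s < 1 ∧
      δ₁ + 560 * K * s < 1 / 2 := by
    have hpos : 0 < (1 / 2 - δ₁) := by linarith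
    refine ⟨min (ρ / 16) (min (1 / (224 * K)) ((1 / 2 - δ₁) / (1120 * K))), ?_, ?_, ?_, ?_⟩
    · positivity
    · have := min_le_left (ρ / 16) (min (1 / (224 * K)) ((1 / 2 - δ₁) / (1120 * K)))
      linarith
    · have h1 : min (ρ / 16) (min (1 / (224 * K)) ((1 / 2 - δ₁) / (1120 * K))) ≤ 1 / (224 * K) :=
        (min_le_right _ _).trans (min_le_left _ _)
      have h2 : 112 * K * (1 / (224 * K)) = 1 / 2 := by field_simp; norm_num
      have h3 := mul_le_mul_of_nonneg_left h1 (by positivity : 0 ≤ 112 * K)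
      linarith
    · have h1 : min (ρ / 16) (min (1 / (224 * K)) ((1 / 2 - δ₁) / (1120 * K))) ≤
          (1 / 2 - δ₁) / (1120 * K) := (min_le_right _ _).trans (min_le_right _ _)
      have h2 : 560 * K * ((1 / 2 - δ₁) / (1120 * K)) = (1 / 2 - δ₁) / 2 := by
        field_simp; ring
      have h3 := mul_le_mul_of_nonneg_left h1 (by positivity : 0 ≤ 560 * K)
      linarith
  -- a point off `X` near `x₁`
  obtain ⟨y', hy'X, hy'd⟩ : ∃ y', y' ∉ X ∧ dist y' x₁ < s := by
    by_contra hno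
    push Not at hno
    have h1 : ball x₁ s ⊆ X := by
      intro w hw
      by_contra hwX
      exact absurd (hno w hwX) (not_le.2 hw)
    have h2 : x₁ ∈ interior X := mem_interior.2 ⟨_, h1, isOpen_ball, mem_ball_self hs0⟩
    rw [hint] at h2
    exact h2
  obtain ⟨z, hzT, hz⟩ := hTc.exists_infDist_eq_dist ⟨x₁, hx₁T⟩ y'
  have ht0 : 0 < dist y' z := by
    rw [dist_pos]
    rintro rfl
    exact hy'X (hTX hzT)
  have hts : dist y' z < s := by
    rw [← hz]
    exact (infDist_le_dist_of_mem hx₁T).trans_lt hy'd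
  have hzx₁ : dist z x₁ ≤ 2 * s := by
    have := dist_triangle z y' x₁
    rw [dist_comm z y'] at this
    linarith
  have hzN := hN2 z hzT (by
    have := dist_triangle z x₁ (y₀ : ℂ)
    linarith)
  -- closeness of `z` and `x₁`
  have h1 : Cl X (224 * K * (2 * s)) x₁ z := by
    refine exists_close_two hX hx₁X (hTX hzT) hx₁N hzN hK0 (y' := x₁) (by positivity) ?_ hzx₁ ?_
    · rw [dist_self]; positivity
    · linarith
  -- a point `w` of `X` nearer to `y'` than `z`
  obtain ⟨w, hw1, hwX, hw2⟩ := exists_close_one hX (hTX hzT) hzN hK0 ht0 (y' := y')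
    (by rw [dist_comm]) (by nlinarith)
  have h2 : Cl X (δ₁ + 560 * K * s) x₀ w := by
    have h3 := (hcl₁.trans h1).trans hw2.symm
    refine h3.mono hx₀ ?_
    have : 112 * K * dist y' z ≤ 112 * K * s := mul_le_mul_of_nonneg_left hts.le (by positivity)
    linarith
  have hwT : w ∈ T := subset_closure ⟨hwX, _, hs3, h2⟩
  have h4 := infDist_le_dist_of_mem (x := y') hwT
  rw [hz, dist_comm y' w] at h4
  exact absurd hw1 (not_lt.2 h4)

end Pool.Agent.H136R3
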