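import Pool.Agent.H136R3.Split
import Pool.Agent.H136R3.Conn

set_option autoImplicit false

open MeasureTheory Filter Topology Set Metric
open scoped NNReal ENNReal Real

namespace Pool.Agent.H136R3

/-- the base point -/
noncomputable def x0 : ℂ := ⟨0, 1 / 3⟩

/-- maximum principle on the squares of a mesh -/
theorem mesh_max {Ω : Set ℂ} {h : ℂ → ℂ} (hd : DifferentiableOn ℂ h Ω) {δ M : ℝ} (hδ : 0 < δ)
    (hline : ∀ ζ ∈ Ω, ((∃ v : ℤ, ζ.im = (v + 1 / 3) * δ) ∨ ∃ u : ℤ, ζ.re = (u + 1 / 3) * δ) →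
      ‖h ζ‖ ≤ M) {w : ℂ} {κ : ℝ} (hw : ball w κ ⊆ Ω) (hκ : 3 * δ ≤ κ) : ‖h w‖ ≤ M := by
  set u : ℤ := ⌊w.re / δ - 1 / 3⌋ with hu
  set v : ℤ := ⌊w.im / δ - 1 / 3⌋ with hv
  have bnd : ∀ t : ℝ, ((⌊t / δ - 1 / 3⌋ : ℝ) + 1 / 3) * δ ≤ t ∧
      t ≤ ((⌊t / δ - 1 / 3⌋ : ℝ) + 1 / 3) * δ + δ := by
    intro t
    have h1 := Int.floor_le (t / δ - 1 / 3)
    have h2 := Int.lt_floor_add_one (t / δ - 1 / 3)
    have h3 : t = t / δ * δ := by field_simp
    constructor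
    · calc ((⌊t / δ - 1 / 3⌋ : ℝ) + 1 / 3) * δ ≤ t / δ * δ := by
            gcongr; linarith
        _ = t := h3.symm
    · calc t = t / δ * δ := h3
        _ ≤ (((⌊t / δ - 1 / 3⌋ : ℝ) + 1 / 3) + 1) * δ := by gcongr; linarith
        _ = _ := by ring
  obtain ⟨a1, a2⟩ := bnd w.re
  obtain ⟨b1, b2⟩ := bnd w.im
  rw [← hu] at a1 a2
  rw [← hv] at b1 b2
  set p : ℝ := ((u : ℝ) + 1 / 3) * δ with hp
  set q : ℝ := ((v : ℝ) + 1 / 3) * δ with hq
  set Q : Set ℂ := Ioo p (p + δ) ×ℂ Ioo q (q + δ) with hQ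
  have hQb : Bornology.IsBounded Q :=
    (Metric.isBounded_Ioo p (p + δ)).reProdIm (Metric.isBounded_Ioo q (q + δ))
  have hQc : closure Q = Icc p (p + δ) ×ℂ Icc q (q + δ) := by
    rw [hQ, Complex.closure_reProdIm, closure_Ioo (by linarith), closure_Ioo (by linarith)]
  have hQΩ : closure Q ⊆ Ω := by
    refine Subset.trans ?_ hw
    rw [hQc]
    intro ζ hζ
    obtain ⟨⟨h1, h2⟩, h3, h4⟩ := hζ
    rw [mem_ball, dist_eq_norm]
    have h5 := Complex.norm_le_abs_re_add_abs_im (ζ - w)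
    rw [Complex.sub_re, Complex.sub_im] at h5
    have h6 : |ζ.re - w.re| ≤ δ := abs_le.2 ⟨by linarith, by linarith⟩
    have h7 : |ζ.im - w.im| ≤ δ := abs_le.2 ⟨by linarith, by linarith⟩
    linarith
  have hwQ : w ∈ closure Q := by
    rw [hQc]
    exact ⟨⟨a1, a2⟩, b1, b2⟩
  refine Complex.norm_le_of_forall_mem_frontier_norm_le hQb
    ((hd.mono hQΩ).diffContOnCl) (fun ζ hζ => ?_) hwQ
  apply hline ζ (hQΩ (frontier_subset_closure hζ))
  rw [hQ, Complex.frontier_reProdIm, frontier_Ioo (by linarith), frontier_Ioo (by linarith)] at hζ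
  rcases hζ with hζ | hζ
  · left
    have h1 : ζ.im = q ∨ ζ.im = q + δ := by
      have := hζ.2
      simpa using this
    rcases h1 with h1 | h1
    · exact ⟨v, h1⟩
    · refine ⟨v + 1, ?_⟩
      rw [h1, hq]
      push_cast
      ring
  · right
    have h1 : ζ.re = p ∨ ζ.re = p + δ := by
      have := hζ.1
      simpa using this
    rcases h1 with h1 | h1
    · exact ⟨u, h1⟩
    · refine ⟨u + 1, ?_⟩
      rw [h1, hp]
      push_cast
      ring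

namespace Par

variable (P : Par)

/-- the domain of stage `k` -/
def W (k : ℕ) : Set ℂ :=
  {z | ‖z‖ < R0 ∧ ∀ i : ℕ × ℤ × ℤ, i.1 ≤ k → P.rr i.1 < ‖z - P.ctr i‖}

theorem good_cover {b : ℂ} (hb : ‖b‖ ≤ R0) : ∀ (n : ℕ) (i : ℕ × ℤ × ℤ), i.1 = n →
    ‖b - P.ctr i‖ ≤ P.rr i.1 → ∃ i', P.Good i' ∧ i'.1 ≤ n ∧ ‖b - P.ctr i'‖ ≤ P.rr i'.1 := by
  intro n
  induction n using Nat.strong_induction_on with
  | _ n ih =>
    intro i hi hbi
    by_cases hg : P.Good i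
    · exact ⟨i, hg, hi.le, hbi⟩
    · have h2 := P.rr_lt i.1
      have h4 : 0 < P.dl i.1 ^ 2 := by have := P.dl_pos i.1; positivity
      unfold Good at hg
      rw [not_and_or] at hg
      rcases hg with hg | hg
      · exfalso
        rw [not_lt] at hg
        rcases P.dich_outer i with h | h
        · linarith
        · have h3 : ‖P.ctr i‖ ≤ ‖b‖ + ‖b - P.ctr i‖ := by
            have : P.ctr i = b - (b - P.ctr i) := by ring
            conv_lhs => rw [this]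
            exact norm_sub_le _ _
          linarith
      · push Not at hg
        obtain ⟨i', hi', hlt⟩ := hg
        rcases P.dich_stage hi' i i' rfl rfl with h | h
        · have h3 : ‖b - P.ctr i'‖ ≤ ‖b - P.ctr i‖ + ‖P.ctr i - P.ctr i'‖ := by
            have : b - P.ctr i' = (b - P.ctr i) + (P.ctr i - P.ctr i') := by ring
            rw [this]; exact norm_add_le _ _
          obtain ⟨j, hj1, hj2, hj3⟩ := ih i'.1 (hi ▸ hi') i' rfl (by linarith)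
          exact ⟨j, hj1, by omega, hj3⟩
        · linarith

theorem finite_good (k : ℕ) : {i : ℕ × ℤ × ℤ | P.Good i ∧ i.1 ≤ k}.Finite := by
  set N : ℤ := 3 * 2 ^ P.m k with hN
  refine ((Set.finite_Iic k).prod ((Set.finite_Icc (-N) N).prod (Set.finite_Icc (-N) N))).subset ?_
  rintro ⟨j, u, v⟩ ⟨hg, hj⟩
  simp only at hj
  have hd := P.dl_pos j
  have h1 : ‖P.ctr (j, u, v)‖ < 3 := hg.1.trans R0_lt
  have hinv : (2 : ℝ) ^ P.m j * P.dl j = 1 := by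
    unfold dl; rw [← mul_pow]; norm_num
  have key : ∀ n : ℤ, |(n : ℝ) * P.dl j| ≤ 3 → -N ≤ n ∧ n ≤ N := by
    intro n hn
    rw [abs_mul, abs_of_pos hd] at hn
    have h2 : |(n : ℝ)| ≤ 3 * 2 ^ P.m j := by
      have h3 : |(n : ℝ)| * P.dl j * 2 ^ P.m j ≤ 3 * 2 ^ P.m j := by gcongr
      calc |(n : ℝ)| = |(n : ℝ)| * P.dl j * 2 ^ P.m j := by
            rw [mul_assoc, mul_comm (P.dl j), hinv, mul_one]
        _ ≤ _ := h3
    have h4 : (2 : ℝ) ^ P.m j ≤ 2 ^ P.m k :=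
      pow_le_pow_right₀ (by norm_num) (P.m_mono.monotone hj)
    have h5 : |(n : ℝ)| ≤ (N : ℝ) := by
      rw [hN]; push_cast
      linarith
    have h6 := abs_le.1 h5
    exact ⟨by exact_mod_cast h6.1, by exact_mod_cast h6.2⟩
  have h2 := (Complex.abs_re_le_norm (P.ctr (j, u, v))).trans h1.le
  have h3 := (Complex.abs_im_le_norm (P.ctr (j, u, v))).trans h1.le
  have h4 : (P.ctr (j, u, v)).re = (u : ℝ) * P.dl j := by simp [ctr]
  have h5 : (P.ctr (j, u, v)).im = (v : ℝ) * P.dl j := by simp [ctr]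
  rw [h4] at h2
  rw [h5] at h3
  exact ⟨hj, key u h2, key v h3⟩

/-- the maximal holes of stage at most `k` -/
noncomputable def SG (k : ℕ) : Finset (ℕ × ℤ × ℤ) := (P.finite_good k).toFinset

theorem mem_SG {k : ℕ} {i : ℕ × ℤ × ℤ} : i ∈ P.SG k ↔ P.Good i ∧ i.1 ≤ k := by
  unfold SG
  rw [Set.Finite.mem_toFinset]
  rfl

theorem W_eq (k : ℕ) : P.W k = Om (0 : ℂ) R0 (P.SG k) P.ctr (fun i => P.rr i.1) := by
  ext z
  constructor
  · rintro ⟨h1, h2⟩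
    refine ⟨by rwa [mem_ball, dist_zero_right], fun i hi => ?_⟩
    rw [mem_closedBall, dist_eq_norm, not_le]
    exact h2 i (P.mem_SG.1 hi).2
  · rintro ⟨h1, h2⟩
    rw [mem_ball, dist_zero_right] at h1
    refine ⟨h1, fun i hi => ?_⟩
    by_contra hcon
    rw [not_lt] at hcon
    obtain ⟨j, hj1, hj2, hj3⟩ := P.good_cover h1.le i.1 i rfl hcon
    apply h2 j (P.mem_SG.2 ⟨hj1, hj2.trans hi⟩)
    rw [mem_closedBall, dist_eq_norm]
    exact hj3

theorem config_SG (k : ℕ) : Config (0 : ℂ) R0 (P.SG k) P.ctr (fun i => P.rr i.1) :=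
  P.config _ fun _ hi => (P.mem_SG.1 hi).1

theorem isOpen_W (k : ℕ) : IsOpen (P.W k) := by
  rw [W_eq]; exact isOpen_Om _

theorem isPreconnected_W (k : ℕ) : IsPreconnected (P.W k) := by
  rw [W_eq]; exact (P.config_SG k).isPreconnected

theorem x0_mem (k : ℕ) : x0 ∈ P.W k := by
  obtain ⟨h1, h2⟩ := P.mem_XX_of_line (z := x0) (by simp [x0]) rfl
  refine ⟨h1, fun i _ => ?_⟩
  have := h2 i
  have := P.rr_le' i.1
  have := P.dl_pos i.1
  linarith

theorem gap_third {l j : ℕ} (hlj : l ≤ j) (v v' : ℤ) :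
    P.dl j / 3 ≤ |((v : ℝ) + 1 / 3) * P.dl l - v' * P.dl j| := by
  obtain ⟨d, hd⟩ := Nat.exists_eq_add_of_le (P.m_mono.monotone hlj)
  have h1 : P.dl l = 2 ^ d * P.dl j := by
    unfold dl
    rw [hd, pow_add]
    have : (1 / 2 : ℝ) ^ d * 2 ^ d = 1 := by
      rw [← mul_pow]; norm_num
    calc (1 / 2 : ℝ) ^ P.m l = (1 / 2) ^ P.m l * ((1 / 2 : ℝ) ^ d * 2 ^ d) := by
          rw [this, mul_one]
      _ = _ := by ring
  have h2 := int_gap2 (v' - v * 2 ^ d) d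
  have h3 : ((v : ℝ) + 1 / 3) * P.dl l - v' * P.dl j =
      -((((v' - v * 2 ^ d : ℤ) : ℝ) - 2 ^ d / 3) * P.dl j) := by
    rw [h1]; push_cast; ring
  rw [h3, abs_neg, abs_mul, abs_of_pos (P.dl_pos j)]
  have := P.dl_pos j
  nlinarith

theorem far_mesh {l j : ℕ} (hlj : l ≤ j) {z : ℂ}
    (hz : (∃ v : ℤ, z.im = (v + 1 / 3) * P.dl l) ∨ ∃ u : ℤ, z.re = (u + 1 / 3) * P.dl l)
    (i : ℕ × ℤ × ℤ) (hi : i.1 = j) : P.dl j / 6 ≤ ‖z - P.ctr i‖ := by
  have hd := P.dl_pos j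
  rcases hz with ⟨v, hz⟩ | ⟨u, hz⟩
  · have h1 := Complex.abs_im_le_norm (z - P.ctr i)
    have h2 : (z - P.ctr i).im = z.im - (i.2.2 : ℝ) * P.dl j := by
      simp [ctr, hi]
    rw [h2, hz] at h1
    have h3 := P.gap_third hlj v i.2.2
    linarith
  · have h1 := Complex.abs_re_le_norm (z - P.ctr i)
    have h2 : (z - P.ctr i).re = z.re - (i.2.1 : ℝ) * P.dl j := by
      simp [ctr, hi]
    rw [h2, hz] at h1
    have h3 := P.gap_third hlj u i.2.1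
    linarith

/-- splitting on the domain of stage `k` -/
theorem split2 (k : ℕ) {g : ℂ → ℂ} (hg : g ∈ QX P.XX) {B : ℝ} (hgB : ∀ z ∈ P.XX, ‖g z‖ ≤ B) :
    ∃ h F : ℂ → ℂ, ∃ S : Finset (ℕ × ℤ × ℤ), DifferentiableOn ℂ h (P.W k) ∧
      (∀ z ∈ P.XX, ‖F z‖ ≤ B) ∧ (∀ i ∈ S, P.Good i) ∧ (∀ i ∈ S, k + 1 ≤ i.1) ∧
      ∀ z : ℂ, ‖z‖ < R0 → (∀ i : ℕ × ℤ × ℤ, P.rr i.1 < ‖z - P.ctr i‖) →
        ‖g z - h z‖ ≤ (2 * π)⁻¹ * ‖∑ i ∈ S, cint (P.ctr i) (P.rr i.1) F z‖ := by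
  classical
  obtain ⟨p, q, hq, hgq⟩ := hg
  have hx0 : x0 ∈ P.XX := by
    obtain ⟨h1, h2⟩ := P.mem_XX_of_line (z := x0) (by simp [x0]) rfl
    refine ⟨h1.le, fun i => ?_⟩
    have := h2 i
    have := P.rr_le' i.1
    have := P.dl_pos i.1
    linarith
  have hq0 : q ≠ 0 := by
    rintro rfl
    exact hq _ hx0 (by simp)
  obtain ⟨p', s, hs, hGG⟩ := exists_GG p q hq0
  have hsX : ∀ b ∈ s, b ∉ P.XX := fun b hb hbX => hq b hbX (hs b hb)
  obtain ⟨S, hS, hS'⟩ := P.exists_cover s hsX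
  have hconf := P.config S hS
  have hF : ∀ z ∈ P.XX, GG p' s z = g z := fun z hz => by rw [← hGG z, hgq z (hq z hz)]
  have hFB : ∀ z ∈ P.XX, ‖GG p' s z‖ ≤ B := fun z hz => by rw [hF z hz]; exact hgB z hz
  have hFc : ∀ z ∈ P.XX, ContinuousAt (GG p' s) z := fun z hz =>
    GG_continuousAt p' s z fun b hb => by
      rintro rfl
      exact hsX z hb hz
  have h2pi : (2 * π * Complex.I : ℂ) ≠ 0 := by
    simp [Real.pi_ne_zero]
  have hn2pi : ‖(2 * π * Complex.I : ℂ)‖ = 2 * π := by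
    simp [abs_of_pos Real.pi_pos]
  refine ⟨fun w => (2 * π * Complex.I : ℂ)⁻¹ * (cint 0 R0 (GG p' s) w -
    ∑ i ∈ S.filter (fun i => i.1 ≤ k), cint (P.ctr i) (P.rr i.1) (GG p' s) w), GG p' s,
    S.filter (fun i => ¬ i.1 ≤ k), ?_, hFB, fun i hi => hS i (Finset.mem_filter.1 hi).1,
    fun i hi => by have := (Finset.mem_filter.1 hi).2; omega, ?_⟩
  · intro z hz
    refine DifferentiableAt.differentiableWithinAt ?_
    refine DifferentiableAt.const_mul (DifferentiableAt.sub ?_ ?_) _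
    · refine (hasDerivAt_cint R0_pos.le (fun w hw =>
        (hFc w (P.sphere0_sub hw)).continuousWithinAt) ?_).differentiableAt
      rw [mem_sphere, dist_zero_right]
      exact hz.1.ne
    · refine DifferentiableAt.fun_sum fun i hi => ?_
      rw [Finset.mem_filter] at hi
      refine (hasDerivAt_cint (P.rr_pos i.1).le (fun w hw =>
        (hFc w (P.sphere_sub (hS i hi.1) hw)).continuousWithinAt) ?_).differentiableAt
      rw [mem_sphere, dist_eq_norm]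
      exact (hz.2 i hi.2).ne'
  · intro z hz3 hzr
    have hzX : z ∈ P.XX := ⟨hz3.le, fun i => (hzr i).le⟩
    have hzOm : z ∈ Om (0 : ℂ) R0 S P.ctr (fun i => P.rr i.1) := by
      refine ⟨by rw [mem_ball, dist_zero_right]; exact hz3, fun i _ => ?_⟩
      rw [mem_closedBall, dist_eq_norm, not_le]
      exact hzr i
    have h1 := (multi_cauchy hconf p' s hS').1 z hzOm
    rw [hF z hzX] at h1
    unfold II at h1
    have h3 : g z - (2 * π * Complex.I : ℂ)⁻¹ * (cint 0 R0 (GG p' s) z -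
        ∑ i ∈ S.filter (fun i => i.1 ≤ k), cint (P.ctr i) (P.rr i.1) (GG p' s) z) =
        -((2 * π * Complex.I : ℂ)⁻¹ *
          ∑ i ∈ S.filter (fun i => ¬ i.1 ≤ k), cint (P.ctr i) (P.rr i.1) (GG p' s) z) := by
      rw [← Finset.sum_filter_add_sum_filter_not S (fun i => i.1 ≤ k)] at h1
      have h4 : g z = (2 * π * Complex.I : ℂ)⁻¹ * (2 * π * Complex.I * g z) := by
        rw [← mul_assoc, inv_mul_cancel₀ h2pi, one_mul]
      rw [h4, ← h1]
      ring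
    rw [h3, norm_neg, norm_mul, norm_inv, hn2pi]

/-- transfer from the base point to `z` -/
theorem transfer (k : ℕ) {z : ℂ} (hz : ‖z‖ < R0)
    (hzr : ∀ i : ℕ × ℤ × ℤ, P.rr i.1 < ‖z - P.ctr i‖) {κ C τ : ℝ} (hκ : 3 * P.dl (k + 1) ≤ κ)
    (hC : 0 < C) (hHR : ∀ h : ℂ → ℂ, DifferentiableOn ℂ h (P.W k) →
      (∀ w, ball w κ ⊆ P.W k → ‖h w‖ ≤ 1) → ‖h z - h x0‖ ≤ C * (1 - ‖h x0‖))
    (hc : (C + 1) * (960 * P.cc (k + 1)) ≤ 1 / 64)
    (hpot : ∀ S : Finset (ℕ × ℤ × ℤ), (∀ i ∈ S, P.Good i) → (∀ i ∈ S, k + 1 ≤ i.1) →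
      ∑ i ∈ S, P.rr i.1 / (‖z - P.ctr i‖ - P.rr i.1) ≤ 1 / 8)
    (hτ0 : 0 ≤ τ) (hτ : (C + 1) * τ ≤ 1 / 64) {f : ℂ → ℂ} (hf : f ∈ QX P.XX)
    (hf1 : ∀ w ∈ P.XX, ‖f w‖ ≤ 1) (hfx : ‖f x0 - 1‖ ≤ τ) : ‖f z - 1‖ ≤ 1 / 2 := by
  obtain ⟨h, F, S, hd, hFB, hS, hSk, hfh⟩ := P.split2 k hf hf1
  have hpi := Real.pi_pos
  set D : ℝ := 960 * P.cc (k + 1) with hD
  have hD0 : 0 ≤ D := by have := P.cc_pos (k + 1); positivity
  have hxl := P.mem_XX_of_line (z := x0) (by simp [x0]) rfl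
  have hlt : ∀ w : ℂ, (∀ i : ℕ × ℤ × ℤ, k + 1 ≤ i.1 → P.dl i.1 / 6 ≤ ‖w - P.ctr i‖) →
      (2 * π)⁻¹ * ‖∑ i ∈ S, cint (P.ctr i) (P.rr i.1) F w‖ ≤ D := by
    intro w hw
    have h1 := P.sum_cint_le S (k + 1) hSk hS (z := w) (fun i hi => hw i (hSk i hi))
      zero_le_one hFB
    calc _ ≤ (2 * π)⁻¹ * (2 * π * (960 * P.cc (k + 1) * 1)) := by gcongr
      _ = D := by rw [hD]; field_simp
  have hsmall : ∀ i : ℕ × ℤ × ℤ, P.rr i.1 < P.dl i.1 / 6 := fun i => by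
    have := P.rr_le' i.1
    have := P.dl_pos i.1
    linarith
  have hx0h : ‖f x0 - h x0‖ ≤ D :=
    (hfh x0 hxl.1 fun i => (hsmall i).trans_le (hxl.2 i)).trans (hlt x0 fun i _ => hxl.2 i)
  have hzh : ‖f z - h z‖ ≤ 1 / 8 := by
    refine (hfh z hz hzr).trans ?_
    have h1 : ‖∑ i ∈ S, cint (P.ctr i) (P.rr i.1) F z‖ ≤ 2 * π * (1 / 8) := by
      calc ‖∑ i ∈ S, cint (P.ctr i) (P.rr i.1) F z‖
          ≤ ∑ i ∈ S, ‖cint (P.ctr i) (P.rr i.1) F z‖ := norm_sum_le _ _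
        _ ≤ ∑ i ∈ S, 2 * π * (P.rr i.1 / (‖z - P.ctr i‖ - P.rr i.1)) := by
            refine Finset.sum_le_sum fun i hi => ?_
            have h5 := norm_cint_le (c := P.ctr i) (w := z) (P.rr_pos i.1).le (F := F) (M := 1)
              (d := ‖z - P.ctr i‖ - P.rr i.1) (by linarith [hzr i])
              (fun w hw => hFB w (P.sphere_sub (hS i hi) hw)) (fun w hw => by
                rw [mem_sphere, dist_eq_norm] at hw
                have h6 : ‖z - P.ctr i‖ ≤ ‖w - P.ctr i‖ + ‖w - z‖ := by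
                  have : z - P.ctr i = (w - P.ctr i) - (w - z) := by ring
                  rw [this]; exact norm_sub_le _ _
                linarith)
            refine h5.trans (le_of_eq ?_)
            rw [mul_one_div]
        _ = 2 * π * ∑ i ∈ S, P.rr i.1 / (‖z - P.ctr i‖ - P.rr i.1) := by
            rw [Finset.mul_sum]
        _ ≤ 2 * π * (1 / 8) := by
            have := hpot S hS hSk
            gcongr
    calc _ ≤ (2 * π)⁻¹ * (2 * π * (1 / 8)) := by gcongr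
      _ = 1 / 8 := by field_simp
  -- bound of `h` on the mesh
  have hbound : ∀ w, ball w κ ⊆ P.W k → ‖h w‖ ≤ 1 + D := by
    intro w hw
    refine mesh_max hd (P.dl_pos (k + 1)) (M := 1 + D) ?_ hw hκ
    intro ζ hζ hline
    have hfar : ∀ i : ℕ × ℤ × ℤ, k + 1 ≤ i.1 → P.dl i.1 / 6 ≤ ‖ζ - P.ctr i‖ := fun i hi =>
      P.far_mesh hi hline i rfl
    have hall : ∀ i : ℕ × ℤ × ℤ, P.rr i.1 < ‖ζ - P.ctr i‖ := by
      intro i
      by_cases hi : i.1 ≤ k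
      · exact hζ.2 i hi
      · exact (hsmall i).trans_le (hfar i (by omega))
    have h1 := (hfh ζ hζ.1 hall).trans (hlt ζ hfar)
    have h2 := hf1 ζ ⟨hζ.1.le, fun i => (hall i).le⟩
    have h3 : h ζ = f ζ - (f ζ - h ζ) := by ring
    rw [h3]
    exact (norm_sub_le _ _).trans (add_le_add h2 h1)
  -- normalisation
  have hD1 : 0 < 1 + D := by linarith
  have hH := hHR (fun w => ((1 + D : ℝ) : ℂ)⁻¹ * h w) (hd.const_mul _) (fun w hw => by
    rw [norm_mul, norm_inv, Complex.norm_real, Real.norm_of_nonneg hD1.le,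
      inv_mul_le_iff₀ hD1, mul_one]
    exact hbound w hw)
  rw [← mul_sub, norm_mul, norm_mul, norm_inv, Complex.norm_real, Real.norm_of_nonneg hD1.le,
    inv_mul_le_iff₀ hD1] at hH
  have h4 : 1 - τ - D ≤ ‖h x0‖ := by
    have h5 : (1 : ℂ) = h x0 + (f x0 - h x0) - (f x0 - 1) := by ring
    have h6 : (1 : ℝ) ≤ ‖h x0‖ + ‖f x0 - h x0‖ + ‖f x0 - 1‖ := by
      calc (1 : ℝ) = ‖(1 : ℂ)‖ := norm_one.symm
        _ = ‖h x0 + (f x0 - h x0) - (f x0 - 1)‖ := by rw [← h5]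
        _ ≤ _ := (norm_sub_le _ _).trans (add_le_add (norm_add_le _ _) le_rfl)
    linarith
  have h7 : ‖h z - h x0‖ ≤ C * (τ + 2 * D) := by
    refine hH.trans ?_
    have h8 : (1 + D) * (C * (1 - (1 + D)⁻¹ * ‖h x0‖)) = C * (1 + D - ‖h x0‖) := by
      field_simp
    rw [h8]
    gcongr
    linarith
  have h9 : f z - 1 = (f z - h z) + (h z - h x0) - (f x0 - h x0) + (f x0 - 1) := by ring
  rw [h9]
  have h10 : ‖(f z - h z) + (h z - h x0) - (f x0 - h x0) + (f x0 - 1)‖ ≤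
      1 / 8 + C * (τ + 2 * D) + D + τ := by
    refine (norm_add_le _ _).trans (add_le_add ?_ hfx)
    refine (norm_sub_le _ _).trans (add_le_add ?_ hx0h)
    exact (norm_add_le _ _).trans (add_le_add hzh h7)
  refine h10.trans ?_
  nlinarith

end Par

end Pool.Agent.H136R3
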