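import Mathlib

set_option autoImplicit false

open Filter Topology Set Metric Complex
open scoped Real

namespace Pool.Agent.H136R3

/-- Cauchy type integral -/
noncomputable def cint (c : ℂ) (R : ℝ) (F : ℂ → ℂ) (w : ℂ) : ℂ :=
  ∮ z in C(c, R), (z - w)⁻¹ * F z

theorem continuousOn_kernel {c w : ℂ} {R : ℝ} {F : ℂ → ℂ} (hF : ContinuousOn F (sphere c R))
    (hw : w ∉ sphere c R) : ContinuousOn (fun z => (z - w)⁻¹ * F z) (sphere c R) := by
  refine ContinuousOn.mul ?_ hF
  refine ContinuousOn.inv₀ (by fun_prop) ?_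
  intro z hz h
  rw [sub_eq_zero] at h
  rw [h] at hz
  exact hw hz

theorem circleIntegrable_kernel {c w : ℂ} {R : ℝ} (hR : 0 ≤ R) {F : ℂ → ℂ}
    (hF : ContinuousOn F (sphere c R)) (hw : w ∉ sphere c R) :
    CircleIntegrable (fun z => (z - w)⁻¹ * F z) c R :=
  (continuousOn_kernel hF hw).circleIntegrable hR

theorem norm_cint_le {c w : ℂ} {R : ℝ} (hR : 0 ≤ R) {F : ℂ → ℂ} {M d : ℝ} (hd : 0 < d)
    (hM : ∀ z ∈ sphere c R, ‖F z‖ ≤ M) (hw : ∀ z ∈ sphere c R, d ≤ ‖z - w‖) :
    ‖cint c R F w‖ ≤ 2 * π * (R * (M / d)) := by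
  unfold cint
  have h := circleIntegral.norm_integral_le_of_norm_le_const (f := fun z => (z - w)⁻¹ * F z)
    (c := c) (C := M / d) hR (by
      intro z hz
      rw [norm_mul, norm_inv]
      have h1 := hw z hz
      have h2 := hM z hz
      have h3 : ‖z - w‖⁻¹ ≤ d⁻¹ := by gcongr
      calc ‖z - w‖⁻¹ * ‖F z‖ ≤ d⁻¹ * M :=
            mul_le_mul h3 h2 (norm_nonneg _) (by positivity)
        _ = M / d := by rw [div_eq_mul_inv, mul_comm])
  calc _ ≤ 2 * π * R * (M / d) := h
    _ = _ := by ring

/-- Differentiability of Cauchy type integrals off the circle. -/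
theorem hasDerivAt_cint {c w₀ : ℂ} {R : ℝ} (hR : 0 ≤ R) {F : ℂ → ℂ}
    (hF : ContinuousOn F (sphere c R)) (hw : w₀ ∉ sphere c R) :
    HasDerivAt (cint c R F) (∮ z in C(c, R), ((z - w₀) ^ 2)⁻¹ * F z) w₀ := by
  -- distance to the circle
  obtain ⟨d, hd, hdist⟩ : ∃ d : ℝ, 0 < d ∧ ∀ z ∈ sphere c R, 2 * d ≤ ‖z - w₀‖ := by
    have h1 : IsClosed (sphere c R) := isClosed_sphere
    obtain ⟨ε, hε, hball⟩ := Metric.isOpen_iff.1 h1.isOpen_compl w₀ hw
    refine ⟨ε / 2, by positivity, fun z hz => ?_⟩
    by_contra hlt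
    push Not at hlt
    have : z ∈ ball w₀ ε := by
      rw [mem_ball, dist_eq_norm]; linarith
    exact hball this hz
  obtain ⟨M, hM⟩ : ∃ M : ℝ, ∀ z ∈ sphere c R, ‖F z‖ ≤ M := by
    obtain ⟨M, hM⟩ := (isCompact_sphere c R).exists_bound_of_continuousOn hF
    exact ⟨M, hM⟩
  rw [hasDerivAt_iff_isLittleO]
  have hbound : ∀ w ∈ ball w₀ d, ‖cint c R F w - cint c R F w₀ -
      (w - w₀) • ∮ z in C(c, R), ((z - w₀) ^ 2)⁻¹ * F z‖ ≤
      (2 * π * R * (M / (d * (2 * d) ^ 2))) * ‖w - w₀‖ ^ 2 := by
    intro w hw'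
    have hww : ∀ z ∈ sphere c R, d ≤ ‖z - w‖ := by
      intro z hz
      have h1 := hdist z hz
      have h2 : ‖z - w₀‖ ≤ ‖z - w‖ + ‖w - w₀‖ := by
        have : z - w₀ = (z - w) + (w - w₀) := by ring
        rw [this]; exact norm_add_le _ _
      rw [mem_ball, dist_eq_norm] at hw'
      linarith
    have hwns : w ∉ sphere c R := by
      intro h
      have := hww w h
      simp at this
      linarith
    have hc2 : ContinuousOn (fun z => ((z - w₀) ^ 2)⁻¹ * F z) (sphere c R) := by
      refine ContinuousOn.mul ?_ hF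
      refine ContinuousOn.inv₀ (by fun_prop) ?_
      intro z hz h
      have := hdist z hz
      rw [pow_eq_zero_iff two_ne_zero] at h
      rw [h, norm_zero] at this
      linarith
    have heq : cint c R F w - cint c R F w₀ -
        (w - w₀) • (∮ z in C(c, R), ((z - w₀) ^ 2)⁻¹ * F z) =
        ∮ z in C(c, R), (w - w₀) ^ 2 * ((z - w)⁻¹ * ((z - w₀) ^ 2)⁻¹ * F z) := by
      unfold cint
      rw [smul_eq_mul, ← circleIntegral.integral_const_mul,
        ← circleIntegral.integral_sub (circleIntegrable_kernel hR hF hwns)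
          (circleIntegrable_kernel hR hF hw), ← circleIntegral.integral_sub]
      · apply circleIntegral.integral_congr hR
        intro z hz
        have h1 : z - w ≠ 0 := by
          intro h; have := hww z hz; rw [h, norm_zero] at this; linarith
        have h2 : z - w₀ ≠ 0 := by
          intro h; have := hdist z hz; rw [h, norm_zero] at this; linarith
        simp only
        field_simp
        ring
      · exact (circleIntegrable_kernel hR hF hwns).sub (circleIntegrable_kernel hR hF hw)
      · exact (ContinuousOn.mul continuousOn_const hc2).circleIntegrable hR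
    rw [heq]
    have h := circleIntegral.norm_integral_le_of_norm_le_const
      (f := fun z => (w - w₀) ^ 2 * ((z - w)⁻¹ * ((z - w₀) ^ 2)⁻¹ * F z))
      (c := c) (C := ‖w - w₀‖ ^ 2 * (M / (d * (2 * d) ^ 2))) hR (by
        intro z hz
        rw [norm_mul, norm_pow]
        refine mul_le_mul_of_nonneg_left ?_ (by positivity)
        rw [norm_mul, norm_mul, norm_inv, norm_inv, norm_pow]
        have h1 := hww z hz
        have h2 := hdist z hz
        have h3 := hM z hz
        have h4 : ‖z - w‖⁻¹ ≤ d⁻¹ := by gcongr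
        have h5 : (‖z - w₀‖ ^ 2)⁻¹ ≤ ((2 * d) ^ 2)⁻¹ := by gcongr
        calc ‖z - w‖⁻¹ * (‖z - w₀‖ ^ 2)⁻¹ * ‖F z‖ ≤ d⁻¹ * ((2 * d) ^ 2)⁻¹ * M := by
              refine mul_le_mul (mul_le_mul h4 h5 (by positivity) (by positivity)) h3
                (norm_nonneg _) (by positivity)
          _ = M / (d * (2 * d) ^ 2) := by field_simp)
    refine h.trans (le_of_eq ?_)
    ring
  have hO : (fun w => cint c R F w - cint c R F w₀ -
      (w - w₀) • ∮ z in C(c, R), ((z - w₀) ^ 2)⁻¹ * F z) =O[𝓝 w₀] fun w => ‖w - w₀‖ ^ 2 := by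
    refine Asymptotics.IsBigO.of_bound (2 * π * R * (M / (d * (2 * d) ^ 2))) ?_
    filter_upwards [ball_mem_nhds w₀ hd] with w hw'
    rw [norm_pow, norm_norm]
    exact hbound w hw'
  refine hO.trans_isLittleO ?_
  rw [Asymptotics.isLittleO_iff]
  intro ε hε
  filter_upwards [ball_mem_nhds w₀ hε] with w hw'
  rw [norm_pow, norm_norm, sq]
  rw [mem_ball, dist_eq_norm] at hw'
  exact mul_le_mul_of_nonneg_right hw'.le (norm_nonneg _)

/-- Cauchy formula inside. -/
theorem cint_inside {c w : ℂ} {R : ℝ} {F : ℂ → ℂ} (hF : Differentiable ℂ F)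
    (hw : w ∈ ball c R) : cint c R F w = 2 * π * I * F w := by
  have h := (hF.differentiableOn (s := closedBall c R)).circleIntegral_sub_inv_smul hw
  simpa [cint, smul_eq_mul] using h

/-- Cauchy formula outside. -/
theorem cint_outside {c w : ℂ} {R : ℝ} (hR : 0 ≤ R) {F : ℂ → ℂ} (hF : Differentiable ℂ F)
    (hw : w ∉ closedBall c R) : cint c R F w = 0 := by
  unfold cint
  have hd : ∀ z ∈ closedBall c R, DifferentiableAt ℂ (fun z => (z - w)⁻¹ * F z) z := by
    intro z hz
    have h1 : z - w ≠ 0 := by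
      intro h
      rw [sub_eq_zero] at h
      rw [h] at hz
      exact hw hz
    exact ((differentiableAt_id.sub_const w).inv h1).mul (hF z)
  exact circleIntegral_eq_zero_of_differentiable_on_off_countable hR countable_empty
    (fun z hz => (hd z hz).continuousAt.continuousWithinAt)
    (fun z hz => hd z (ball_subset_closedBall hz.1))

/-- A configuration of disjoint closed discs inside an open disc. -/
structure Config {ι : Type*} (c : ℂ) (R : ℝ) (S : Finset ι) (a : ι → ℂ) (r : ι → ℝ) : Prop where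
  pos : 0 < R
  rpos : ∀ i ∈ S, 0 < r i
  inside : ∀ i ∈ S, closedBall (a i) (r i) ⊆ ball c R
  disj : ∀ i ∈ S, ∀ j ∈ S, i ≠ j → Disjoint (closedBall (a i) (r i)) (closedBall (a j) (r j))

section config

variable {ι : Type*} {c : ℂ} {R : ℝ} {S : Finset ι} {a : ι → ℂ} {r : ι → ℝ}

/-- the total Cauchy integral -/
noncomputable def II (c : ℂ) (R : ℝ) (S : Finset ι) (a : ι → ℂ) (r : ι → ℝ) (F : ℂ → ℂ)
    (w : ℂ) : ℂ := cint c R F w - ∑ i ∈ S, cint (a i) (r i) F w

/-- the domain -/
def Om (c : ℂ) (R : ℝ) (S : Finset ι) (a : ι → ℂ) (r : ι → ℝ) : Set ℂ :=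
  {w | w ∈ ball c R ∧ ∀ i ∈ S, w ∉ closedBall (a i) (r i)}

/-- the exterior -/
def Ex (c : ℂ) (R : ℝ) (S : Finset ι) (a : ι → ℂ) (r : ι → ℝ) : Set ℂ :=
  {w | w ∉ closedBall c R ∨ ∃ i ∈ S, w ∈ ball (a i) (r i)}

theorem isOpen_Ex : IsOpen (Ex c R S a r) := by
  have h1 : Ex c R S a r = (closedBall c R)ᶜ ∪ ⋃ i ∈ S, ball (a i) (r i) := by
    ext w; simp [Ex]
  rw [h1]
  exact isClosed_closedBall.isOpen_compl.union (isOpen_biUnion fun i _ => isOpen_ball)

theorem Config.outer_ne (h : Config c R S a r) {z b : ℂ} (hz : z ∈ sphere c R)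
    (hb : b ∈ Ex c R S a r) : z ≠ b := by
  rintro rfl
  rcases hb with hb | ⟨i, hi, hb⟩
  · exact hb (sphere_subset_closedBall hz)
  · have := h.inside i hi (ball_subset_closedBall hb)
    rw [mem_sphere] at hz
    rw [mem_ball, hz] at this
    exact lt_irrefl _ this

theorem Config.inner_ne (h : Config c R S a r) {z b : ℂ} {i : ι} (hi : i ∈ S)
    (hz : z ∈ sphere (a i) (r i)) (hb : b ∈ Ex c R S a r) : z ≠ b := by
  rintro rfl
  rcases hb with hb | ⟨j, hj, hb⟩
  · exact hb (ball_subset_closedBall (h.inside i hi (sphere_subset_closedBall hz)))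
  · by_cases hij : i = j
    · subst hij
      rw [mem_sphere] at hz
      rw [mem_ball, hz] at hb
      exact lt_irrefl _ hb
    · exact Set.disjoint_left.1 (h.disj i hi j hj hij) (sphere_subset_closedBall hz)
        (ball_subset_closedBall hb)

/-- the product of simple poles times a polynomial -/
noncomputable def GG (p : Polynomial ℂ) (s : List ℂ) (z : ℂ) : ℂ :=
  (s.map fun b => (z - b)⁻¹).prod * p.eval z

theorem GG_cons (p : Polynomial ℂ) (b : ℂ) (s : List ℂ) (z : ℂ) :
    GG p (b :: s) z = (z - b)⁻¹ * GG p s z := by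
  simp [GG, mul_assoc]

theorem GG_continuousAt (p : Polynomial ℂ) (s : List ℂ) (z : ℂ) (hz : ∀ b ∈ s, z ≠ b) :
    ContinuousAt (GG p s) z := by
  induction s with
  | nil =>
    have : GG p [] = fun z => p.eval z := by funext z; simp [GG]
    rw [this]
    exact p.continuous.continuousAt
  | cons b s ih =>
    have h1 : GG p (b :: s) = fun z => (z - b)⁻¹ * GG p s z := funext (GG_cons p b s)
    rw [h1]
    refine ContinuousAt.mul ?_ (ih fun b' hb' => hz b' (List.mem_cons_of_mem _ hb'))
    refine ContinuousAt.inv₀ (by fun_prop) ?_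
    exact sub_ne_zero.2 (hz b List.mem_cons_self)

theorem II_cons (h : Config c R S a r) (p : Polynomial ℂ) (b : ℂ) (s : List ℂ)
    (hs : ∀ b' ∈ b :: s, b' ∈ Ex c R S a r) {w : ℂ} (hwb : w ≠ b)
    (hwo : w ∉ sphere c R) (hwi : ∀ i ∈ S, w ∉ sphere (a i) (r i)) :
    II c R S a r (GG p (b :: s)) w =
      (b - w)⁻¹ * (II c R S a r (GG p s) b - II c R S a r (GG p s) w) := by
  have hb := hs b List.mem_cons_self
  have hs' : ∀ b' ∈ s, b' ∈ Ex c R S a r := fun b' hb' => hs b' (List.mem_cons_of_mem _ hb')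
  have hbw : b - w ≠ 0 := sub_ne_zero.2 hwb.symm
  have key : ∀ (c' : ℂ) (R' : ℝ), 0 ≤ R' → w ∉ sphere c' R' →
      (∀ z ∈ sphere c' R', ∀ b' ∈ Ex c R S a r, z ≠ b') →
      cint c' R' (GG p (b :: s)) w =
        (b - w)⁻¹ * (cint c' R' (GG p s) b - cint c' R' (GG p s) w) := by
    intro c' R' hR' hw' hne
    have hc : ContinuousOn (GG p s) (sphere c' R') := fun z hz =>
      (GG_continuousAt p s z fun b' hb' => hne z hz b' (hs' b' hb')).continuousWithinAt
    have hb' : b ∉ sphere c' R' := fun hbs => hne b hbs b hb rfl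
    unfold cint
    rw [← circleIntegral.integral_sub (circleIntegrable_kernel hR' hc hb')
      (circleIntegrable_kernel hR' hc hw'), ← circleIntegral.integral_const_mul]
    apply circleIntegral.integral_congr hR'
    intro z hz
    have h1 : z - b ≠ 0 := sub_ne_zero.2 (hne z hz b hb)
    have h2 : z - w ≠ 0 := by
      rw [sub_ne_zero]
      rintro rfl
      exact hw' hz
    simp only
    rw [GG_cons]
    field_simp
    ring
  unfold II
  rw [key c R h.pos.le hwo (fun z hz b' hb' => h.outer_ne hz hb')]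
  have h2 : ∑ i ∈ S, cint (a i) (r i) (GG p (b :: s)) w =
      ∑ i ∈ S, (b - w)⁻¹ * (cint (a i) (r i) (GG p s) b - cint (a i) (r i) (GG p s) w) :=
    Finset.sum_congr rfl fun i hi =>
      key (a i) (r i) (h.rpos i hi).le (hwi i hi) (fun z hz b' hb' => h.inner_ne hi hz hb')
  rw [h2, ← Finset.mul_sum, Finset.sum_sub_distrib]
  ring

/-- **Cauchy formula for a domain with circular holes**, for rational functions. -/
theorem multi_cauchy (h : Config c R S a r) (p : Polynomial ℂ) (s : List ℂ)
    (hs : ∀ b ∈ s, b ∈ Ex c R S a r) :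
    (∀ w ∈ Om c R S a r, II c R S a r (GG p s) w = 2 * π * I * GG p s w) ∧
      (∀ w ∈ Ex c R S a r, II c R S a r (GG p s) w = 0) := by
  induction s with
  | nil =>
    have hG : GG p [] = fun z => p.eval z := by funext z; simp [GG]
    have hd : Differentiable ℂ (GG p []) := by rw [hG]; exact p.differentiable
    constructor
    · intro w hw
      unfold II
      rw [cint_inside hd hw.1, Finset.sum_eq_zero, sub_zero]
      intro i hi
      exact cint_outside (h.rpos i hi).le hd (hw.2 i hi)
    · intro w hw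
      unfold II
      rcases hw with hw | ⟨i, hi, hw⟩
      · rw [cint_outside h.pos.le hd hw, Finset.sum_eq_zero, sub_zero]
        intro i hi
        refine cint_outside (h.rpos i hi).le hd fun hwi => ?_
        exact hw (ball_subset_closedBall (h.inside i hi hwi))
      · rw [cint_inside hd (h.inside i hi (ball_subset_closedBall hw)),
          Finset.sum_eq_single i, cint_inside hd hw, sub_self]
        · intro j hj hji
          refine cint_outside (h.rpos j hj).le hd fun hwj => ?_
          exact Set.disjoint_left.1 (h.disj i hi j hj hji.symm) (ball_subset_closedBall hw) hwj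
        · intro hni
          exact absurd hi hni
  | cons b s ih =>
    have hb := hs b List.mem_cons_self
    have hs' : ∀ b' ∈ s, b' ∈ Ex c R S a r := fun b' hb' => hs b' (List.mem_cons_of_mem _ hb')
    obtain ⟨ih1, ih2⟩ := ih hs'
    have hEx : ∀ w ∈ Ex c R S a r, w ∉ sphere c R ∧ ∀ i ∈ S, w ∉ sphere (a i) (r i) :=
      fun w hw => ⟨fun hws => h.outer_ne hws hw rfl, fun i hi hws => h.inner_ne hi hws hw rfl⟩
    have hoff : ∀ w ∈ Ex c R S a r, w ≠ b → II c R S a r (GG p (b :: s)) w = 0 := by
      intro w hw hwb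
      rw [II_cons h p b s hs hwb (hEx w hw).1 (hEx w hw).2, ih2 b hb, ih2 w hw, sub_self, mul_zero]
    constructor
    · intro w hw
      have hwb : w ≠ b := by
        rintro rfl
        rcases hb with hb | ⟨i, hi, hb⟩
        · exact hb (ball_subset_closedBall hw.1)
        · exact hw.2 i hi (ball_subset_closedBall hb)
      have hwo : w ∉ sphere c R := by
        intro hws
        have := hw.1
        rw [mem_ball, mem_sphere.1 hws] at this
        exact lt_irrefl _ this
      have hwi : ∀ i ∈ S, w ∉ sphere (a i) (r i) := fun i hi hws =>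
        hw.2 i hi (sphere_subset_closedBall hws)
      rw [II_cons h p b s hs hwb hwo hwi, ih2 b hb, ih1 w hw, GG_cons, zero_sub]
      have h1 : b - w ≠ 0 := sub_ne_zero.2 hwb.symm
      have h2 : w - b ≠ 0 := sub_ne_zero.2 hwb
      field_simp
      ring
    · intro w hw
      by_cases hwb : w = b
      · subst hwb
        -- continuity at `w`
        have hcont : ContinuousAt (II c R S a r (GG p (w :: s))) w := by
          unfold II
          refine ContinuousAt.sub ?_ ?_
          · refine (hasDerivAt_cint h.pos.le (fun z hz => ?_) (hEx w hw).1).continuousAt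
            exact (GG_continuousAt p (w :: s) z fun b' hb' =>
              h.outer_ne hz (hs b' hb')).continuousWithinAt
          · refine tendsto_finsetSum _ fun i hi => ?_
            refine (hasDerivAt_cint (h.rpos i hi).le (fun z hz => ?_)
              ((hEx w hw).2 i hi)).continuousAt
            exact (GG_continuousAt p (w :: s) z fun b' hb' =>
              h.inner_ne hi hz (hs b' hb')).continuousWithinAt
        have h1 : Tendsto (II c R S a r (GG p (w :: s))) (𝓝[≠] w)
            (𝓝 (II c R S a r (GG p (w :: s)) w)) := hcont.tendsto.mono_left nhdsWithin_le_nhds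
        have h2 : Tendsto (II c R S a r (GG p (w :: s))) (𝓝[≠] w) (𝓝 0) := by
          refine tendsto_const_nhds.congr' ?_
          have h3 : ∀ᶠ w' in 𝓝 w, w' ∈ Ex c R S a r := isOpen_Ex.mem_nhds hw
          filter_upwards [self_mem_nhdsWithin, h3.filter_mono nhdsWithin_le_nhds] with w' hw1 hw2
          exact (hoff w' hw2 hw1).symm
        exact tendsto_nhds_unique h1 h2
      · exact hoff w hw hwb

/-- Every quotient of polynomials is of the form `GG`. -/
theorem exists_GG (p q : Polynomial ℂ) (hq : q ≠ 0) : ∃ (p' : Polynomial ℂ) (s : List ℂ),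
    (∀ b ∈ s, q.eval b = 0) ∧ ∀ z, p.eval z / q.eval z = GG p' s z := by
  refine ⟨Polynomial.C (q.leadingCoeff)⁻¹ * p, q.roots.toList, ?_, ?_⟩
  · intro b hb
    rw [Multiset.mem_toList] at hb
    exact (Polynomial.mem_roots'.1 hb).2
  · intro z
    have h1 := (IsAlgClosed.splits q).eq_prod_roots
    have h2 : q.eval z = q.leadingCoeff * (q.roots.map fun b => z - b).prod := by
      conv_lhs => rw [h1]
      rw [Polynomial.eval_mul, Polynomial.eval_C, Polynomial.eval_multiset_prod,
        Multiset.map_map]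
      simp
    have h3 : (q.roots.toList.map fun b => (z - b)⁻¹).prod =
        ((q.roots.map fun b => z - b).prod)⁻¹ := by
      rw [← Multiset.prod_map_inv, ← Multiset.prod_coe, ← Multiset.map_coe, Multiset.coe_toList]
    unfold GG
    rw [h3, h2, Polynomial.eval_mul, Polynomial.eval_C]
    rw [div_eq_mul_inv, mul_inv]
    ring

end config

end Pool.Agent.H136R3
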