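import Pool.Agent.H136R3.Avg
import Pool.Agent.H136R3.Cauchy

set_option autoImplicit false

open MeasureTheory Filter Topology Set Metric
open scoped NNReal ENNReal Real

namespace Pool.Agent.H136R3

section cheese

variable {c : ℂ} {R : ℝ} {a : ℕ → ℂ} {r : ℕ → ℝ}

/-- Almost every point has finite potential. -/
theorem ae_potential (hR : 0 < R) (hr : ∀ n, 0 < r n) (hs : Summable r) :
    ∀ᵐ w ∂(volume.restrict (ball c R)), ∑' n, ENNReal.ofReal (r n) * (‖a n - w‖ₑ)⁻¹ < ⊤ := by
  refine ae_lt_top ?_ ?_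
  · apply Measurable.tsum
    intro n
    fun_prop
  · rw [lintegral_tsum (fun n => by fun_prop)]
    have h1 : ∀ n, ∫⁻ w in ball c R, ENNReal.ofReal (r n) * (‖a n - w‖ₑ)⁻¹ ≤
        ENNReal.ofReal (r n) * ENNReal.ofReal (3 * π * R) := by
      intro n
      rw [lintegral_const_mul _ (by fun_prop)]
      gcongr
      exact lint_inv _ _ _ hR
    refine ne_top_of_le_ne_top ?_ (ENNReal.tsum_le_tsum h1)
    rw [ENNReal.tsum_mul_right]
    apply ENNReal.mul_ne_top _ ENNReal.ofReal_ne_top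
    rw [← ENNReal.ofReal_tsum_of_nonneg (fun n => (hr n).le) hs]
    exact ENNReal.ofReal_ne_top

/-- The holes do not fill the disc (Wesler's argument). -/
theorem volume_ne_zero (hR : 0 < R) (hr : ∀ n, 0 < r n) (hs : Summable r)
    (hin : ∀ n, closedBall (a n) (r n) ⊆ ball c R) :
    volume (ball c R \ ⋃ n, closedBall (a n) (r n)) ≠ 0 := by
  intro h0
  set E : Set ℂ := ball c R \ ⋃ n, closedBall (a n) (r n) with hE
  have hEm : MeasurableSet E :=
    isOpen_ball.measurableSet.diff (MeasurableSet.iUnion fun n => isClosed_closedBall.measurableSet)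
  -- transfer to `ℝ × ℝ`
  have h1 : volume ((fun p : ℝ × ℝ => (p.1 : ℂ) + p.2 * Complex.I) ⁻¹' E) = 0 := by
    have h2 := (Complex.volume_preserving_equiv_real_prod.symm).measure_preimage
      hEm.nullMeasurableSet
    have h3 : (Complex.measurableEquivRealProd.symm ⁻¹' E) =
        (fun p : ℝ × ℝ => (p.1 : ℂ) + p.2 * Complex.I) ⁻¹' E := by
      ext ⟨x, y⟩
      have h4 : Complex.measurableEquivRealProd.symm (x, y) = (x : ℂ) + y * Complex.I := by
        apply Complex.ext <;> simp [Complex.measurableEquivRealProd]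
      simp only [mem_preimage, h4]
    rw [← h3, h2, h0]
  have hmeas : MeasurableSet ((fun p : ℝ × ℝ => (p.1 : ℂ) + p.2 * Complex.I) ⁻¹' E) := by
    apply hEm.preimage
    fun_prop
  rw [Measure.volume_eq_prod, Measure.measure_prod_null hmeas] at h1
  -- Borel-Cantelli
  have h2 : ∀ᵐ x : ℝ, ∀ᶠ n in atTop, x ∉ Icc ((a n).re - r n) ((a n).re + r n) := by
    apply ae_eventually_notMem
    have h3 : ∀ n, volume (Icc ((a n).re - r n) ((a n).re + r n)) = ENNReal.ofReal (2 * r n) := by
      intro n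
      rw [Real.volume_Icc]
      congr 1
      ring
    simp_rw [h3]
    rw [← ENNReal.ofReal_tsum_of_nonneg (fun n => by have := (hr n).le; positivity)
      (hs.mul_left 2)]
    exact ENNReal.ofReal_ne_top
  -- choose a vertical line
  obtain ⟨x, hx1, hx2, hx3⟩ : ∃ x ∈ Ioo (c.re - R) (c.re + R),
      volume (Prod.mk x ⁻¹' ((fun p : ℝ × ℝ => (p.1 : ℂ) + p.2 * Complex.I) ⁻¹' E)) = 0 ∧
      ∀ᶠ n in atTop, x ∉ Icc ((a n).re - r n) ((a n).re + r n) := by
    by_contra hcon
    push Not at hcon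
    have h4 : ∀ᵐ x : ℝ, x ∉ Ioo (c.re - R) (c.re + R) := by
      filter_upwards [h1, h2] with x hx hx' hmem
      exact hcon x hmem hx hx'
    rw [ae_iff] at h4
    simp only [not_not] at h4
    have h5 : volume (Ioo (c.re - R) (c.re + R)) = 0 := h4
    rw [Real.volume_Ioo, ENNReal.ofReal_eq_zero] at h5
    linarith
  obtain ⟨N, hN⟩ := eventually_atTop.1 hx3
  set line : ℝ → ℂ := fun y => (x : ℂ) + y * Complex.I with hline
  have hlc : Continuous line := by fun_prop
  set U : Set ℝ := line ⁻¹' (ball c R) with hU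
  set K : Set ℝ := ⋃ n ∈ Finset.range N, line ⁻¹' (closedBall (a n) (r n)) with hK
  have hUo : IsOpen U := isOpen_ball.preimage hlc
  have hKc : IsClosed K := isClosed_biUnion_finset fun n _ => isClosed_closedBall.preimage hlc
  have hKU : K ⊆ U := by
    intro y hy
    rw [hK, mem_iUnion₂] at hy
    obtain ⟨n, _, hn⟩ := hy
    exact hin n hn
  have hslice : U \ K ⊆ Prod.mk x ⁻¹' ((fun p : ℝ × ℝ => (p.1 : ℂ) + p.2 * Complex.I) ⁻¹' E) := by
    rintro y ⟨hy1, hy2⟩
    refine ⟨hy1, fun hy3 => ?_⟩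
    rw [mem_iUnion] at hy3
    obtain ⟨n, hn⟩ := hy3
    rcases lt_or_ge n N with h | h
    · apply hy2
      rw [hK, mem_iUnion₂]
      exact ⟨n, Finset.mem_range.2 h, hn⟩
    · apply hN n h
      rw [mem_closedBall, dist_eq_norm] at hn
      have h6 := (Complex.abs_re_le_norm _).trans hn
      have h7 : ((x : ℂ) + y * Complex.I - a n).re = x - (a n).re := by simp
      rw [h7, abs_le] at h6
      constructor <;> linarith [h6.1, h6.2]
  have hUK : U \ K = ∅ := by
    have h8 : IsOpen (U \ K) := hUo.sdiff hKc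
    have h9 : volume (U \ K) = 0 := measure_mono_null hslice hx2
    exact h8.eq_empty_of_measure_zero h9
  have hUeq : U = K := Subset.antisymm (sdiff_eq_empty.1 hUK) hKU
  have hclopen : IsClopen U := ⟨by rw [hUeq]; exact hKc, hUo⟩
  rcases isClopen_iff.1 hclopen with h | h
  · have h10 : c.im ∈ U := by
      rw [hU, mem_preimage, mem_ball, dist_eq_norm]
      have h11 : line c.im - c = ((x - c.re : ℝ) : ℂ) := by
        apply Complex.ext <;> simp [hline]
      rw [h11, Complex.norm_real, Real.norm_eq_abs, abs_lt]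
      constructor <;> linarith [hx1.1, hx1.2]
    rw [h] at h10
    exact h10
  · have h10 : c.im + R ∈ U := by rw [h]; trivial
    rw [hU, mem_preimage, mem_ball, dist_eq_norm] at h10
    have h11 := (Complex.abs_im_le_norm _).trans_lt h10
    have h12 : (line (c.im + R) - c).im = R := by simp [hline]
    rw [h12, abs_of_pos hR] at h11
    exact lt_irrefl _ h11

/-- A good point. -/
theorem exists_good_point (hR : 0 < R) (hr : ∀ n, 0 < r n) (hs : Summable r)
    (hin : ∀ n, closedBall (a n) (r n) ⊆ ball c R) :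
    ∃ w ∈ ball c R, (∀ n, w ∉ closedBall (a n) (r n)) ∧
      Summable fun n => r n / (‖a n - w‖ - r n) := by
  have h1 := volume_ne_zero hR hr hs hin
  have h2 := ae_potential (c := c) (a := a) hR hr hs
  obtain ⟨w, hw1, hw2⟩ : ∃ w ∈ (ball c R \ ⋃ n, closedBall (a n) (r n)),
      ∑' n, ENNReal.ofReal (r n) * (‖a n - w‖ₑ)⁻¹ < ⊤ := by
    by_contra hcon
    push Not at hcon
    apply h1
    rw [ae_restrict_iff' isOpen_ball.measurableSet, ae_iff] at h2
    refine measure_mono_null ?_ h2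
    intro w hw hlt
    exact absurd (hlt hw.1) (not_lt.2 (hcon w hw))
  have hout : ∀ n, w ∉ closedBall (a n) (r n) := fun n hn => hw1.2 (mem_iUnion.2 ⟨n, hn⟩)
  have hgt : ∀ n, r n < ‖a n - w‖ := by
    intro n
    have := hout n
    rw [mem_closedBall, not_le, dist_comm, dist_eq_norm] at this
    exact this
  refine ⟨w, hw1.1, hout, ?_⟩
  -- summability of `r n / |a n - w|`
  have hsum : Summable fun n => r n / ‖a n - w‖ := by
    have h3 : ∀ n, ENNReal.ofReal (r n) * (‖a n - w‖ₑ)⁻¹ = ENNReal.ofReal (r n / ‖a n - w‖) := by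
      intro n
      have hpos : 0 < ‖a n - w‖ := (hr n).trans (hgt n)
      rw [← ofReal_norm, ← ENNReal.ofReal_inv_of_pos hpos, ← ENNReal.ofReal_mul (hr n).le,
        div_eq_mul_inv]
    simp_rw [h3] at hw2
    have h4 := ENNReal.summable_toReal hw2.ne
    refine h4.congr fun n => ?_
    rw [ENNReal.toReal_ofReal (div_nonneg (hr n).le (norm_nonneg _))]
  -- eventually `r n ≤ |a n - w| / 2`
  have h5 : ∀ᶠ n in atTop, r n / ‖a n - w‖ < 1 / 2 :=
    (hsum.tendsto_atTop_zero).eventually (gt_mem_nhds (by norm_num))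
  obtain ⟨N, hN⟩ := eventually_atTop.1 h5
  rw [← summable_nat_add_iff N]
  refine Summable.of_nonneg_of_le (fun n => ?_) (fun n => ?_)
    (((summable_nat_add_iff N).2 hsum).mul_left 2)
  · exact div_nonneg (hr _).le (by linarith [hgt (n + N)])
  · have h6 := hN (n + N) (by omega)
    have hpos : 0 < ‖a (n + N) - w‖ := (hr _).trans (hgt _)
    rw [div_lt_iff₀ hpos] at h6
    have h7 := hgt (n + N)
    have h8 := hr (n + N)
    rw [div_le_iff₀ (by linarith)]
    have h9 : 2 * (r (n + N) / ‖a (n + N) - w‖) * (‖a (n + N) - w‖ - r (n + N)) =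
        2 * r (n + N) * ((‖a (n + N) - w‖ - r (n + N)) / ‖a (n + N) - w‖) := by
      field_simp
    rw [h9]
    have h10 : 1 / 2 ≤ (‖a (n + N) - w‖ - r (n + N)) / ‖a (n + N) - w‖ := by
      rw [le_div_iff₀ hpos]; linarith
    nlinarith

theorem norm_bound (hR : 0 < R) (hr : ∀ n, 0 < r n)
    (hin : ∀ n, closedBall (a n) (r n) ⊆ ball c R)
    (hdisj : ∀ m n, m ≠ n → Disjoint (closedBall (a m) (r m)) (closedBall (a n) (r n)))
    {X : Set ℂ} (hX : X = closedBall c R \ ⋃ n, ball (a n) (r n))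
    {w : ℂ} (hw : w ∈ ball c R) (hw2 : ∀ n, w ∉ closedBall (a n) (r n))
    (hsum : Summable fun n => r n / (‖a n - w‖ - r n))
    {g : ℂ → ℂ} (hg : g ∈ QX X) (N : ℕ) {M₁ M₂ : ℝ} (hM₁ : ∀ z ∈ sphere c R, ‖g z‖ ≤ M₁)
    (hM₁' : ∀ n < N, ∀ z ∈ sphere (a n) (r n), ‖g z‖ ≤ M₁) (hM₂ : ∀ z ∈ X, ‖g z‖ ≤ M₂) :
    ‖g w‖ ≤ M₁ * (R / (R - ‖w - c‖) + ∑ n ∈ Finset.range N, r n / (‖a n - w‖ - r n)) +
      M₂ * ∑' n, r (n + N) / (‖a (n + N) - w‖ - r (n + N)) := by
  have hgt : ∀ n, r n < ‖a n - w‖ := by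
    intro n
    have := hw2 n
    rw [mem_closedBall, not_le, dist_comm, dist_eq_norm] at this
    exact this
  have hwX : w ∈ X := by
    rw [hX]
    refine ⟨ball_subset_closedBall hw, fun h => ?_⟩
    obtain ⟨n, hn⟩ := mem_iUnion.1 h
    exact hw2 n (ball_subset_closedBall hn)
  have hM₂0 : 0 ≤ M₂ := (norm_nonneg _).trans (hM₂ w hwX)
  obtain ⟨p, q, hq, hgq⟩ := hg
  have hq0 : q ≠ 0 := by
    rintro rfl
    exact hq w hwX (by simp)
  obtain ⟨p', s, hs1, hs2⟩ := exists_GG p q hq0
  -- indices of the roots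
  have hroot : ∀ b ∈ s, b ∉ closedBall c R ∨ ∃ n, b ∈ ball (a n) (r n) := by
    intro b hb
    by_contra hcon
    push Not at hcon
    refine hq b ?_ (hs1 b hb)
    rw [hX]
    refine ⟨hcon.1, fun h => ?_⟩
    obtain ⟨n, hn⟩ := mem_iUnion.1 h
    exact hcon.2 n hn
  obtain ⟨N', hN', hroot'⟩ : ∃ N' ≥ N, ∀ b ∈ s, b ∉ closedBall c R ∨
      ∃ n ∈ Finset.range N', b ∈ ball (a n) (r n) := by
    clear hs1 hs2
    induction s with
    | nil => exact ⟨N, le_rfl, by simp⟩
    | cons b s ih =>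
      obtain ⟨N₁, h1, h2⟩ := ih (fun b' hb' => hroot b' (List.mem_cons_of_mem _ hb'))
      rcases hroot b List.mem_cons_self with h3 | ⟨n, h3⟩
      · refine ⟨N₁, h1, fun b' hb' => ?_⟩
        rcases List.mem_cons.1 hb' with rfl | h4
        · exact Or.inl h3
        · exact h2 b' h4
      · refine ⟨max N₁ (n + 1), h1.trans (le_max_left _ _), fun b' hb' => ?_⟩
        rcases List.mem_cons.1 hb' with rfl | h4
        · exact Or.inr ⟨n, Finset.mem_range.2 (by
            have := le_max_right N₁ (n + 1); omega), h3⟩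
        · rcases h2 b' h4 with h5 | ⟨m, h5, h6⟩
          · exact Or.inl h5
          · exact Or.inr ⟨m, Finset.mem_range.2 ((Finset.mem_range.1 h5).trans_le
              (le_max_left _ _)), h6⟩
  have hconf : Config c R (Finset.range N') a r :=
    ⟨hR, fun n _ => hr n, fun n _ => hin n, fun m _ n _ h => hdisj m n h⟩
  have hII := (multi_cauchy hconf p' s (fun b hb => hroot' b hb)).1 w ⟨hw, fun n _ => hw2 n⟩
  have hgGG : ∀ z ∈ X, GG p' s z = g z := fun z hz => by
    rw [hgq z (hq z hz), hs2 z]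
  have hsph : ∀ n, sphere (a n) (r n) ⊆ X := by
    intro n z hz
    rw [hX]
    refine ⟨ball_subset_closedBall (hin n (sphere_subset_closedBall hz)), fun h => ?_⟩
    obtain ⟨m, hm⟩ := mem_iUnion.1 h
    by_cases hmn : m = n
    · subst hmn
      rw [mem_ball, mem_sphere.1 hz] at hm
      exact lt_irrefl _ hm
    · exact Set.disjoint_left.1 (hdisj m n hmn) (ball_subset_closedBall hm)
        (sphere_subset_closedBall hz)
  have hsph0 : sphere c R ⊆ X := by
    intro z hz
    rw [hX]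
    refine ⟨sphere_subset_closedBall hz, fun h => ?_⟩
    obtain ⟨m, hm⟩ := mem_iUnion.1 h
    have := hin m (ball_subset_closedBall hm)
    rw [mem_ball, mem_sphere.1 hz] at this
    exact lt_irrefl _ this
  rw [hgGG w hwX] at hII
  have hd0 : 0 < R - ‖w - c‖ := by
    rw [mem_ball, dist_eq_norm] at hw; linarith
  have hb0 : ‖cint c R (GG p' s) w‖ ≤ 2 * π * (R * (M₁ / (R - ‖w - c‖))) := by
    apply norm_cint_le hR.le hd0
    · intro z hz
      rw [hgGG z (hsph0 hz)]
      exact hM₁ z hz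
    · intro z hz
      rw [mem_sphere, dist_eq_norm] at hz
      have : z - c = (z - w) + (w - c) := by ring
      have h3 := norm_add_le (z - w) (w - c)
      rw [← this, hz] at h3
      linarith
  have hbn : ∀ n, ∀ M : ℝ, (∀ z ∈ sphere (a n) (r n), ‖g z‖ ≤ M) →
      ‖cint (a n) (r n) (GG p' s) w‖ ≤ 2 * π * (M * (r n / (‖a n - w‖ - r n))) := by
    intro n M hM
    have h3 := norm_cint_le (c := a n) (w := w) (R := r n) (hr n).le (F := GG p' s) (M := M)
      (d := ‖a n - w‖ - r n) (by linarith [hgt n])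
      (fun z hz => by rw [hgGG z (hsph n hz)]; exact hM z hz)
      (fun z hz => by
        rw [mem_sphere, dist_eq_norm] at hz
        have : a n - w = (z - w) - (z - a n) := by ring
        have h3 := norm_sub_le (z - w) (z - a n)
        rw [← this, hz] at h3
        linarith)
    refine h3.trans (le_of_eq ?_)
    ring
  have hsplit : ∑ n ∈ Finset.range N', ‖cint (a n) (r n) (GG p' s) w‖ ≤
      2 * π * (M₁ * ∑ n ∈ Finset.range N, r n / (‖a n - w‖ - r n)) +
      2 * π * (M₂ * ∑' n, r (n + N) / (‖a (n + N) - w‖ - r (n + N))) := by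
    obtain ⟨k, rfl⟩ := Nat.exists_eq_add_of_le hN'
    rw [Finset.sum_range_add]
    apply add_le_add
    · rw [Finset.mul_sum, Finset.mul_sum]
      exact Finset.sum_le_sum fun n hn => hbn n M₁ (hM₁' n (Finset.mem_range.1 hn))
    · have h4 : ∑ n ∈ Finset.range k, ‖cint (a (N + n)) (r (N + n)) (GG p' s) w‖ ≤
          ∑ n ∈ Finset.range k, 2 * π * (M₂ * (r (n + N) / (‖a (n + N) - w‖ - r (n + N)))) := by
        refine Finset.sum_le_sum fun n _ => ?_
        rw [add_comm n N]
        exact hbn (N + n) M₂ (fun z hz => hM₂ z (hsph _ hz))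
      refine h4.trans ?_
      rw [← Finset.mul_sum, ← Finset.mul_sum]
      have h5 := ((summable_nat_add_iff N).2 hsum).sum_le_tsum (Finset.range k)
        (fun n _ => div_nonneg (hr _).le (by linarith [hgt (n + N)]))
      exact mul_le_mul_of_nonneg_left (mul_le_mul_of_nonneg_left h5 hM₂0) (by positivity)
  have hfin : 2 * π * ‖g w‖ ≤ 2 * π * (R * (M₁ / (R - ‖w - c‖))) +
      (2 * π * (M₁ * ∑ n ∈ Finset.range N, r n / (‖a n - w‖ - r n)) +
      2 * π * (M₂ * ∑' n, r (n + N) / (‖a (n + N) - w‖ - r (n + N)))) := by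
    have h5 : 2 * π * ‖g w‖ = ‖2 * (π : ℂ) * Complex.I * g w‖ := by
      rw [norm_mul, norm_mul, norm_mul, Complex.norm_I, Complex.norm_real, mul_one,
        Real.norm_of_nonneg Real.pi_pos.le]
      simp
    rw [h5, ← hII]
    unfold II
    refine (norm_sub_le _ _).trans (add_le_add hb0 ((norm_sum_le _ _).trans hsplit))
  have hpi : 0 < 2 * π := by positivity
  have h6 : 2 * π * ‖g w‖ ≤ 2 * π * (M₁ * (R / (R - ‖w - c‖) +
      ∑ n ∈ Finset.range N, r n / (‖a n - w‖ - r n)) +
      M₂ * ∑' n, r (n + N) / (‖a (n + N) - w‖ - r (n + N))) := by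
    refine hfin.trans (le_of_eq ?_)
    ring
  exact le_of_mul_le_mul_left h6 hpi

end cheese

end Pool.Agent.H136R3
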