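import Pool.Agent.H136R3.QX

set_option autoImplicit false

/-!
Bounded point derivations on `R(X)` vanish where the derivative is unbounded.
-/

open Filter Topology Set Metric Polynomial

namespace Pool.Agent.H136R3.Deriv

/-- The set of (restrictions to `X` of) rational functions with poles off `X`. -/
def ratSet (X : Set ℂ) : Set C(X, ℂ) :=
  {g | ∃ p q : ℂ[X], (∀ z ∈ X, q.eval z ≠ 0) ∧ ∀ z : X, g z = p.eval (z : ℂ) / q.eval (z : ℂ)}

/-- `R(X)` for compact `X` -/
def R (X : Set ℂ) : Set C(X, ℂ) := closure (ratSet X)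

/-- The values of `D` on `R(X)` form a bounded point derivation on `R(X)` at `x`. -/
structure IsBoundedPointDerivation (X : Set ℂ) (x : X) (D : C(X, ℂ) → ℂ) : Prop where
  add : ∀ f ∈ R X, ∀ g ∈ R X, D (f + g) = D f + D g
  smul : ∀ c : ℂ, ∀ f ∈ R X, D (c • f) = c * D f
  mul : ∀ f ∈ R X, ∀ g ∈ R X, D (f * g) = f x * D g + g x * D f
  bound : ∃ K : ℝ, ∀ f ∈ R X, ∀ M : ℝ, (∀ z : X, ‖f z‖ ≤ M) → ‖D f‖ ≤ K * M

open Pool.Agent.H136R3

theorem ratSet_mul {X : Set ℂ} {f g : C(X, ℂ)} (hf : f ∈ ratSet X) (hg : g ∈ ratSet X) :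
    f * g ∈ ratSet X := by
  obtain ⟨p, q, hq, hf⟩ := hf
  obtain ⟨p', q', hq', hg⟩ := hg
  refine ⟨p * p', q * q', fun z hz => ?_, fun z => ?_⟩
  · rw [eval_mul]; exact mul_ne_zero (hq z hz) (hq' z hz)
  · rw [ContinuousMap.mul_apply, hf z, hg z, eval_mul, eval_mul, div_mul_div_comm]

/-- powers stay in `R(X)` -/
theorem R_pow {X : Set ℂ} (hX : IsCompact X) {f : C(X, ℂ)} (hf : f ∈ R X) (n : ℕ) :
    f ^ n ∈ R X := by
  have : CompactSpace X := isCompact_iff_compactSpace.1 hX
  have hmul : ∀ f ∈ R X, ∀ g ∈ R X, f * g ∈ R X := by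
    intro f hf g hg
    exact map_mem_closure₂ continuous_mul hf hg fun a ha b hb => ratSet_mul ha hb
  induction n with
  | zero =>
    rw [pow_zero]
    exact subset_closure ⟨1, 1, fun z _ => by simp, fun z => by simp⟩
  | succ n ih => rw [pow_succ]; exact hmul _ ih _ hf

/-- passage from the algebra to functions on the plane -/
theorem exists_QX {X : Set ℂ} {g : C(X, ℂ)} (hg : g ∈ ratSet X) :
    ∃ f ∈ QX X, ∀ z : X, f z = g z := by
  obtain ⟨p, q, hq, h⟩ := hg
  exact ⟨fun z => p.eval z / q.eval z, ⟨p, q, hq, fun z _ => rfl⟩, fun z => (h z).symm⟩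

theorem restr_mem {X : Set ℂ} (f : QX X) : restr X f ∈ ratSet X := by
  obtain ⟨p, q, hq, h⟩ := f.2
  exact ⟨p, q, hq, fun z => h z (hq z z.2)⟩

/-- elements of `R(X)` are approximated by rational functions -/
theorem approx {X : Set ℂ} (hX : IsCompact X) {f : C(X, ℂ)} (hf : f ∈ R X) {ε : ℝ} (hε : 0 < ε) :
    ∃ g ∈ QX X, ∀ z : X, ‖g z - f z‖ ≤ ε := by
  have : CompactSpace X := isCompact_iff_compactSpace.1 hX
  have h1 : f ∈ closure (ratSet X) := hf
  obtain ⟨g, hg, hgf⟩ := Metric.mem_closure_iff.1 h1 ε hε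
  obtain ⟨F, hF, hFg⟩ := exists_QX hg
  refine ⟨F, hF, fun z => ?_⟩
  rw [hFg z, ← dist_eq_norm, dist_comm]
  exact (ContinuousMap.dist_apply_le_dist z).trans hgf.le

/-- If the derivative at `y` is unbounded, then all bounded point derivations at `y` vanish. -/
theorem derivation_eq_zero {X : Set ℂ} (hX : IsCompact X) {y : X} (hy : ∀ K : ℝ, ¬ N2 X K y)
    {D : C(X, ℂ) → ℂ} (hD : IsBoundedPointDerivation X y D) : ∀ f ∈ R X, D f = 0 := by
  have : CompactSpace X := isCompact_iff_compactSpace.1 hX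
  obtain ⟨hadd, hsmul, hmul, B, hB⟩ := hD
  have hE : ∀ f : QX X, restr X f ∈ R X := fun f => subset_closure (restr_mem f)
  have hone' : (1 : C(X, ℂ)) ∈ R X := subset_closure ⟨1, 1, fun z _ => by simp, fun z => by simp⟩
  have hone : D 1 = 0 := by
    have h1 := hmul 1 hone' 1 hone'
    rw [mul_one] at h1
    simp only [ContinuousMap.one_apply, one_mul] at h1
    linear_combination -h1
  let Z : QX X := ⟨fun z => z - (y : ℂ), QX.id_sub_mem X y⟩
  obtain ⟨d, hd⟩ : ∃ d, d = D (restr X Z) := ⟨_, rfl⟩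
  have key : ∀ f : QX X, D (restr X f) = deriv f.1 y * d := by
    intro f
    obtain ⟨p, q, hq, hfq⟩ := f.2
    -- division
    have hroot : (Polynomial.X - C (y : ℂ)) ∣ (p * C (q.eval (y : ℂ)) - C (p.eval (y : ℂ)) * q) := by
      rw [dvd_iff_isRoot, IsRoot.def]
      simp [mul_comm]
    obtain ⟨s, hs⟩ := hroot
    have hqw := hq y y.2
    let h : QX X := ⟨fun z => s.eval z / (q.eval z * q.eval (y : ℂ)),
      ⟨s, q * C (q.eval (y : ℂ)), fun z hz => by
        rw [eval_mul, eval_C]; exact mul_ne_zero (hq z hz) hqw, fun z _ => by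
        rw [eval_mul, eval_C]⟩⟩
    have hid : ∀ z, q.eval z ≠ 0 → f.1 z = f.1 y + (z - y) * h.1 z := by
      intro z hqz
      have h1 := congrArg (fun r : ℂ[X] => r.eval z) hs
      simp only [eval_sub, eval_mul, eval_C, eval_X] at h1
      change f.1 z = f.1 y + (z - y) * (s.eval z / (q.eval z * q.eval (y : ℂ)))
      rw [mul_div_assoc', ← h1, hfq z hqz, hfq y hqw]
      field_simp
      ring
    have hder : deriv f.1 y = h.1 y := by
      have h2 : ∀ᶠ z in 𝓝 (y : ℂ), q.eval z ≠ 0 := q.continuous.continuousAt.eventually_ne hqw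
      have h3 : f.1 =ᶠ[𝓝 (y : ℂ)] fun z => f.1 y + (z - y) * h.1 z := by
        filter_upwards [h2] with z hz using hid z hz
      rw [h3.deriv_eq]
      have h4 : HasDerivAt (fun z : ℂ => z - (y : ℂ)) 1 y := (hasDerivAt_id' _).sub_const _
      have h5 := (h4.fun_mul (QX.differentiableAt h.2 y.2).hasDerivAt).const_add (f.1 y)
      have h6 := h5.deriv
      simpa using h6
    have hEf : restr X f = (f.1 y) • (1 : C(X, ℂ)) + restr X Z * restr X h := by
      apply ContinuousMap.ext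
      intro z
      change f.1 z = f.1 y * 1 + ((z : ℂ) - y) * h.1 z
      rw [hid z (hq z z.2), mul_one]
    have hm1 : (f.1 y) • (1 : C(X, ℂ)) ∈ R X :=
      subset_closure ⟨C (f.1 y), 1, fun z _ => by simp, fun z => by simp⟩
    have hm2 : restr X Z * restr X h ∈ R X :=
      subset_closure (ratSet_mul (restr_mem Z) (restr_mem h))
    rw [hEf, hadd _ hm1 _ hm2, hsmul _ _ hone', hone, mul_zero, zero_add,
      hmul _ (hE Z) _ (hE h), hder, ← hd]
    change ((y : ℂ) - y) * D (restr X h) + h.1 y * d = h.1 y * d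
    rw [sub_self, zero_mul, zero_add]
  -- boundedness gives a bound of the derivative unless `d = 0`
  have hd0 : d = 0 := by
    by_contra hd0
    apply hy (B / ‖d‖)
    intro f hf M hM
    have hdpos : 0 < ‖d‖ := norm_pos_iff.2 hd0
    have h5 := hB _ (hE ⟨f, hf⟩) M (fun z => hM z z.2)
    rw [key, norm_mul] at h5
    change ‖deriv f y‖ * ‖d‖ ≤ B * M at h5
    rw [div_mul_eq_mul_div, le_div_iff₀ hdpos]
    exact h5
  -- `D` vanishes on a dense set
  have hzero : ∀ f : QX X, D (restr X f) = 0 := fun f => by rw [key, hd0, mul_zero]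
  intro F hF
  have hB1 : ∀ ε : ℝ, 0 < ε → ‖D F‖ ≤ |B| * ε := by
    intro ε hε
    obtain ⟨g, hg, hgF⟩ := Metric.mem_closure_iff.1 hF ε hε
    obtain ⟨f, hf, hfg⟩ := exists_QX hg
    have h2 : restr X ⟨f, hf⟩ = g := ContinuousMap.ext fun z => hfg z
    have h3 : (-1 : ℂ) • g ∈ ratSet X := by
      obtain ⟨p, q, hq, h⟩ := hg
      refine ⟨-p, q, hq, fun z => ?_⟩
      rw [ContinuousMap.smul_apply, h z, eval_neg, smul_eq_mul]
      ring
    have hgR : g ∈ R X := subset_closure hg
    have h4 : D F = D (F + (-1 : ℂ) • g) := by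
      rw [hadd F hF _ (subset_closure h3), hsmul _ _ hgR, ← h2, hzero, mul_zero, add_zero]
    have hFg : F + (-1 : ℂ) • g ∈ R X := by
      have h6 : ∀ u ∈ R X, ∀ v ∈ R X, u + v ∈ R X := by
        intro u hu v hv
        refine map_mem_closure₂ continuous_add hu hv fun a ha b hb => ?_
        obtain ⟨p, q, hq, hf⟩ := ha
        obtain ⟨p', q', hq', hg⟩ := hb
        refine ⟨p * q' + q * p', q * q', fun z hz => ?_, fun z => ?_⟩
        · rw [eval_mul]; exact mul_ne_zero (hq z hz) (hq' z hz)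
        · rw [ContinuousMap.add_apply, hf z, hg z, eval_add, eval_mul, eval_mul, eval_mul,
            div_add_div _ _ (hq z z.2) (hq' z z.2)]
      exact h6 F hF _ (subset_closure h3)
    have h5 := hB _ hFg ε (fun z => by
      have h7 := (ContinuousMap.dist_apply_le_dist (f := F) (g := g) z).trans hgF.le
      rw [dist_eq_norm] at h7
      have h8 : (F + (-1 : ℂ) • g) z = F z - g z := by
        rw [ContinuousMap.add_apply, ContinuousMap.smul_apply, smul_eq_mul]; ring
      rw [h8]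
      exact h7)
    rw [h4]
    exact h5.trans (mul_le_mul_of_nonneg_right (le_abs_self B) hε.le)
  have h6 : ‖D F‖ ≤ 0 := by
    apply le_of_forall_pos_le_add
    intro ε hε
    have h7 := hB1 (ε / (|B| + 1)) (by positivity)
    refine h7.trans ?_
    rw [zero_add, mul_div_assoc', div_le_iff₀ (by positivity)]
    nlinarith [abs_nonneg B]
  exact norm_le_zero_iff.1 h6

end Pool.Agent.H136R3.Deriv
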