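import Pool.Agent.H731R2.Riesz

set_option autoImplicit false

open MeasureTheory Filter Topology Set
open scoped NNReal ENNReal CompactlySupported

namespace Pool.Agent.H136R3

open Pool.Agent.H731R2

/-- A bounded functional on `C(X, ℂ)` is dominated by a measure of mass at most its norm. -/
theorem exists_dominating {X : Type*} [TopologicalSpace X] [CompactSpace X] [T2Space X]
    [MeasurableSpace X] [BorelSpace X] (Φ : StrongDual ℂ C(X, ℂ)) :
    ∃ μ : Measure X, IsFiniteMeasure μ ∧ μ.real univ ≤ ‖Φ‖ ∧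
      ∀ h : C(X, ℂ), ‖Φ h‖ ≤ ∫ x, ‖h x‖ ∂μ := by
  let Λ : C_c(X, ℝ≥0) →ₗ[ℝ≥0] ℝ≥0 :=
    { toFun := fun g => ⟨tv Φ (g : X → ℝ≥0), tv_nonneg Φ ⟨g, g.continuous⟩⟩
      map_add' := by
        intro g₁ g₂
        apply NNReal.eq
        exact tv_add Φ ⟨g₁, g₁.continuous⟩ ⟨g₂, g₂.continuous⟩
      map_smul' := by
        intro c g
        apply NNReal.eq
        exact tv_smul Φ c ⟨g, g.continuous⟩ }
  have hfin : IsFiniteMeasure (NNRealRMK.rieszMeasure Λ) := by
    have : (NNRealRMK.rieszMeasure Λ).Regular := inferInstance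
    exact ⟨isCompact_univ.measure_lt_top⟩
  refine ⟨NNRealRMK.rieszMeasure Λ, hfin, ?_, ?_⟩
  · let g : C_c(X, ℝ≥0) := ⟨⟨fun _ => 1, by fun_prop⟩, HasCompactSupport.of_compactSpace _⟩
    have h1 := NNRealRMK.integral_rieszMeasure Λ g
    have h2 : (Λ g : ℝ) ≤ ‖Φ‖ := by
      change tv Φ (g : X → ℝ≥0) ≤ ‖Φ‖
      apply tv_le
      intro h hh
      refine (Φ.le_opNorm h).trans ?_
      have h3 : ‖h‖ ≤ 1 := by
        rw [ContinuousMap.norm_le _ zero_le_one]
        intro x
        exact (hh x).trans (le_of_eq rfl)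
      calc ‖Φ‖ * ‖h‖ ≤ ‖Φ‖ * 1 := mul_le_mul_of_nonneg_left h3 (norm_nonneg _)
        _ = ‖Φ‖ := mul_one _
    have h4 : (∫ x : X, (g x : ℝ) ∂(NNRealRMK.rieszMeasure Λ)) =
        (NNRealRMK.rieszMeasure Λ).real univ := by
      have h5 : (fun x : X => (g x : ℝ)) = fun _ => (1 : ℝ) := by
        funext x
        rfl
      rw [h5, integral_const, smul_eq_mul, mul_one]
    rw [← h4, h1]
    exact h2
  · intro h
    let g : C_c(X, ℝ≥0) := ⟨⟨fun x => ‖h x‖₊, by fun_prop⟩, HasCompactSupport.of_compactSpace _⟩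
    have h1 := NNRealRMK.integral_rieszMeasure Λ g
    have h2 : ‖Φ h‖ ≤ (Λ g : ℝ) := le_tv Φ ⟨g, g.continuous⟩ h (fun x => le_rfl)
    refine h2.trans ?_
    rw [← h1]
    rfl

/-- The integral of `1/|w|` over a disc centred at the origin. -/
theorem lint_inv_zero (t : ℝ) (ht : 0 < t) :
    ∫⁻ w in Metric.ball (0 : ℂ) t, (‖w‖ₑ)⁻¹ ≤ ENNReal.ofReal (2 * Real.pi * t) := by
  rw [← lintegral_indicator Metric.isOpen_ball.measurableSet,
    ← Complex.lintegral_comp_polarCoord_symm]
  have hsub : ∀ p ∈ polarCoord.target, ENNReal.ofReal p.1 •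
      (Metric.ball (0 : ℂ) t).indicator (fun w => (‖w‖ₑ)⁻¹) (Complex.polarCoord.symm p) ≤
      (Ioo 0 t ×ˢ Ioo (-Real.pi) Real.pi).indicator (fun _ => (1 : ℝ≥0∞)) p := by
    rintro ⟨r, θ⟩ hp
    rw [polarCoord_target] at hp
    obtain ⟨hr, hθ⟩ := hp
    have hr0 : 0 < r := hr
    have hnorm : ‖Complex.polarCoord.symm (r, θ)‖ = r := by
      rw [Complex.norm_polarCoord_symm, abs_of_pos hr0]
    by_cases h : r < t
    · rw [indicator_of_mem (by rw [Metric.mem_ball, dist_zero_right, hnorm]; exact h),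
        indicator_of_mem (show (r, θ) ∈ Ioo 0 t ×ˢ Ioo (-Real.pi) Real.pi from ⟨⟨hr0, h⟩, hθ⟩),
        ← ofReal_norm, hnorm, smul_eq_mul]
      exact ENNReal.mul_inv_le_one _
    · rw [indicator_of_notMem (by rw [Metric.mem_ball, dist_zero_right, hnorm]; exact h)]
      simp
  calc _ ≤ ∫⁻ p in polarCoord.target,
        (Ioo 0 t ×ˢ Ioo (-Real.pi) Real.pi).indicator (fun _ => (1 : ℝ≥0∞)) p :=
        setLIntegral_mono' polarCoord.open_target.measurableSet hsub
    _ ≤ ∫⁻ p, (Ioo 0 t ×ˢ Ioo (-Real.pi) Real.pi).indicator (fun _ => (1 : ℝ≥0∞)) p :=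
        setLIntegral_le_lintegral _ _
    _ = volume (Ioo 0 t ×ˢ Ioo (-Real.pi) Real.pi) := by
        rw [lintegral_indicator_const (measurableSet_Ioo.prod measurableSet_Ioo), one_mul]
    _ = ENNReal.ofReal (2 * Real.pi * t) := by
        rw [Measure.volume_eq_prod, Measure.prod_prod, Real.volume_Ioo, Real.volume_Ioo,
          ← ENNReal.ofReal_mul (by linarith)]
        congr 1
        ring
    _ ≤ _ := le_rfl

theorem lint_inv_center (z : ℂ) (t : ℝ) (ht : 0 < t) :
    ∫⁻ w in Metric.ball z t, (‖z - w‖ₑ)⁻¹ ≤ ENNReal.ofReal (2 * Real.pi * t) := by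
  rw [← lintegral_indicator Metric.isOpen_ball.measurableSet]
  have h := lintegral_sub_left_eq_self (μ := (volume : Measure ℂ))
    (fun w => (Metric.ball (0 : ℂ) t).indicator (fun w => (‖w‖ₑ)⁻¹) w) z
  have h2 : (fun w : ℂ => (Metric.ball (0 : ℂ) t).indicator (fun w => (‖w‖ₑ)⁻¹) (z - w)) =
      (Metric.ball z t).indicator (fun w => (‖z - w‖ₑ)⁻¹) := by
    funext w
    by_cases hw : w ∈ Metric.ball z t
    · rw [indicator_of_mem hw, indicator_of_mem]
      rw [Metric.mem_ball, dist_zero_right, ← dist_eq_norm, dist_comm]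
      exact hw
    · rw [indicator_of_notMem hw, indicator_of_notMem]
      rw [Metric.mem_ball, dist_zero_right, ← dist_eq_norm, dist_comm]
      exact hw
  rw [← h2, h, lintegral_indicator Metric.isOpen_ball.measurableSet]
  exact lint_inv_zero t ht

/-- The integral of `1/|z - w|` over any disc of radius `t`. -/
theorem lint_inv (z y : ℂ) (t : ℝ) (ht : 0 < t) :
    ∫⁻ w in Metric.ball y t, (‖z - w‖ₑ)⁻¹ ≤ ENNReal.ofReal (3 * Real.pi * t) := by
  have hm1 : MeasurableSet (Metric.ball z t) := Metric.isOpen_ball.measurableSet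
  have hm2 : MeasurableSet (Metric.ball y t) := Metric.isOpen_ball.measurableSet
  calc ∫⁻ w in Metric.ball y t, (‖z - w‖ₑ)⁻¹
      ≤ ∫⁻ w in Metric.ball y t, ((Metric.ball z t).indicator (fun w => (‖z - w‖ₑ)⁻¹) w +
          ENNReal.ofReal (1 / t)) := by
        apply lintegral_mono
        intro w
        simp only
        by_cases hw : w ∈ Metric.ball z t
        · rw [indicator_of_mem hw]
          exact le_self_add
        · rw [indicator_of_notMem hw, zero_add, one_div, ENNReal.ofReal_inv_of_pos ht]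
          apply ENNReal.inv_le_inv.2
          rw [← ofReal_norm]
          apply ENNReal.ofReal_le_ofReal
          rw [Metric.mem_ball, not_lt, dist_comm, dist_eq_norm] at hw
          exact hw
    _ ≤ ENNReal.ofReal (2 * Real.pi * t) + ENNReal.ofReal (1 / t) * volume (Metric.ball y t) := by
        rw [lintegral_add_right _ measurable_const, setLIntegral_const]
        gcongr
        refine (setLIntegral_le_lintegral _ _).trans ?_
        rw [lintegral_indicator hm1]
        exact lint_inv_center z t ht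
    _ = ENNReal.ofReal (3 * Real.pi * t) := by
        rw [Complex.volume_ball, ← ENNReal.ofReal_coe_nnreal, ← ENNReal.ofReal_pow ht.le,
          ← ENNReal.ofReal_mul (by positivity), ← ENNReal.ofReal_mul (by positivity),
          ← ENNReal.ofReal_add (by positivity) (by positivity)]
        congr 1
        rw [NNReal.coe_real_pi]
        field_simp
        ring

end Pool.Agent.H136R3
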