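import Pool.Agent.H136R3.Prop
import Pool.Agent.H136R3.NoBpd
import Pool.Agent.H136R3.Deriv

set_option autoImplicit false

open Filter Topology Set Metric

namespace Pool.Agent.H136R3

open Deriv in
theorem main50 : ∃ X : Set ℂ, IsCompact X ∧
    (∀ (x : X) (D : C(X, ℂ) → ℂ),
      (∀ f ∈ R X, ∀ g ∈ R X, D (f + g) = D f + D g) →
      (∀ c : ℂ, ∀ f ∈ R X, D (c • f) = c * D f) →
      (∀ f ∈ R X, ∀ g ∈ R X, D (f * g) = f x * D g + g x * D f) →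
      (∃ C : ℝ, ∀ f ∈ R X, ∀ M : ℝ, (∀ z : X, ‖f z‖ ≤ M) → ‖D f‖ ≤ C * M) →
      ∀ f ∈ R X, D f = 0) ∧
    ∃ F : Set X, IsClosed F ∧ ∃ x : X, x ∉ F ∧
      ¬ ∃ f ∈ R X, f x = 1 ∧ ∀ y ∈ F, f y = 0 := by
  classical
  -- parameters
  have hprop : ∀ k m : ℕ, ∃ ε : ℝ, 0 < ε ∧ ∀ h : ℂ → ℂ,
      DifferentiableOn ℂ h (St ((1 / 2) ^ m / 6)) →
      (∀ z ∈ St ((1 / 2) ^ m / 6), ‖h z‖ ≤ 100 * ((k : ℝ) + 1)) →
      (∀ z : ℂ, -1 ≤ z.re → z.re ≤ -1 / 2 → z.im = 1 / 3 → ‖h z‖ ≤ ε) →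
      ‖h ⟨0, 1 / 3⟩‖ ≤ 1 / 4 := fun k m =>
    propagate _ _ (by positivity) (by positivity) (1 / 4) (by norm_num)
  choose e he0 he using hprop
  obtain ⟨P, hP1, hP2⟩ := exists_par (fun k m => min (e k m / 2) (1 / 4) / (960 * ((k : ℝ) + 1)))
    (fun k m => by
      have := he0 k m
      positivity)
  have hX := P.isCompact_XX
  refine ⟨P.XX, hX, ?_, ?_⟩
  · intro x D h1 h2 h3 h4
    exact derivation_eq_zero hX (P.not_N2 hP1 x.2) ⟨h1, h2, h3, h4⟩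
  · -- points of the line are in `XX`
    have hline : ∀ z : ℂ, |z.re| ≤ 1 → z.im = 1 / 3 → z ∈ P.XX := by
      intro z h1 h2
      obtain ⟨h3, h4⟩ := P.mem_XX_of_line h1 h2
      refine ⟨h3.le, fun i => ?_⟩
      have := h4 i
      have := P.rr_le' i.1
      have := P.dl_pos i.1
      linarith
    have hx0 : (⟨0, 1 / 3⟩ : ℂ) ∈ P.XX := hline _ (by simp) rfl
    refine ⟨{z : P.XX | -1 ≤ (z : ℂ).re ∧ (z : ℂ).re ≤ -1 / 2 ∧ (z : ℂ).im = 1 / 3}, ?_,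
      ⟨⟨0, 1 / 3⟩, hx0⟩, ?_, ?_⟩
    · have h1 : Continuous fun z : P.XX => (z : ℂ).re := by fun_prop
      have h2 : Continuous fun z : P.XX => (z : ℂ).im := by fun_prop
      exact (isClosed_le continuous_const h1).inter
        ((isClosed_le h1 continuous_const).inter (isClosed_eq h2 continuous_const))
    · rintro ⟨-, h, -⟩
      simp only at h
      norm_num at h
    · rintro ⟨f, hf, hfx, hfF⟩
      have : CompactSpace P.XX := isCompact_iff_compactSpace.1 hX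
      obtain ⟨k, hk⟩ := exists_nat_gt ‖f‖
      have hk1 : (0 : ℝ) < (k : ℝ) + 1 := by positivity
      set ε := e k (P.m k) with hε
      have hε0 : 0 < ε := he0 k (P.m k)
      have hc : 960 * P.cc (k + 1) * ((k : ℝ) + 1) ≤ min (ε / 2) (1 / 4) := by
        have h1 := hP2 k
        rw [le_div_iff₀ (by positivity)] at h1
        calc _ = P.cc (k + 1) * (960 * ((k : ℝ) + 1)) := by ring
          _ ≤ _ := h1
      obtain ⟨g, hg, hgf⟩ := approx hX hf (ε := min (ε / 2) (1 / 4)) (by positivity)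
      have hmin1 : min (ε / 2) (1 / 4) ≤ ε / 2 := min_le_left _ _
      have hmin2 : min (ε / 2) (1 / 4) ≤ 1 / 4 := min_le_right _ _
      have hgB : ∀ z ∈ P.XX, ‖g z‖ ≤ (k : ℝ) + 1 := by
        intro z hz
        have h1 := hgf ⟨z, hz⟩
        have h2 := f.norm_coe_le_norm ⟨z, hz⟩
        have h3 : g z = (g z - f ⟨z, hz⟩) + f ⟨z, hz⟩ := by ring
        rw [h3]
        refine (norm_add_le _ _).trans ?_
        have h4 : ‖g z - f ⟨z, hz⟩‖ ≤ min (ε / 2) (1 / 4) := h1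
        linarith
      obtain ⟨h, hd, hb, hgh⟩ := P.split k hg hk1.le hgB
      have hsmall : ‖h ⟨0, 1 / 3⟩‖ ≤ 1 / 4 := by
        refine he k (P.m k) h hd hb ?_
        intro z h1 h2 h3
        have habs : |z.re| ≤ 1 := abs_le.2 ⟨h1, by linarith⟩
        have hz := hline z habs h3
        have h4 := hgh z habs h3
        have h5 : ‖g z‖ ≤ ε / 2 := by
          have h6 := hgf ⟨z, hz⟩
          rw [hfF ⟨z, hz⟩ ⟨h1, h2, h3⟩, sub_zero] at h6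
          exact h6.trans hmin1
        have h7 : h z = g z - (g z - h z) := by ring
        rw [h7]
        refine (norm_sub_le _ _).trans ?_
        linarith
      have h1 := hgh ⟨0, 1 / 3⟩ (by simp) rfl
      have h2 := hgf ⟨⟨0, 1 / 3⟩, hx0⟩
      rw [hfx] at h2
      have h3 : (1 : ℂ) = -(g ⟨0, 1 / 3⟩ - 1) + (g ⟨0, 1 / 3⟩ - h ⟨0, 1 / 3⟩) + h ⟨0, 1 / 3⟩ := by ring
      have h4 : (1 : ℝ) ≤ ‖g ⟨0, 1 / 3⟩ - 1‖ + ‖g ⟨0, 1 / 3⟩ - h ⟨0, 1 / 3⟩‖ + ‖h ⟨0, 1 / 3⟩‖ := by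
        calc (1 : ℝ) = ‖(1 : ℂ)‖ := norm_one.symm
          _ = ‖-(g ⟨0, 1 / 3⟩ - 1) + (g ⟨0, 1 / 3⟩ - h ⟨0, 1 / 3⟩) + h ⟨0, 1 / 3⟩‖ := by rw [← h3]
          _ ≤ _ := by
            refine (norm_add_le _ _).trans (add_le_add ?_ le_rfl)
            refine (norm_add_le _ _).trans (add_le_add ?_ le_rfl)
            rw [norm_neg]
      have h5 : ‖g ⟨0, 1 / 3⟩ - 1‖ ≤ min (ε / 2) (1 / 4) := h2
      linarith

end Pool.Agent.H136R3
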