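import Pool.Agent.H136R3.Avg
import Pool.Agent.H136R3.Cauchy

set_option autoImplicit false

open MeasureTheory Filter Topology Set Metric
open scoped NNReal ENNReal Real

namespace Pool.Agent.H136R3

/-- The parameters of the construction. -/
structure Par where
  m : ℕ → ℕ
  s : ℕ → ℕ
  hs : ∀ k, 4 ≤ s k
  hs' : ∀ k, s k < s (k + 1)
  hm : ∀ k, s k + 2 * m k < m (k + 1)

namespace Par

variable (P : Par)

/-- mesh -/
noncomputable def dl (k : ℕ) : ℝ := (1 / 2) ^ P.m k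

/-- weight -/
noncomputable def cc (k : ℕ) : ℝ := (1 / 2) ^ P.s k / Real.sqrt 3

/-- radius -/
noncomputable def rr (k : ℕ) : ℝ := P.cc k * P.dl k ^ 2

/-- centre -/
noncomputable def ctr (i : ℕ × ℤ × ℤ) : ℂ := ((i.2.1 : ℝ) * P.dl i.1 : ℝ) + ((i.2.2 : ℝ) * P.dl i.1 : ℝ) * Complex.I

/-- outer radius -/
noncomputable def R0 : ℝ := 4 / Real.sqrt 3

/-- the compact set -/
def XX : Set ℂ := {z | ‖z‖ ≤ R0 ∧ ∀ i : ℕ × ℤ × ℤ, P.rr i.1 ≤ ‖z - P.ctr i‖}

theorem dl_pos (k : ℕ) : 0 < P.dl k := by unfold dl; positivity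

theorem dl_le (k : ℕ) : P.dl k ≤ 1 := by
  unfold dl
  exact pow_le_one₀ (by norm_num) (by norm_num)

theorem cc_pos (k : ℕ) : 0 < P.cc k := by unfold cc; positivity

theorem cc_le (k : ℕ) : P.cc k ≤ 1 / 25 := by
  unfold cc
  have h1 : (1 / 2 : ℝ) ^ P.s k ≤ (1 / 2) ^ 4 :=
    pow_le_pow_of_le_one (by norm_num) (by norm_num) (P.hs k)
  have h2 : (1.6 : ℝ) ≤ Real.sqrt 3 := by
    apply Real.le_sqrt_of_sq_le; norm_num
  rw [div_le_iff₀ (by positivity)]
  calc (1 / 2 : ℝ) ^ P.s k ≤ (1 / 2) ^ 4 := h1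
    _ ≤ 1 / 25 * 1.6 := by norm_num
    _ ≤ 1 / 25 * Real.sqrt 3 := by gcongr

theorem rr_pos (k : ℕ) : 0 < P.rr k := by
  unfold rr
  have := P.cc_pos k
  have := P.dl_pos k
  positivity

theorem rr_le (k : ℕ) : P.rr k ≤ P.dl k ^ 2 / 25 := by
  unfold rr
  have := P.cc_le k
  have h := sq_nonneg (P.dl k)
  nlinarith

theorem rr_le' (k : ℕ) : P.rr k ≤ P.dl k / 25 := by
  have h1 := P.rr_le k
  have h2 := P.dl_pos k
  have h3 := P.dl_le k
  nlinarith

theorem cc_half (k : ℕ) : P.cc (k + 1) ≤ P.cc k / 2 := by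
  unfold cc
  have h1 : (1 / 2 : ℝ) ^ P.s (k + 1) ≤ (1 / 2) ^ (P.s k + 1) :=
    pow_le_pow_of_le_one (by norm_num) (by norm_num) (P.hs' k)
  rw [pow_succ] at h1
  rw [div_div, div_le_div_iff₀ (by positivity) (by positivity)]
  have h2 : 0 < Real.sqrt 3 := by positivity
  nlinarith

theorem m_lt (k : ℕ) : P.m k < P.m (k + 1) := by
  have := P.hm k
  have := P.hs k
  omega

theorem m_mono : StrictMono P.m := strictMono_nat_of_lt_succ P.m_lt

theorem hm' {j k : ℕ} (h : j < k) : P.s j + 2 * P.m j < P.m k :=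
  (P.hm j).trans_le (P.m_mono.monotone h)

theorem dl_anti {j k : ℕ} (h : j ≤ k) : P.dl k ≤ P.dl j := by
  unfold dl
  exact pow_le_pow_of_le_one (by norm_num) (by norm_num) (P.m_mono.monotone h)

theorem R0_pos : 0 < R0 := by unfold R0; positivity

theorem R0_sq : R0 ^ 2 = 16 / 3 := by
  unfold R0
  rw [div_pow, Real.sq_sqrt (by norm_num)]
  norm_num

theorem R0_lt : R0 < 3 := by
  have h1 := R0_sq
  have h2 := R0_pos
  nlinarith

theorem lt_R0 : 2 < R0 := by
  have h1 := R0_sq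
  have h2 := R0_pos
  nlinarith

/-- arithmetic: no integer is near `4^e/3` -/
theorem int_gap (n : ℤ) (e : ℕ) : (1 / 3 : ℝ) ≤ |(n : ℝ) - 4 ^ e / 3| := by
  have h1 : (3 * n - 4 ^ e : ℤ) ≠ 0 := by
    intro h
    have h2 : (3 : ℤ) ∣ 4 ^ e := ⟨n, by linarith⟩
    have h3 : (3 : ℤ) ∣ 4 := Int.Prime.dvd_pow' (by norm_num) h2
    norm_num at h3
  have h2 : (1 : ℤ) ≤ |3 * n - 4 ^ e| := Int.one_le_abs h1
  have h3 : (1 : ℝ) ≤ |3 * (n : ℝ) - 4 ^ e| := by exact_mod_cast h2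
  have h4 : (n : ℝ) - 4 ^ e / 3 = (3 * (n : ℝ) - 4 ^ e) / 3 := by ring
  rw [h4, abs_div, abs_of_pos (by norm_num : (0:ℝ) < 3)]
  linarith

theorem norm_sq_eq (z : ℂ) : ‖z‖ ^ 2 = z.re ^ 2 + z.im ^ 2 := by
  rw [← Complex.normSq_eq_norm_sq, Complex.normSq_apply]
  ring

/-- squared distances of grid points (stage `j ≤ k`) are integral multiples of `dl k ^ 2`. -/
theorem dist_sq_int {j k : ℕ} (h : j ≤ k) (i i' : ℕ × ℤ × ℤ) (hi : i.1 = k) (hi' : i'.1 = j) :
    ∃ n : ℤ, ‖P.ctr i - P.ctr i'‖ ^ 2 = n * P.dl k ^ 2 := by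
  obtain ⟨d, hd⟩ := Nat.exists_eq_add_of_le (P.m_mono.monotone h)
  refine ⟨(i.2.1 - i'.2.1 * 2 ^ d) ^ 2 + (i.2.2 - i'.2.2 * 2 ^ d) ^ 2, ?_⟩
  have h1 : P.dl j = 2 ^ d * P.dl k := by
    unfold dl
    rw [hd, pow_add]
    have : (1 / 2 : ℝ) ^ d * 2 ^ d = 1 := by
      rw [← mul_pow]; norm_num
    calc (1 / 2 : ℝ) ^ P.m j = (1 / 2) ^ P.m j * ((1 / 2 : ℝ) ^ d * 2 ^ d) := by
          rw [this, mul_one]
      _ = _ := by ring
  rw [norm_sq_eq]
  unfold ctr
  simp only [Complex.sub_re, Complex.add_re, Complex.ofReal_re, Complex.mul_re, Complex.I_re,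
    mul_zero, Complex.ofReal_im, Complex.I_im, mul_one, sub_self, add_zero, Complex.sub_im,
    Complex.add_im, Complex.mul_im, zero_add]
  rw [hi, hi', h1]
  push_cast
  ring

theorem rr_sq {j k : ℕ} (h : j < k) : ∃ e : ℕ, P.rr j ^ 2 = 4 ^ e / 3 * P.dl k ^ 2 := by
  have h1 := P.hm' h
  obtain ⟨e, he⟩ := Nat.exists_eq_add_of_le h1.le
  refine ⟨e, ?_⟩
  have h2 : P.rr j ^ 2 = ((1 / 2) ^ (P.s j + 2 * P.m j)) ^ 2 / 3 := by
    unfold rr cc dl
    rw [mul_pow, div_pow, Real.sq_sqrt (by norm_num), pow_add, mul_pow, ← pow_mul (1 / 2 : ℝ) (P.m j) 2,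
      mul_comm (P.m j) 2]
    ring
  have h3 : P.dl k ^ 2 = ((1 / 2) ^ (P.s j + 2 * P.m j)) ^ 2 * ((1 / 2) ^ e) ^ 2 := by
    unfold dl
    rw [he, pow_add, mul_pow]
  have h4 : (4 : ℝ) ^ e * ((1 / 2) ^ e) ^ 2 = 1 := by
    rw [← pow_mul, mul_comm e 2, pow_mul, ← mul_pow]; norm_num
  rw [h2, h3]
  calc ((1 / 2 : ℝ) ^ (P.s j + 2 * P.m j)) ^ 2 / 3
      = ((1 / 2 : ℝ) ^ (P.s j + 2 * P.m j)) ^ 2 / 3 * ((4 : ℝ) ^ e * ((1 / 2) ^ e) ^ 2) := by
        rw [h4, mul_one]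
    _ = _ := by ring

theorem R0_sq' (k : ℕ) : R0 ^ 2 = 4 ^ (P.m k + 2) / 3 * P.dl k ^ 2 := by
  rw [R0_sq]
  unfold dl
  have h4 : (4 : ℝ) ^ (P.m k) * ((1 / 2) ^ (P.m k)) ^ 2 = 1 := by
    rw [← pow_mul, mul_comm (P.m k) 2, pow_mul, ← mul_pow]; norm_num
  rw [pow_add]
  linear_combination (-16 / 3 : ℝ) * h4

/-- the gap between a grid point and an earlier circle -/
theorem gap {j k : ℕ} (h : j < k) (i i' : ℕ × ℤ × ℤ) (hi : i.1 = k) (hi' : i'.1 = j) :
    P.dl k ^ 2 / 3 ≤ |‖P.ctr i - P.ctr i'‖ ^ 2 - P.rr j ^ 2| := by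
  obtain ⟨n, hn⟩ := P.dist_sq_int h.le i i' hi hi'
  obtain ⟨e, he⟩ := P.rr_sq h
  rw [hn, he, ← sub_mul, abs_mul, abs_of_nonneg (sq_nonneg (P.dl k))]
  have := int_gap n e
  have h2 := sq_nonneg (P.dl k)
  nlinarith

/-- the gap between a grid point and the outer circle -/
theorem gap0 (i : ℕ × ℤ × ℤ) : P.dl i.1 ^ 2 / 3 ≤ |‖P.ctr i‖ ^ 2 - R0 ^ 2| := by
  obtain ⟨n, hn⟩ := P.dist_sq_int (le_refl i.1) i (i.1, 0, 0) rfl rfl
  have h0 : P.ctr (i.1, 0, 0) = 0 := by simp [ctr]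
  rw [h0, sub_zero] at hn
  rw [hn, P.R0_sq' i.1, ← sub_mul, abs_mul, abs_of_nonneg (sq_nonneg (P.dl i.1))]
  have := int_gap n (P.m i.1 + 2)
  have h2 := sq_nonneg (P.dl i.1)
  nlinarith

/-- a quantitative dichotomy -/
theorem dich {x ρ t : ℝ} (hx : 0 ≤ x) (hρ : 0 ≤ ρ) (hρ3 : ρ ≤ 3) (ht0 : 0 < t) (ht1 : t ≤ 1)
    (h : t / 3 ≤ |x ^ 2 - ρ ^ 2|) : x + t / 22 < ρ ∨ ρ + t / 22 < x := by
  by_contra hcon
  push Not at hcon
  obtain ⟨h1, h2⟩ := hcon
  have h3 : |x ^ 2 - ρ ^ 2| < t / 3 := by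
    rw [abs_lt]
    constructor <;> nlinarith
  linarith

theorem rr_lt (k : ℕ) : P.rr k < P.dl k ^ 2 / 22 := by
  have h1 := P.rr_le k
  have h2 := P.dl_pos k
  have : 0 < P.dl k ^ 2 := by positivity
  linarith

theorem dl_sq_le (k : ℕ) : P.dl k ^ 2 ≤ 1 := pow_le_one₀ (P.dl_pos k).le (P.dl_le k)

theorem rr_le_one (k : ℕ) : P.rr k ≤ 1 / 25 := by
  have := P.rr_le k
  have := P.dl_sq_le k
  linarith

/-- dichotomy for two stages -/
theorem dich_stage {j k : ℕ} (h : j < k) (i i' : ℕ × ℤ × ℤ) (hi : i.1 = k) (hi' : i'.1 = j) :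
    ‖P.ctr i - P.ctr i'‖ + P.dl k ^ 2 / 22 < P.rr j ∨
      P.rr j + P.dl k ^ 2 / 22 < ‖P.ctr i - P.ctr i'‖ :=
  dich (norm_nonneg _) (P.rr_pos j).le (by have := P.rr_le_one j; linarith)
    (by have := P.dl_pos k; positivity) (P.dl_sq_le k) (P.gap h i i' hi hi')

theorem dich_outer (i : ℕ × ℤ × ℤ) :
    ‖P.ctr i‖ + P.dl i.1 ^ 2 / 22 < R0 ∨ R0 + P.dl i.1 ^ 2 / 22 < ‖P.ctr i‖ :=
  dich (norm_nonneg _) R0_pos.le R0_lt.le (by have := P.dl_pos i.1; positivity)
    (P.dl_sq_le i.1) (P.gap0 i)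

/-- same stage separation -/
theorem sep_stage {i i' : ℕ × ℤ × ℤ} (h : i.1 = i'.1) (hne : i ≠ i') :
    P.dl i.1 ≤ ‖P.ctr i - P.ctr i'‖ := by
  obtain ⟨k, u, v⟩ := i
  obtain ⟨k', u', v'⟩ := i'
  simp only at h
  subst h
  have h1 : P.ctr (k, u, v) - P.ctr (k, u', v') =
      (((u - u' : ℤ) : ℝ) * P.dl k : ℝ) + (((v - v' : ℤ) : ℝ) * P.dl k : ℝ) * Complex.I := by
    unfold ctr
    push_cast
    ring
  rw [h1]
  have hd := P.dl_pos k
  by_cases hu : u = u'
  · have hv : v ≠ v' := by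
      rintro rfl
      apply hne
      rw [hu]
    have h2 : (1 : ℝ) ≤ |((v - v' : ℤ) : ℝ)| := by
      have : (1 : ℤ) ≤ |v - v'| := Int.one_le_abs (sub_ne_zero.2 hv)
      exact_mod_cast this
    have h3 := Complex.abs_im_le_norm
      ((((u - u' : ℤ) : ℝ) * P.dl k : ℝ) + (((v - v' : ℤ) : ℝ) * P.dl k : ℝ) * Complex.I : ℂ)
    simp only [Complex.add_im, Complex.ofReal_im, Complex.mul_im, Complex.ofReal_re,
      Complex.I_im, mul_one, Complex.I_re, mul_zero, add_zero, zero_add] at h3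
    rw [abs_mul, abs_of_pos hd] at h3
    calc P.dl k = 1 * P.dl k := (one_mul _).symm
      _ ≤ |((v - v' : ℤ) : ℝ)| * P.dl k := by gcongr
      _ ≤ _ := h3
  · have h2 : (1 : ℝ) ≤ |((u - u' : ℤ) : ℝ)| := by
      have : (1 : ℤ) ≤ |u - u'| := Int.one_le_abs (sub_ne_zero.2 hu)
      exact_mod_cast this
    have h3 := Complex.abs_re_le_norm
      ((((u - u' : ℤ) : ℝ) * P.dl k : ℝ) + (((v - v' : ℤ) : ℝ) * P.dl k : ℝ) * Complex.I : ℂ)
    simp only [Complex.add_re, Complex.ofReal_im, Complex.mul_re, Complex.ofReal_re,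
      Complex.I_im, mul_one, Complex.I_re, mul_zero, add_zero, sub_self] at h3
    rw [abs_mul, abs_of_pos hd] at h3
    calc P.dl k = 1 * P.dl k := (one_mul _).symm
      _ ≤ |((u - u' : ℤ) : ℝ)| * P.dl k := by gcongr
      _ ≤ _ := h3

/-- a hole of stage `i.1` is maximal: its centre is in the big disc and in no earlier hole -/
def Good (i : ℕ × ℤ × ℤ) : Prop :=
  ‖P.ctr i‖ < R0 ∧ ∀ i' : ℕ × ℤ × ℤ, i'.1 < i.1 → P.rr i'.1 ≤ ‖P.ctr i - P.ctr i'‖

/-- Every point off `XX` in the closed disc is in a maximal hole. -/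
theorem exists_good {b : ℂ} (hb : b ∉ P.XX) (hb' : ‖b‖ ≤ R0) :
    ∃ i, P.Good i ∧ b ∈ ball (P.ctr i) (P.rr i.1) := by
  have h1 : ∃ k : ℕ, ∃ i : ℕ × ℤ × ℤ, i.1 = k ∧ ‖b - P.ctr i‖ < P.rr i.1 := by
    by_contra hcon
    push Not at hcon
    exact hb ⟨hb', fun i => hcon i.1 i rfl⟩
  classical
  obtain ⟨i, hi, hbi⟩ := Nat.find_spec h1
  have hmin := fun k (hk : k < Nat.find h1) => Nat.find_min h1 hk
  refine ⟨i, ⟨?_, ?_⟩, ?_⟩
  · rcases P.dich_outer i with h | h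
    · have := P.dl_pos i.1
      have : 0 < P.dl i.1 ^ 2 := by positivity
      linarith
    · exfalso
      have h2 := P.rr_lt i.1
      have h3 : ‖P.ctr i‖ ≤ ‖b‖ + ‖b - P.ctr i‖ := by
        have : P.ctr i = b - (b - P.ctr i) := by ring
        conv_lhs => rw [this]
        exact norm_sub_le _ _
      linarith
  · intro i' hi'
    rcases P.dich_stage hi' i i' rfl rfl with h | h
    · exfalso
      apply hmin i'.1 (hi ▸ hi')
      refine ⟨i', rfl, ?_⟩
      have h2 := P.rr_lt i.1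
      have h3 : ‖b - P.ctr i'‖ ≤ ‖b - P.ctr i‖ + ‖P.ctr i - P.ctr i'‖ := by
        have : b - P.ctr i' = (b - P.ctr i) + (P.ctr i - P.ctr i') := by ring
        rw [this]; exact norm_add_le _ _
      linarith
    · have := P.dl_pos i.1
      have : 0 < P.dl i.1 ^ 2 := by positivity
      linarith
  · rw [mem_ball, dist_eq_norm]
    exact hbi

/-- Maximal holes form a configuration. -/
theorem config (S : Finset (ℕ × ℤ × ℤ)) (hS : ∀ i ∈ S, P.Good i) :
    Config (0 : ℂ) R0 S P.ctr (fun i => P.rr i.1) := by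
  refine ⟨R0_pos, fun i _ => P.rr_pos i.1, ?_, ?_⟩
  · intro i hi z hz
    rw [mem_closedBall, dist_eq_norm] at hz
    rw [mem_ball, dist_zero_right]
    rcases P.dich_outer i with h | h
    · have h2 := P.rr_lt i.1
      have h3 : ‖z‖ ≤ ‖z - P.ctr i‖ + ‖P.ctr i‖ := by
        have : z = (z - P.ctr i) + P.ctr i := by ring
        conv_lhs => rw [this]
        exact norm_add_le _ _
      linarith
    · have := (hS i hi).1
      have h4 : 0 < P.dl i.1 ^ 2 := by have := P.dl_pos i.1; positivity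
      linarith
  · have key : ∀ i ∈ S, ∀ j ∈ S, i ≠ j → j.1 ≤ i.1 →
        Disjoint (closedBall (P.ctr i) (P.rr i.1)) (closedBall (P.ctr j) (P.rr j.1)) := by
      intro i hi j hj hij hle
      rw [Set.disjoint_left]
      intro z hz hz'
      rw [mem_closedBall, dist_eq_norm] at hz hz'
      have h3 : ‖P.ctr i - P.ctr j‖ ≤ ‖z - P.ctr j‖ + ‖z - P.ctr i‖ := by
        have : P.ctr i - P.ctr j = (z - P.ctr j) - (z - P.ctr i) := by ring
        rw [this]; exact norm_sub_le _ _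
      rcases hle.lt_or_eq with h | h
      · rcases P.dich_stage h i j rfl rfl with h1 | h1
        · have := (hS i hi).2 j h
          have h4 : 0 < P.dl i.1 ^ 2 := by have := P.dl_pos i.1; positivity
          linarith
        · have := P.rr_lt i.1
          linarith
      · have h1 := P.sep_stage h.symm hij
        rw [h] at hz'
        have h2 := P.rr_le' i.1
        have h4 := P.dl_pos i.1
        linarith
    intro i hi j hj hij
    rcases le_total j.1 i.1 with h | h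
    · exact key i hi j hj hij h
    · exact (key j hj i hi hij.symm h).symm

/-- circles of maximal holes lie in `XX` -/
theorem sphere_sub {i : ℕ × ℤ × ℤ} (hi : P.Good i) : sphere (P.ctr i) (P.rr i.1) ⊆ P.XX := by
  intro z hz
  rw [mem_sphere, dist_eq_norm] at hz
  have hr := P.rr_pos i.1
  refine ⟨?_, fun j => ?_⟩
  · rcases P.dich_outer i with h | h
    · have h2 := P.rr_lt i.1
      have h3 : ‖z‖ ≤ ‖z - P.ctr i‖ + ‖P.ctr i‖ := by
        have : z = (z - P.ctr i) + P.ctr i := by ring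
        conv_lhs => rw [this]
        exact norm_add_le _ _
      linarith
    · have := hi.1
      have h4 : 0 < P.dl i.1 ^ 2 := by have := P.dl_pos i.1; positivity
      linarith
  · by_contra hlt
    push Not at hlt
    have h3 : ‖P.ctr i - P.ctr j‖ ≤ ‖z - P.ctr j‖ + ‖z - P.ctr i‖ := by
      have : P.ctr i - P.ctr j = (z - P.ctr j) - (z - P.ctr i) := by ring
      rw [this]; exact norm_sub_le _ _
    rcases lt_trichotomy j.1 i.1 with h | h | h
    · rcases P.dich_stage h i j rfl rfl with h1 | h1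
      · have := hi.2 j h
        have h4 : 0 < P.dl i.1 ^ 2 := by have := P.dl_pos i.1; positivity
        linarith
      · have := P.rr_lt i.1
        linarith
    · by_cases hij : i = j
      · subst hij; linarith
      · have h1 := P.sep_stage h.symm hij
        rw [h] at hlt
        have h2 := P.rr_le' i.1
        have h4 := P.dl_pos i.1
        linarith
    · -- a later hole
      have h5 : ‖P.ctr j - P.ctr i‖ = ‖P.ctr i - P.ctr j‖ := norm_sub_rev _ _
      have h6 : ‖z - P.ctr i‖ ≤ ‖z - P.ctr j‖ + ‖P.ctr j - P.ctr i‖ := by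
        have : z - P.ctr i = (z - P.ctr j) + (P.ctr j - P.ctr i) := by ring
        rw [this]; exact norm_add_le _ _
      have h7 := P.rr_lt j.1
      rcases P.dich_stage h j i rfl rfl with h1 | h1
      · linarith
      · linarith

theorem sphere0_sub : sphere (0 : ℂ) R0 ⊆ P.XX := by
  intro z hz
  rw [mem_sphere, dist_zero_right] at hz
  refine ⟨hz.le, fun j => ?_⟩
  by_contra hlt
  push Not at hlt
  have h7 := P.rr_lt j.1
  rcases P.dich_outer j with h | h
  · have h3 : ‖z‖ ≤ ‖z - P.ctr j‖ + ‖P.ctr j‖ := by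
      have : z = (z - P.ctr j) + P.ctr j := by ring
      conv_lhs => rw [this]
      exact norm_add_le _ _
    linarith
  · have h3 : ‖P.ctr j‖ ≤ ‖z‖ + ‖z - P.ctr j‖ := by
      have : P.ctr j = z - (z - P.ctr j) := by ring
      conv_lhs => rw [this]
      exact norm_sub_le _ _
    linarith

theorem isClosed_XX : IsClosed P.XX := by
  have h1 : P.XX = {z : ℂ | ‖z‖ ≤ R0} ∩ ⋂ i : ℕ × ℤ × ℤ, {z : ℂ | P.rr i.1 ≤ ‖z - P.ctr i‖} := by
    ext z; simp [XX]
  rw [h1]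
  refine (isClosed_le continuous_norm continuous_const).inter
    (isClosed_iInter fun i => isClosed_le continuous_const (by fun_prop))

theorem isCompact_XX : IsCompact P.XX := by
  refine (isCompact_closedBall (0 : ℂ) R0).of_isClosed_subset P.isClosed_XX ?_
  intro z hz
  rw [mem_closedBall, dist_zero_right]
  exact hz.1

end Par

/-- The sum of `1/|z - a|` over a separated set. -/
theorem sum_inv_le {ι : Type*} (A : Finset ι) (a : ι → ℂ) {z y : ℂ} {d T : ℝ} (hd : 0 < d)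
    (hd1 : d ≤ 1) (hT : 0 < T) (hsep : ∀ i ∈ A, ∀ j ∈ A, i ≠ j → d ≤ ‖a i - a j‖)
    (hin : ∀ i ∈ A, ‖a i - y‖ ≤ T) (hz : ∀ i ∈ A, d / 8 ≤ ‖z - a i‖) :
    ∑ i ∈ A, ‖z - a i‖⁻¹ ≤ 60 * (T + 1) / d ^ 2 := by
  have hdisj : Set.PairwiseDisjoint (↑A : Set ι) fun i => ball (a i) (d / 2) := by
    intro i hi j hj hij
    rw [Function.onFun, Set.disjoint_left]
    intro w hw hw'
    have h1 := hsep i hi j hj hij
    rw [mem_ball, dist_eq_norm] at hw hw'
    have h3 : ‖a i - a j‖ ≤ ‖w - a j‖ + ‖w - a i‖ := by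
      have : a i - a j = (w - a j) - (w - a i) := by ring
      rw [this]; exact norm_sub_le _ _
    linarith
  have h1 : ∑ i ∈ A, ENNReal.ofReal (‖z - a i‖⁻¹ * (Real.pi * d ^ 2 / 20)) ≤
      ENNReal.ofReal (3 * Real.pi * (T + 1)) := by
    calc ∑ i ∈ A, ENNReal.ofReal (‖z - a i‖⁻¹ * (Real.pi * d ^ 2 / 20))
        ≤ ∑ i ∈ A, ∫⁻ w in ball (a i) (d / 2), (‖z - w‖ₑ)⁻¹ := by
          refine Finset.sum_le_sum fun i hi => ?_
          have hpos : 0 < ‖z - a i‖ := by have := hz i hi; linarith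
          have h2 : ∀ w ∈ ball (a i) (d / 2), ENNReal.ofReal ((5 * ‖z - a i‖)⁻¹) ≤ (‖z - w‖ₑ)⁻¹ := by
            intro w hw
            rw [ENNReal.ofReal_inv_of_pos (by positivity)]
            apply ENNReal.inv_le_inv.2
            rw [← ofReal_norm]
            apply ENNReal.ofReal_le_ofReal
            rw [mem_ball, dist_eq_norm] at hw
            have h3 : ‖z - w‖ ≤ ‖z - a i‖ + ‖w - a i‖ := by
              have : z - w = (z - a i) - (w - a i) := by ring
              rw [this]; exact norm_sub_le _ _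
            have := hz i hi
            linarith
          calc ENNReal.ofReal (‖z - a i‖⁻¹ * (Real.pi * d ^ 2 / 20))
              = ENNReal.ofReal ((5 * ‖z - a i‖)⁻¹) * volume (ball (a i) (d / 2)) := by
                rw [Complex.volume_ball, ← ENNReal.ofReal_coe_nnreal,
                  ← ENNReal.ofReal_pow (by positivity), NNReal.coe_real_pi,
                  ← ENNReal.ofReal_mul (by positivity), ← ENNReal.ofReal_mul (by positivity)]
                congr 1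
                field_simp
                ring
            _ = ∫⁻ _w in ball (a i) (d / 2), ENNReal.ofReal ((5 * ‖z - a i‖)⁻¹) := by
                rw [setLIntegral_const]
            _ ≤ _ := setLIntegral_mono' isOpen_ball.measurableSet h2
      _ = ∫⁻ w in ⋃ i ∈ A, ball (a i) (d / 2), (‖z - w‖ₑ)⁻¹ := by
          rw [lintegral_biUnion_finset hdisj (fun i _ => isOpen_ball.measurableSet)]
      _ ≤ ∫⁻ w in ball y (T + 1), (‖z - w‖ₑ)⁻¹ := by
          apply lintegral_mono_set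
          intro w hw
          obtain ⟨i, hi, hw⟩ := mem_iUnion₂.1 hw
          rw [mem_ball, dist_eq_norm] at hw ⊢
          have h3 : ‖w - y‖ ≤ ‖w - a i‖ + ‖a i - y‖ := by
            have : w - y = (w - a i) + (a i - y) := by ring
            rw [this]; exact norm_add_le _ _
          have := hin i hi
          linarith
      _ ≤ _ := lint_inv _ _ _ (by linarith)
  rw [← ENNReal.ofReal_sum_of_nonneg (fun i _ => by positivity), ← Finset.sum_mul,
    ENNReal.ofReal_le_ofReal_iff (by positivity)] at h1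
  have h2 : 0 < Real.pi * d ^ 2 / 20 := by positivity
  rw [← le_div_iff₀ h2] at h1
  refine h1.trans (le_of_eq ?_)
  field_simp
  ring

end Pool.Agent.H136R3
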