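import Pool.Agent.H136R3.Avg
import Pool.Agent.H136R3.Deriv

set_option autoImplicit false

open MeasureTheory Filter Topology Set Metric
open scoped NNReal ENNReal

namespace Pool.Agent.H136R3

/-- The potential of the measure at `w`, weighted. -/
noncomputable def pot0 {X : Set ℂ} (μ : Measure X) (x w : ℂ) : ℝ≥0∞ :=
  ‖w - x‖ₑ * ∫⁻ z : X, (‖(z : ℂ) - w‖ₑ)⁻¹ ∂μ

theorem close_of_pot0 {X : Set ℂ} (hX : IsCompact X) {x w : ℂ} (hx : x ∈ X) (hwx : w ≠ x)
    {μ : Measure X} [IsFiniteMeasure μ] (hμ : ∀ f ∈ QX X, ‖f x‖ ≤ ∫ z : X, ‖f z‖ ∂μ)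
    {q : ℝ} (hq0 : 0 ≤ q) (hq : pot0 μ x w ≤ ENNReal.ofReal q) (hq1 : q < 1) :
    w ∈ X ∧ Cl X (2 * q) x w := by
  have : CompactSpace X := isCompact_iff_compactSpace.1 hX
  have hwx' : ‖w - x‖ₑ ≠ 0 := by
    rw [enorm_ne_zero, sub_ne_zero]; exact hwx
  set I : ℝ≥0∞ := ∫⁻ z : X, (‖(z : ℂ) - w‖ₑ)⁻¹ ∂μ with hI
  have hIt : I ≠ ⊤ := by
    intro h
    have : pot0 μ x w = ⊤ := by
      unfold pot0
      rw [← hI, h, ENNReal.mul_top hwx']
    rw [this] at hq
    exact absurd (top_le_iff.1 hq) ENNReal.ofReal_ne_top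
  have hmeas : Measurable fun z : X => (‖(z : ℂ) - w‖ₑ)⁻¹ := by fun_prop
  have hae : ∀ᵐ z : X ∂μ, (z : ℂ) ≠ w := by
    have h1 := ae_lt_top hmeas hIt
    filter_upwards [h1] with z hz hzw
    rw [hzw, sub_self, enorm_zero, ENNReal.inv_zero] at hz
    exact lt_irrefl _ hz
  have hk : ∀ᵐ z : X ∂μ, ‖((z : ℂ) - w)⁻¹‖ₑ = (‖(z : ℂ) - w‖ₑ)⁻¹ := by
    filter_upwards [hae] with z hz
    rw [enorm_inv (sub_ne_zero.2 hz)]
  have hkint : Integrable (fun z : X => ((z : ℂ) - w)⁻¹) μ := by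
    refine ⟨(by fun_prop : Measurable fun z : X => ((z : ℂ) - w)⁻¹).aestronglyMeasurable, ?_⟩
    rw [hasFiniteIntegral_iff_enorm, lintegral_congr_ae hk]
    exact lt_top_iff_ne_top.2 hIt
  have hkval : ‖w - x‖ * ∫ z : X, ‖((z : ℂ) - w)⁻¹‖ ∂μ ≤ q := by
    have h1 : ENNReal.ofReal (‖w - x‖ * ∫ z : X, ‖((z : ℂ) - w)⁻¹‖ ∂μ) = pot0 μ x w := by
      rw [ENNReal.ofReal_mul (norm_nonneg _), ofReal_norm, pot0,
        ofReal_integral_norm_eq_lintegral_enorm hkint, lintegral_congr_ae hk]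
    rw [← h1] at hq
    exact (ENNReal.ofReal_le_ofReal_iff hq0).1 hq
  have hkint' : Integrable (fun z : X => ‖((z : ℂ) - w)⁻¹‖) μ := hkint.norm
  have key : ∀ H ∈ QX X, ∀ c : ℝ,
      (∀ z ∈ X, z ≠ w → ‖H z‖ ≤ c * (‖w - x‖ * ‖(z - w)⁻¹‖)) → 0 ≤ c → ‖H x‖ ≤ c * q := by
    intro H hH c hc hc0
    refine (hμ H hH).trans ?_
    calc ∫ z : X, ‖H z‖ ∂μ
        ≤ ∫ z : X, c * (‖w - x‖ * ‖((z : ℂ) - w)⁻¹‖) ∂μ := by
          apply integral_mono_ae
          · have hcont : Continuous fun z : X => ‖H z‖ := (QX.continuousOn hH).domRestrict.norm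
            exact (BoundedContinuousFunction.mkOfCompact ⟨_, hcont⟩).integrable _
          · exact (hkint'.const_mul _).const_mul _
          · filter_upwards [hae] with z hz
            exact hc z z.2 hz
      _ = c * (‖w - x‖ * ∫ z : X, ‖((z : ℂ) - w)⁻¹‖ ∂μ) := by
          rw [integral_const_mul, integral_const_mul]
      _ ≤ c * q := mul_le_mul_of_nonneg_left hkval hc0
  have hwX : w ∈ X := by
    by_contra hw
    have hH : (fun z : ℂ => (w - x) * (z - w)⁻¹) ∈ QX X :=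
      mul_mem (QX.const_mem X (w - x)) (QX.inv_mem hw)
    have h1 := key _ hH 1 (by
      intro z _ _
      rw [norm_mul, one_mul]) zero_le_one
    have h2 : ‖(w - x) * (x - w)⁻¹‖ = 1 := by
      rw [norm_mul, norm_inv, norm_sub_rev x w, mul_inv_cancel₀]
      exact norm_ne_zero_iff.2 (sub_ne_zero.2 hwx)
    rw [h2] at h1
    linarith
  refine ⟨hwX, ?_⟩
  intro f hf M hM
  have hM0 : 0 ≤ M := (norm_nonneg _).trans (hM x hx)
  obtain ⟨h, hh, hfh⟩ := QX.exists_div hf hwX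
  have hH : (fun z : ℂ => (x - w) * h z) ∈ QX X := mul_mem (QX.const_mem X (x - w)) hh
  have h1 := key _ hH (2 * M) (by
    intro z hz hzw
    have hne : z - w ≠ 0 := sub_ne_zero.2 hzw
    have h2 : (x - w) * h z = (f z - f w) * ((x - w) * (z - w)⁻¹) := by
      rw [hfh z hz]
      field_simp
    rw [h2, norm_mul, norm_mul, norm_sub_rev x w]
    refine mul_le_mul_of_nonneg_right ?_ (by positivity)
    refine (norm_sub_le _ _).trans ?_
    have := hM z hz
    have := hM w hwX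
    linarith) (by linarith)
  rw [← hfh x hx] at h1
  linarith

theorem lintegral_pot0_le {X : Set ℂ} (μ : Measure X) [IsFiniteMeasure μ] {x : ℂ} {t ρ : ℝ}
    (ht : 0 < t) (hρ : 2 * t ≤ ρ) :
    ∫⁻ w in ball x t, pot0 μ x w ≤ ENNReal.ofReal (3 * Real.pi * t ^ 2) *
      μ {z : X | ‖(z : ℂ) - x‖ < ρ} + ENNReal.ofReal (2 * Real.pi * t ^ 3 / ρ) * μ univ := by
  have hB : MeasurableSet (ball x t) := isOpen_ball.measurableSet
  have hρ0 : 0 < ρ := by linarith
  have hmeas2 : Measurable fun w : ℂ => ∫⁻ z : X, (‖(z : ℂ) - w‖ₑ)⁻¹ ∂μ :=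
    (measurable_kernel X).lintegral_prod_right'
  have hS : MeasurableSet {z : X | ‖(z : ℂ) - x‖ < ρ} :=
    measurableSet_lt (by fun_prop) measurable_const
  have hv : volume (ball x t) = ENNReal.ofReal (Real.pi * t ^ 2) := by
    rw [Complex.volume_ball, ← ENNReal.ofReal_coe_nnreal, ← ENNReal.ofReal_pow ht.le,
      NNReal.coe_real_pi, ← ENNReal.ofReal_mul (by positivity), mul_comm]
  have hinner : ∀ z : X, (∫⁻ w : ℂ in ball x t, (‖(z : ℂ) - w‖ₑ)⁻¹) ≤
      {z : X | ‖(z : ℂ) - x‖ < ρ}.indicator (fun _ => ENNReal.ofReal (3 * Real.pi * t)) z +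
        ENNReal.ofReal (2 * Real.pi * t ^ 2 / ρ) := by
    intro z
    by_cases hz : ‖(z : ℂ) - x‖ < ρ
    · rw [indicator_of_mem (by exact hz)]
      exact (lint_inv _ _ _ ht).trans le_self_add
    · rw [indicator_of_notMem (by exact hz), zero_add]
      rw [not_lt] at hz
      calc ∫⁻ w : ℂ in ball x t, (‖(z : ℂ) - w‖ₑ)⁻¹
          ≤ ∫⁻ _w : ℂ in ball x t, ENNReal.ofReal (2 / ρ) := by
            refine setLIntegral_mono' hB fun w hw => ?_
            rw [mem_ball, dist_eq_norm] at hw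
            have h1 : ρ / 2 ≤ ‖(z : ℂ) - w‖ := by
              have h2 : ‖(z : ℂ) - x‖ ≤ ‖(z : ℂ) - w‖ + ‖w - x‖ := by
                have : (z : ℂ) - x = ((z : ℂ) - w) + (w - x) := by ring
                rw [this]; exact norm_add_le _ _
              linarith
            have h3 : (2 / ρ) = (ρ / 2)⁻¹ := by rw [inv_div]
            rw [h3, ENNReal.ofReal_inv_of_pos (by positivity)]
            apply ENNReal.inv_le_inv.2
            rw [← ofReal_norm]
            exact ENNReal.ofReal_le_ofReal h1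
        _ = ENNReal.ofReal (2 * Real.pi * t ^ 2 / ρ) := by
            rw [setLIntegral_const, hv, ← ENNReal.ofReal_mul (by positivity)]
            congr 1
            ring
  calc ∫⁻ w in ball x t, pot0 μ x w
      ≤ ∫⁻ w in ball x t, ENNReal.ofReal t * ∫⁻ z : X, (‖(z : ℂ) - w‖ₑ)⁻¹ ∂μ := by
        refine setLIntegral_mono' hB fun w hw => ?_
        unfold pot0
        gcongr
        rw [← ofReal_norm]
        apply ENNReal.ofReal_le_ofReal
        rw [mem_ball, dist_eq_norm] at hw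
        exact hw.le
    _ = ENNReal.ofReal t * ∫⁻ z : X, (∫⁻ w : ℂ in ball x t, (‖(z : ℂ) - w‖ₑ)⁻¹) ∂μ := by
        rw [lintegral_const_mul _ hmeas2,
          lintegral_lintegral_swap (measurable_kernel X).aemeasurable]
    _ ≤ ENNReal.ofReal t * ∫⁻ z : X, ({z : X | ‖(z : ℂ) - x‖ < ρ}.indicator
          (fun _ => ENNReal.ofReal (3 * Real.pi * t)) z +
            ENNReal.ofReal (2 * Real.pi * t ^ 2 / ρ)) ∂μ := by
        gcongr with z
        exact hinner z
    _ = _ := by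
        rw [lintegral_add_right _ measurable_const, lintegral_indicator_const hS,
          lintegral_const, mul_add, ← mul_assoc, ← mul_assoc,
          ← ENNReal.ofReal_mul ht.le, ← ENNReal.ofReal_mul ht.le]
        congr 3 <;> ring

/-- A dominating measure without mass at `x` gives many points near `x` with close evaluations. -/
theorem exists_close_of_measure {X : Set ℂ} (hX : IsCompact X) {x : X}
    {μ : Measure X} [IsFiniteMeasure μ] (hμ : ∀ f ∈ QX X, ‖f x‖ ≤ ∫ z : X, ‖f z‖ ∂μ)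
    (hx0 : μ {x} = 0) {q : ℝ} (hq0 : 0 < q) (hq1 : q < 1) {N : Set ℂ} (hN : volume N = 0) :
    ∃ w : ℂ, w ∈ X ∧ w ∉ N ∧ w ≠ x ∧ Cl X (2 * q) x w := by
  -- small mass near `x`
  obtain ⟨ρ, hρ, hmass⟩ : ∃ ρ : ℝ, 0 < ρ ∧
      μ {z : X | ‖(z : ℂ) - x‖ < ρ} ≤ ENNReal.ofReal (q / 12) := by
    have hanti : Antitone fun n : ℕ => {z : X | ‖(z : ℂ) - x‖ < 1 / ((n : ℝ) + 1)} := by
      intro m n hmn z hz
      have h1 : ‖(z : ℂ) - x‖ < 1 / ((n : ℝ) + 1) := hz
      have h2 : 1 / ((n : ℝ) + 1) ≤ 1 / ((m : ℝ) + 1) := by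
        have : (m : ℝ) ≤ n := by exact_mod_cast hmn
        gcongr
      exact h1.trans_le h2
    have hinter : ⋂ n : ℕ, {z : X | ‖(z : ℂ) - x‖ < 1 / ((n : ℝ) + 1)} = {x} := by
      ext z
      simp only [mem_iInter, mem_singleton_iff]
      constructor
      · intro h
        have h1 : ‖(z : ℂ) - x‖ ≤ 0 := by
          refine ge_of_tendsto' tendsto_one_div_add_atTop_nhds_zero_nat fun n => ?_
          exact (h n : ‖(z : ℂ) - x‖ < 1 / ((n : ℝ) + 1)).le
        have h2 := norm_le_zero_iff.1 h1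
        exact Subtype.ext (sub_eq_zero.1 h2)
      · rintro rfl n
        change ‖(z : ℂ) - z‖ < 1 / ((n : ℝ) + 1)
        rw [sub_self, norm_zero]
        positivity
    have hlim := tendsto_measure_iInter_atTop (μ := μ)
      (s := fun n : ℕ => {z : X | ‖(z : ℂ) - x‖ < 1 / ((n : ℝ) + 1)})
      (fun n => (measurableSet_lt (by fun_prop) measurable_const).nullMeasurableSet) hanti
      ⟨0, measure_ne_top _ _⟩
    rw [hinter, hx0] at hlim
    have hev := (tendsto_order.1 hlim).2 (ENNReal.ofReal (q / 12)) (by positivity)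
    obtain ⟨n, hn⟩ := hev.exists
    exact ⟨1 / ((n : ℝ) + 1), by positivity, hn.le⟩
  obtain ⟨m, hm0, hm⟩ : ∃ m : ℝ, 0 ≤ m ∧ μ univ = ENNReal.ofReal m :=
    ⟨(μ univ).toReal, ENNReal.toReal_nonneg, (ENNReal.ofReal_toReal (measure_ne_top μ univ)).symm⟩
  obtain ⟨t, ht, htρ, htm⟩ : ∃ t : ℝ, 0 < t ∧ 2 * t ≤ ρ ∧ 2 * t / ρ * m ≤ q / 4 := by
    refine ⟨min (ρ / 2) (q * ρ / (8 * (m + 1))), by positivity, ?_, ?_⟩
    · have := min_le_left (ρ / 2) (q * ρ / (8 * (m + 1)))
      linarith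
    · have h1 := min_le_right (ρ / 2) (q * ρ / (8 * (m + 1)))
      calc 2 * min (ρ / 2) (q * ρ / (8 * (m + 1))) / ρ * m
          ≤ 2 * (q * ρ / (8 * (m + 1))) / ρ * m := by gcongr
        _ = q / 4 * (m / (m + 1)) := by field_simp; ring
        _ ≤ q / 4 * 1 := by
            gcongr
            rw [div_le_one (by positivity)]
            linarith
        _ = q / 4 := mul_one _
  have hmeas : Measurable fun w : ℂ => pot0 μ x w := by
    unfold pot0
    exact Measurable.mul (by fun_prop) (measurable_kernel X).lintegral_prod_right'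
  have hv : volume (ball (x : ℂ) t) = ENNReal.ofReal (Real.pi * t ^ 2) := by
    rw [Complex.volume_ball, ← ENNReal.ofReal_coe_nnreal, ← ENNReal.ofReal_pow ht.le,
      NNReal.coe_real_pi, ← ENNReal.ofReal_mul (by positivity), mul_comm]
  have hpi := Real.pi_pos
  have htot : ∫⁻ w in ball (x : ℂ) t, pot0 μ x w ≤
      ENNReal.ofReal q * ENNReal.ofReal (Real.pi * t ^ 2 / 2) := by
    refine (lintegral_pot0_le μ ht htρ).trans ?_
    calc _ ≤ ENNReal.ofReal (3 * Real.pi * t ^ 2) * ENNReal.ofReal (q / 12) +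
          ENNReal.ofReal (2 * Real.pi * t ^ 3 / ρ) * ENNReal.ofReal m := by
          rw [hm]
          gcongr
      _ = ENNReal.ofReal (3 * Real.pi * t ^ 2 * (q / 12) + 2 * Real.pi * t ^ 3 / ρ * m) := by
          rw [← ENNReal.ofReal_mul (by positivity), ← ENNReal.ofReal_mul (by positivity),
            ← ENNReal.ofReal_add (by positivity) (by positivity)]
      _ ≤ ENNReal.ofReal (q * (Real.pi * t ^ 2 / 2)) := by
          apply ENNReal.ofReal_le_ofReal
          have h1 : 2 * Real.pi * t ^ 3 / ρ * m = Real.pi * t ^ 2 * (2 * t / ρ * m) := by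
            field_simp
          rw [h1]
          have h2 : Real.pi * t ^ 2 * (2 * t / ρ * m) ≤ Real.pi * t ^ 2 * (q / 4) := by gcongr
          nlinarith
      _ = _ := by rw [ENNReal.ofReal_mul hq0.le]
  have h3 := mul_meas_ge_le_lintegral₀ (μ := volume.restrict (ball (x : ℂ) t)) hmeas.aemeasurable
    (ENNReal.ofReal q)
  rw [Measure.restrict_apply (measurableSet_le measurable_const hmeas)] at h3
  have h4 := h3.trans htot
  rw [ENNReal.mul_le_mul_iff_right (by positivity) ENNReal.ofReal_ne_top] at h4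
  -- conclusion
  by_contra hcon
  push Not at hcon
  have hsub : ball (x : ℂ) t ⊆ ({w | ENNReal.ofReal q ≤ pot0 μ x w} ∩ ball (x : ℂ) t) ∪
      (N ∪ {(x : ℂ)}) := by
    intro w hw
    by_contra hnot
    rw [mem_union, mem_union, not_or, not_or] at hnot
    obtain ⟨h5, h6, h7⟩ := hnot
    have h8 : pot0 μ x w ≤ ENNReal.ofReal q := by
      by_contra h9
      exact h5 ⟨(not_le.1 h9).le, hw⟩
    obtain ⟨h10, h11⟩ := close_of_pot0 hX x.2 h7 hμ hq0.le h8 hq1
    exact hcon w h10 h6 h7 h11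
  have h5 : volume (ball (x : ℂ) t) ≤ ENNReal.ofReal (Real.pi * t ^ 2 / 2) := by
    refine (measure_mono hsub).trans ((measure_union_le _ _).trans ?_)
    have h6 : volume (N ∪ {(x : ℂ)}) = 0 := by
      refine le_antisymm ((measure_union_le _ _).trans ?_) bot_le
      rw [hN, measure_singleton]
      simp
    rw [h6, add_zero]
    exact h4
  rw [hv, ENNReal.ofReal_le_ofReal_iff (by positivity)] at h5
  have : 0 < Real.pi * t ^ 2 := by positivity
  linarith

end Pool.Agent.H136R3
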