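import Pool.Agent.H136R3.Big
import Pool.Agent.H136R3.Cheese

set_option autoImplicit false

open MeasureTheory Filter Topology Set Metric
open scoped NNReal ENNReal Real

namespace Pool.Agent.H136R3

/-- points off the closed discs of one stage -/
def TT (m s : ℕ) : Set ℂ := {z | ∀ u v : ℤ, (1 / 2 : ℝ) ^ s / Real.sqrt 3 * ((1 / 2) ^ m) ^ 2 <
  ‖z - (((u : ℝ) * (1 / 2) ^ m : ℝ) + ((v : ℝ) * (1 / 2) ^ m : ℝ) * Complex.I)‖}

theorem Par.W_zero (P : Par) : P.W 0 = {z | ‖z‖ < Par.R0} ∩ TT (P.m 0) (P.s 0) := by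
  ext z
  constructor
  · rintro ⟨h1, h2⟩
    exact ⟨h1, fun u v => h2 (0, u, v) le_rfl⟩
  · rintro ⟨h1, h2⟩
    refine ⟨h1, ?_⟩
    rintro ⟨j, u, v⟩ hj
    simp only [nonpos_iff_eq_zero] at hj
    subst hj
    exact h2 u v

theorem Par.W_succ (P : Par) (k : ℕ) :
    P.W (k + 1) = P.W k ∩ TT (P.m (k + 1)) (P.s (k + 1)) := by
  ext z
  constructor
  · rintro ⟨h1, h2⟩
    exact ⟨⟨h1, fun i hi => h2 i (by omega)⟩, fun u v => h2 (k + 1, u, v) le_rfl⟩
  · rintro ⟨⟨h1, h2⟩, h3⟩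
    refine ⟨h1, ?_⟩
    rintro ⟨j, u, v⟩ hj
    simp only at hj
    rcases Nat.lt_or_ge k j with h | h
    · obtain rfl : j = k + 1 := by omega
      exact h3 u v
    · exact h2 (j, u, v) h

/-- choice of the parameters, each depending on the previous domain -/
theorem exists_par' (E : ℕ → Set ℂ → ℝ) (hE : ∀ k U, 0 < E k U) :
    ∃ P : Par, (∀ k, k * 2 ^ P.s k ≤ P.m k) ∧
      ∀ k, P.cc (k + 1) ≤ E k (P.W k) ∧ P.dl (k + 1) ≤ E k (P.W k) := by
  have hstep : ∀ (k : ℕ) (p : ℕ × ℕ × Set ℂ), ∃ p' : ℕ × ℕ, p.2.1 < p'.2 ∧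
      p.2.1 + 2 * p.1 < p'.1 ∧ (k + 1) * 2 ^ p'.2 ≤ p'.1 ∧ (1 / 2 : ℝ) ^ p'.2 ≤ E k p.2.2 ∧
      (1 / 2 : ℝ) ^ p'.1 ≤ E k p.2.2 := by
    intro k p
    obtain ⟨n, hn⟩ := exists_pow_lt_of_lt_one (hE k p.2.2) (show (1 / 2 : ℝ) < 1 by norm_num)
    refine ⟨(p.2.1 + 2 * p.1 + 1 + n + (k + 1) * 2 ^ (n + p.2.1 + 1), n + p.2.1 + 1),
      ?_, ?_, ?_, ?_, ?_⟩
    · simp only; omega
    · simp only
      have : 0 ≤ (k + 1) * 2 ^ (n + p.2.1 + 1) := Nat.zero_le _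
      omega
    · simp only
      exact Nat.le_add_left _ _
    · simp only
      refine le_trans ?_ hn.le
      exact pow_le_pow_of_le_one (by norm_num) (by norm_num) (by omega)
    · simp only
      refine le_trans ?_ hn.le
      refine pow_le_pow_of_le_one (by norm_num) (by norm_num) ?_
      have : 0 ≤ (k + 1) * 2 ^ (n + p.2.1 + 1) := Nat.zero_le _
      omega
  choose f hf1 hf2 hf3 hf4 hf5 using hstep
  let q : ℕ → ℕ × ℕ × Set ℂ := fun k => Nat.rec (0, 4, {z | ‖z‖ < Par.R0} ∩ TT 0 4)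
    (fun k p => ((f k p).1, (f k p).2, p.2.2 ∩ TT (f k p).1 (f k p).2)) k
  have hq : ∀ k, q (k + 1) = ((f k (q k)).1, (f k (q k)).2,
    (q k).2.2 ∩ TT (f k (q k)).1 (f k (q k)).2) := fun k => rfl
  have hs' : ∀ k, (q k).2.1 < (q (k + 1)).2.1 := fun k => by rw [hq]; exact hf1 k _
  let P : Par :=
    { m := fun k => (q k).1
      s := fun k => (q k).2.1
      hs := fun k => by
        induction k with
        | zero => exact le_rfl
        | succ k ih => exact ih.trans (hs' k).le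
      hs' := hs'
      hm := fun k => by
        simp only [hq]
        exact hf2 k _ }
  have hW : ∀ k, P.W k = (q k).2.2 := by
    intro k
    induction k with
    | zero => exact P.W_zero
    | succ k ih => rw [P.W_succ, ih, hq]
  refine ⟨P, ?_, ?_⟩
  · intro k
    cases k with
    | zero => simp
    | succ k =>
      change (k + 1) * 2 ^ (q (k + 1)).2.1 ≤ (q (k + 1)).1
      rw [hq]
      exact hf3 k _
  · intro k
    rw [hW]
    constructor
    · have h1 : (1 / 2 : ℝ) ^ (q (k + 1)).2.1 ≤ E k (q k).2.2 := by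
        rw [hq]
        exact hf4 k _
      refine le_trans ?_ h1
      change (1 / 2 : ℝ) ^ (q (k + 1)).2.1 / Real.sqrt 3 ≤ _
      refine div_le_self (by positivity) ?_
      exact Real.one_le_sqrt.2 (by norm_num)
    · change (1 / 2 : ℝ) ^ (q (k + 1)).1 ≤ _
      rw [hq]
      exact hf5 k _

/-- the conditions imposed at stage `k` for the domain `U` -/
def Cond (k : ℕ) (U : Set ℂ) (e : ℝ) (K : Set ℂ) : Prop :=
  K ⊆ U ∧ volume (U \ K) ≤ ENNReal.ofReal ((1 / 2) ^ k) ∧ ∃ κ C : ℝ, 3 * e ≤ κ ∧ 0 < C ∧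
    (C + 1) * (960 * e) ≤ 1 / 64 ∧ ∀ h : ℂ → ℂ, DifferentiableOn ℂ h U →
      (∀ w, ball w κ ⊆ U → ‖h w‖ ≤ 1) → ∀ z ∈ K, ‖h z - h x0‖ ≤ C * (1 - ‖h x0‖)

theorem exists_cond (k : ℕ) {U : Set ℂ} (hU : IsOpen U) (hU' : IsPreconnected U) (hx : x0 ∈ U)
    (hfin : volume U ≠ ⊤) : ∃ e : ℝ, 0 < e ∧ ∃ K, Cond k U e K := by
  obtain ⟨K, hKU, hK, hvol⟩ := hU.measurableSet.exists_isCompact_diff_lt (μ := volume) hfin
    (ε := ENNReal.ofReal ((1 / 2) ^ k)) (by positivity)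
  obtain ⟨κ, hκ, C, hC, H⟩ := HR.compact hU hU' hx hK hKU
  refine ⟨min (κ / 3) (1 / 64 / (960 * (C + 1))), by positivity, K, hKU, hvol.le, κ, C, ?_, hC, ?_, H⟩
  · have := min_le_left (κ / 3) (1 / 64 / (960 * (C + 1)))
    linarith
  · have := min_le_right (κ / 3) (1 / 64 / (960 * (C + 1)))
    rw [le_div_iff₀ (by positivity)] at this
    linarith

theorem Cond.mono {k : ℕ} {U K : Set ℂ} {e e' : ℝ} (h : Cond k U e K) (he : e' ≤ e) :
    Cond k U e' K := by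
  obtain ⟨h1, h2, κ, C, h3, h4, h5, h6⟩ := h
  refine ⟨h1, h2, κ, C, by linarith, h4, ?_, h6⟩
  have : (C + 1) * (960 * e') ≤ (C + 1) * (960 * e) := by gcongr
  linarith

theorem Par.volume_W (P : Par) (k : ℕ) : volume (P.W k) ≠ ⊤ := by
  refine ne_top_of_le_ne_top (measure_ball_lt_top (μ := volume) (x := (0 : ℂ)) (r := Par.R0)).ne
    (measure_mono ?_)
  intro z hz
  rw [mem_ball, dist_zero_right]
  exact hz.1

/-- The parameters of the final construction. -/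
theorem exists_final : ∃ P : Par, (∀ k, k * 2 ^ P.s k ≤ P.m k) ∧ ∃ K : ℕ → Set ℂ, ∀ k,
    Cond k (P.W k) (max (P.cc (k + 1)) (P.dl (k + 1))) (K k) := by
  classical
  let E : ℕ → Set ℂ → ℝ := fun k U =>
    if h : IsOpen U ∧ IsPreconnected U ∧ x0 ∈ U ∧ volume U ≠ ⊤ then
      (exists_cond k h.1 h.2.1 h.2.2.1 h.2.2.2).choose else 1
  have hE : ∀ k U, 0 < E k U := by
    intro k U
    simp only [E]
    split_ifs with h
    · exact (exists_cond k h.1 h.2.1 h.2.2.1 h.2.2.2).choose_spec.1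
    · norm_num
  obtain ⟨P, hP1, hP2⟩ := exists_par' E hE
  refine ⟨P, hP1, ?_⟩
  have h : ∀ k, ∃ K, Cond k (P.W k) (max (P.cc (k + 1)) (P.dl (k + 1))) K := by
    intro k
    have h : IsOpen (P.W k) ∧ IsPreconnected (P.W k) ∧ x0 ∈ P.W k ∧ volume (P.W k) ≠ ⊤ :=
      ⟨P.isOpen_W k, P.isPreconnected_W k, P.x0_mem k, P.volume_W k⟩
    obtain ⟨K, hK⟩ := (exists_cond k h.1 h.2.1 h.2.2.1 h.2.2.2).choose_spec.2
    refine ⟨K, hK.mono ?_⟩
    have h1 : E k (P.W k) = (exists_cond k h.1 h.2.1 h.2.2.1 h.2.2.2).choose := by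
      simp only [E]
      rw [dif_pos h]
    rw [← h1]
    exact max_le (hP2 k).1 (hP2 k).2
  choose K hK using h
  exact ⟨K, hK⟩

end Pool.Agent.H136R3
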