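import Pool.Agent.H136R3.Split

set_option autoImplicit false

open MeasureTheory Filter Topology Set Metric
open scoped NNReal ENNReal Real

namespace Pool.Agent.H136R3

/-- The square trick: smallness on one side of a square gives smallness at the centre. -/
theorem square {U : Set ℂ} (hU : IsOpen U) {h : ℂ → ℂ} (hd : DifferentiableOn ℂ h U) {z v : ℂ}
    (hsq : ∀ ζ : ℂ, |ζ.re| ≤ 1 → |ζ.im| ≤ 1 → z + v * ζ ∈ U) {M ε : ℝ}
    (hM : ∀ w ∈ U, ‖h w‖ ≤ M) (hε : ∀ t : ℝ, |t| ≤ 1 → ‖h (z + v * (1 + t * Complex.I))‖ ≤ ε) :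
    ‖h z‖ ^ 4 ≤ ε * M ^ 3 := by
  have hM0 : 0 ≤ M := (norm_nonneg _).trans (hM _ (hsq 0 (by simp) (by simp)))
  have hε0 : 0 ≤ ε := (norm_nonneg _).trans (hε 0 (by simp))
  set Q : Set ℂ := Ioo (-1) 1 ×ℂ Ioo (-1) 1 with hQ
  have hQb : Bornology.IsBounded Q :=
    (Metric.isBounded_Ioo (-1 : ℝ) 1).reProdIm (Metric.isBounded_Ioo (-1 : ℝ) 1)
  have hQc : closure Q ⊆ {ζ : ℂ | |ζ.re| ≤ 1 ∧ |ζ.im| ≤ 1} := by
    rw [hQ, Complex.closure_reProdIm, closure_Ioo (by norm_num)]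
    intro ζ hζ
    exact ⟨abs_le.2 ⟨hζ.1.1, hζ.1.2⟩, abs_le.2 ⟨hζ.2.1, hζ.2.2⟩⟩
  let H : ℂ → ℂ := fun ζ => h (z + v * ζ)
  let G : ℂ → ℂ := fun ζ => H ζ * H (Complex.I * ζ) * H (-ζ) * H (-(Complex.I * ζ))
  have hrot : ∀ ζ : ℂ, |ζ.re| ≤ 1 → |ζ.im| ≤ 1 → |(Complex.I * ζ).re| ≤ 1 ∧
      |(Complex.I * ζ).im| ≤ 1 := by
    intro ζ h1 h2
    simp [abs_neg]
    exact ⟨h2, h1⟩
  have hneg : ∀ ζ : ℂ, |ζ.re| ≤ 1 → |ζ.im| ≤ 1 → |(-ζ).re| ≤ 1 ∧ |(-ζ).im| ≤ 1 := by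
    intro ζ h1 h2
    simp [abs_neg]
    exact ⟨h1, h2⟩
  have hHM : ∀ ζ : ℂ, |ζ.re| ≤ 1 → |ζ.im| ≤ 1 → ‖H ζ‖ ≤ M := fun ζ h1 h2 => hM _ (hsq ζ h1 h2)
  have hHd : ∀ ζ : ℂ, |ζ.re| ≤ 1 → |ζ.im| ≤ 1 → DifferentiableAt ℂ H ζ := by
    intro ζ h1 h2
    have h3 : DifferentiableAt ℂ h (z + v * ζ) :=
      (hd _ (hsq ζ h1 h2)).differentiableAt (hU.mem_nhds (hsq ζ h1 h2))
    exact h3.comp ζ (by fun_prop)
  have hGd : ∀ ζ : ℂ, |ζ.re| ≤ 1 → |ζ.im| ≤ 1 → DifferentiableAt ℂ G ζ := by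
    intro ζ h1 h2
    obtain ⟨h3, h4⟩ := hrot ζ h1 h2
    obtain ⟨h5, h6⟩ := hneg ζ h1 h2
    obtain ⟨h7, h8⟩ := hneg _ h3 h4
    refine DifferentiableAt.mul (DifferentiableAt.mul (DifferentiableAt.mul (hHd ζ h1 h2) ?_) ?_) ?_
    · exact DifferentiableAt.comp (g := H) ζ (hHd _ h3 h4) (by fun_prop)
    · exact DifferentiableAt.comp (g := H) ζ (hHd _ h5 h6) (by fun_prop)
    · exact DifferentiableAt.comp (g := H) ζ (hHd _ h7 h8) (by fun_prop)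
  have hDC : DiffContOnCl ℂ G Q := by
    refine DifferentiableOn.diffContOnCl fun ζ hζ => ?_
    have h1 := hQc hζ
    exact (hGd ζ h1.1 h1.2).differentiableWithinAt
  have hfront : ∀ ζ ∈ frontier Q, ‖G ζ‖ ≤ ε * M ^ 3 := by
    intro ζ hζ
    have hζc := hQc (frontier_subset_closure hζ)
    have h1 := hζc.1
    have h2 := hζc.2
    obtain ⟨h3, h4⟩ := hrot ζ h1 h2
    obtain ⟨h5, h6⟩ := hneg ζ h1 h2
    obtain ⟨h7, h8⟩ := hneg _ h3 h4
    have ha := hHM ζ h1 h2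
    have hb := hHM _ h3 h4
    have hc := hHM _ h5 h6
    have hd' := hHM _ h7 h8
    -- one of the four is small
    have hside : ∀ η : ℂ, η.re = 1 → |η.im| ≤ 1 → ‖H η‖ ≤ ε := by
      intro η hη1 hη2
      have h9 : η = 1 + (η.im : ℂ) * Complex.I := by
        apply Complex.ext <;> simp [hη1]
      change ‖h (z + v * η)‖ ≤ ε
      rw [h9]
      exact hε η.im hη2
    have hcase : ‖H ζ‖ ≤ ε ∨ ‖H (Complex.I * ζ)‖ ≤ ε ∨ ‖H (-ζ)‖ ≤ ε ∨
        ‖H (-(Complex.I * ζ))‖ ≤ ε := by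
      rw [hQ, Complex.frontier_reProdIm, frontier_Ioo (by norm_num)] at hζ
      rcases hζ with hζ | hζ
      · have h9 : ζ.im = -1 ∨ ζ.im = 1 := by
          have := hζ.2
          simpa using this
        rcases h9 with h9 | h9
        · right; left
          refine hside _ (by simp [h9]) (by simpa using h1)
        · right; right; right
          refine hside _ (by simp [h9]) (by simpa using h1)
      · have h9 : ζ.re = -1 ∨ ζ.re = 1 := by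
          have := hζ.1
          simpa using this
        rcases h9 with h9 | h9
        · right; right; left
          refine hside _ (by simp [h9]) (by simpa using h2)
        · left
          exact hside _ h9 h2
    have hmul4 : ‖G ζ‖ = ‖H ζ‖ * ‖H (Complex.I * ζ)‖ * ‖H (-ζ)‖ * ‖H (-(Complex.I * ζ))‖ := by
      simp only [G, norm_mul]
    rw [hmul4]
    rcases hcase with h9 | h9 | h9 | h9
    · calc _ ≤ ε * M * M * M := by gcongr
        _ = _ := by ring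
    · calc _ ≤ M * ε * M * M := by gcongr
        _ = _ := by ring
    · calc _ ≤ M * M * ε * M := by gcongr
        _ = _ := by ring
    · calc _ ≤ M * M * M * ε := by gcongr
        _ = _ := by ring
  have h0 : (0 : ℂ) ∈ closure Q := subset_closure (by
    rw [hQ]
    exact ⟨by simp, by simp⟩)
  have h1 := Complex.norm_le_of_forall_mem_frontier_norm_le hQb hDC hfront h0
  have h2 : G 0 = h z ^ 4 := by
    simp only [G, H, mul_zero, neg_zero, add_zero]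
    ring
  rw [h2, norm_pow] at h1
  exact h1

/-- from a ball to a bigger ball -/
theorem ball_step {U : Set ℂ} (hU : IsOpen U) {h : ℂ → ℂ} (hd : DifferentiableOn ℂ h U) {c : ℂ}
    {ρ : ℝ} (hc : ∀ w, ‖w - c‖ ≤ 3 * ρ → w ∈ U) {M ε : ℝ} (hM : ∀ w ∈ U, ‖h w‖ ≤ M)
    (hε : ∀ w, ‖w - c‖ ≤ ρ → ‖h w‖ ≤ ε) {z : ℂ} (hz : ‖z - c‖ ≤ 5 / 4 * ρ) :
    ‖h z‖ ^ 4 ≤ ε * M ^ 3 := by
  have hρ : 0 ≤ ρ := by
    have := norm_nonneg (z - c)
    linarith
  have hnz : ∀ ζ : ℂ, |ζ.re| ≤ 1 → |ζ.im| ≤ 1 → ‖ζ‖ ≤ 3 / 2 := by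
    intro ζ h1 h2
    have h3 := Par.norm_sq_eq ζ
    have h4 : ζ.re ^ 2 ≤ 1 := by rw [← sq_abs]; nlinarith [abs_nonneg ζ.re]
    have h5 : ζ.im ^ 2 ≤ 1 := by rw [← sq_abs]; nlinarith [abs_nonneg ζ.im]
    nlinarith [norm_nonneg ζ]
  refine square hU hd (v := -(z - c) / 2) ?_ hM ?_
  · intro ζ h1 h2
    apply hc
    have h3 := hnz ζ h1 h2
    have h4 : z + -(z - c) / 2 * ζ - c = (z - c) - (z - c) * ζ / 2 := by ring
    rw [h4]
    refine (norm_sub_le _ _).trans ?_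
    rw [norm_div, norm_mul, Complex.norm_ofNat]
    nlinarith [norm_nonneg (z - c), norm_nonneg ζ]
  · intro t ht
    apply hε
    have h4 : z + -(z - c) / 2 * (1 + t * Complex.I) - c = (z - c) * (1 - t * Complex.I) / 2 := by
      ring
    rw [h4, norm_div, norm_mul, Complex.norm_ofNat]
    have h5 : ‖(1 : ℂ) - t * Complex.I‖ ^ 2 ≤ 2 := by
      rw [Par.norm_sq_eq]
      simp only [Complex.sub_re, Complex.one_re, Complex.mul_re, Complex.ofReal_re, Complex.I_re,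
        mul_zero, Complex.ofReal_im, Complex.I_im, mul_one, sub_self, sub_zero, one_pow,
        Complex.sub_im, Complex.one_im, Complex.mul_im, add_zero, zero_sub, neg_sq]
      have : t ^ 2 ≤ 1 := by rw [← sq_abs]; nlinarith [abs_nonneg t]
      linarith
    have h6 : ‖(1 : ℂ) - t * Complex.I‖ ≤ 3 / 2 := by
      nlinarith [norm_nonneg ((1 : ℂ) - t * Complex.I)]
    have h7 : ‖z - c‖ * ‖(1 : ℂ) - t * Complex.I‖ ≤ 2 * ρ := by
      have h8 : (‖z - c‖ * ‖(1 : ℂ) - t * Complex.I‖) ^ 2 ≤ (2 * ρ) ^ 2 := by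
        rw [mul_pow]
        calc ‖z - c‖ ^ 2 * ‖(1 : ℂ) - t * Complex.I‖ ^ 2 ≤ (5 / 4 * ρ) ^ 2 * 2 := by gcongr
          _ ≤ _ := by nlinarith [sq_nonneg ρ]
      exact le_of_sq_le_sq h8 (by positivity)
    linarith

/-- propagation of smallness along the line -/
theorem propagate (σ M : ℝ) (hσ : 0 < σ) (hM : 0 < M) :
    ∀ η : ℝ, 0 < η → ∃ ε : ℝ, 0 < ε ∧ ∀ h : ℂ → ℂ, DifferentiableOn ℂ h (St σ) →
      (∀ z ∈ St σ, ‖h z‖ ≤ M) →
      (∀ z : ℂ, -1 ≤ z.re → z.re ≤ -1 / 2 → z.im = 1 / 3 → ‖h z‖ ≤ ε) →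
      ‖h ⟨0, 1 / 3⟩‖ ≤ η := by
  obtain ⟨n, hn⟩ := exists_nat_gt (max 24 (9 / σ))
  have hn24 : (24 : ℝ) < n := (le_max_left _ _).trans_lt hn
  have hnσ : 9 / σ < n := (le_max_right _ _).trans_lt hn
  have hn0 : (0 : ℝ) < n := by linarith
  set ρ : ℝ := 3 / n with hρ
  have hρ0 : 0 < ρ := by positivity
  have hρ8 : ρ ≤ 1 / 8 := by
    rw [hρ, div_le_div_iff₀ hn0 (by norm_num)]; linarith
  have hρσ : 3 * ρ < σ := by
    rw [div_lt_iff₀ hσ] at hnσ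
    rw [hρ, mul_div_assoc', div_lt_iff₀ hn0]
    linarith
  have hroot : ∀ a : ℝ, 0 < a → ∀ x : ℝ, 0 ≤ x → x ^ 4 ≤ a ^ 4 / M ^ 3 * M ^ 3 → x ≤ a := by
    intro a ha x hx h
    rw [div_mul_cancel₀ _ (by positivity)] at h
    exact le_of_pow_le_pow_left₀ (by norm_num) ha.le h
  have hin : ∀ j : ℕ, j ≤ n → ∀ w : ℂ, ‖w - ⟨-3 / 4 + j * (ρ / 4), 1 / 3⟩‖ ≤ 3 * ρ → w ∈ St σ := by
    intro j hj w hw
    have h1 := Complex.abs_re_le_norm (w - ⟨-3 / 4 + j * (ρ / 4), 1 / 3⟩)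
    have h2 := Complex.abs_im_le_norm (w - ⟨-3 / 4 + j * (ρ / 4), 1 / 3⟩)
    simp only [Complex.sub_re, Complex.sub_im] at h1 h2
    have h3 : (j : ℝ) * (ρ / 4) ≤ 3 / 4 := by
      have h4 : (j : ℝ) ≤ n := by exact_mod_cast hj
      have h5 : (n : ℝ) * (ρ / 4) = 3 / 4 := by rw [hρ]; field_simp
      rw [← h5]
      gcongr
    have h6 : 0 ≤ (j : ℝ) * (ρ / 4) := by positivity
    refine ⟨?_, ?_⟩
    · have := abs_le.1 (h1.trans hw)
      rw [abs_lt]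
      constructor <;> linarith
    · exact (h2.trans hw).trans_lt hρσ
  -- from the segment to a ball
  have hstart : ∀ η : ℝ, 0 < η → ∃ ε : ℝ, 0 < ε ∧ ∀ h : ℂ → ℂ, DifferentiableOn ℂ h (St σ) →
      (∀ z ∈ St σ, ‖h z‖ ≤ M) →
      (∀ z : ℂ, -1 ≤ z.re → z.re ≤ -1 / 2 → z.im = 1 / 3 → ‖h z‖ ≤ ε) →
      ∀ w : ℂ, ‖w - ⟨-3 / 4, 1 / 3⟩‖ ≤ ρ → ‖h w‖ ≤ η := by
    intro η hη
    refine ⟨η ^ 4 / M ^ 3, by positivity, fun h hd hb hs w hw => ?_⟩
    apply hroot η hη _ (norm_nonneg _)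
    have h1 := Complex.abs_re_le_norm (w - ⟨-3 / 4, 1 / 3⟩)
    have h2 := Complex.abs_im_le_norm (w - ⟨-3 / 4, 1 / 3⟩)
    simp only [Complex.sub_re, Complex.sub_im] at h1 h2
    have h3 := abs_le.1 (h1.trans hw)
    have h4 := abs_le.1 (h2.trans hw)
    refine square (isOpen_St σ) hd (v := -(((w.im - 1 / 3 : ℝ) : ℂ) * Complex.I)) ?_ hb ?_
    · intro ζ h5 h6
      apply hin 0 (Nat.zero_le _)
      have h7 : w + -(((w.im - 1 / 3 : ℝ) : ℂ) * Complex.I) * ζ - ⟨-3 / 4 + (0 : ℕ) * (ρ / 4), 1 / 3⟩ =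
          (w - ⟨-3 / 4, 1 / 3⟩) - (((w.im - 1 / 3 : ℝ) : ℂ) * Complex.I) * ζ := by
        have : (⟨-3 / 4 + (0 : ℕ) * (ρ / 4), 1 / 3⟩ : ℂ) = ⟨-3 / 4, 1 / 3⟩ := by
          apply Complex.ext <;> simp
        rw [this]
        ring
      rw [h7]
      refine (norm_sub_le _ _).trans ?_
      rw [norm_mul, norm_mul, Complex.norm_I, mul_one, Complex.norm_real, Real.norm_eq_abs]
      have h8 : ‖ζ‖ ≤ 2 := (Complex.norm_le_abs_re_add_abs_im ζ).trans (by linarith)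
      have h9 : |w.im - 1 / 3| ≤ ρ := h2.trans hw
      nlinarith [norm_nonneg ζ, abs_nonneg (w.im - 1 / 3)]
    · intro t ht
      have ht' := abs_le.1 ht
      have hre : (w + -(((w.im - 1 / 3 : ℝ) : ℂ) * Complex.I) * (1 + t * Complex.I)).re =
          w.re + (w.im - 1 / 3) * t := by
        simp
      have him : (w + -(((w.im - 1 / 3 : ℝ) : ℂ) * Complex.I) * (1 + t * Complex.I)).im =
          1 / 3 := by
        simp
      have h9 : |(w.im - 1 / 3) * t| ≤ ρ := by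
        rw [abs_mul]
        have h10 : |w.im - 1 / 3| ≤ ρ := h2.trans hw
        nlinarith [abs_nonneg t, abs_nonneg (w.im - 1 / 3)]
      have h11 := abs_le.1 h9
      refine hs _ ?_ ?_ him
      · rw [hre]; linarith
      · rw [hre]; linarith
  -- the chain of balls
  have hchain : ∀ j : ℕ, j ≤ n → ∀ η : ℝ, 0 < η → ∃ ε : ℝ, 0 < ε ∧ ∀ h : ℂ → ℂ,
      DifferentiableOn ℂ h (St σ) → (∀ z ∈ St σ, ‖h z‖ ≤ M) →
      (∀ z : ℂ, -1 ≤ z.re → z.re ≤ -1 / 2 → z.im = 1 / 3 → ‖h z‖ ≤ ε) →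
      ∀ w : ℂ, ‖w - ⟨-3 / 4 + j * (ρ / 4), 1 / 3⟩‖ ≤ ρ → ‖h w‖ ≤ η := by
    intro j
    induction j with
    | zero =>
      intro _ η hη
      obtain ⟨ε, hε, H⟩ := hstart η hη
      refine ⟨ε, hε, fun h hd hb hs w hw => H h hd hb hs w ?_⟩
      have : (⟨-3 / 4 + (0 : ℕ) * (ρ / 4), 1 / 3⟩ : ℂ) = ⟨-3 / 4, 1 / 3⟩ := by
        apply Complex.ext <;> simp
      rwa [this] at hw
    | succ j ih =>
      intro hj η hη
      obtain ⟨ε, hε, H⟩ := ih (by omega) (η ^ 4 / M ^ 3) (by positivity)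
      refine ⟨ε, hε, fun h hd hb hs w hw => ?_⟩
      apply hroot η hη _ (norm_nonneg _)
      refine ball_step (isOpen_St σ) hd (hin j (by omega)) hb (H h hd hb hs) ?_
      have h1 : w - ⟨-3 / 4 + j * (ρ / 4), 1 / 3⟩ =
          (w - ⟨-3 / 4 + (j + 1 : ℕ) * (ρ / 4), 1 / 3⟩) + ((ρ / 4 : ℝ) : ℂ) := by
        apply Complex.ext
        · simp; ring
        · simp
      rw [h1]
      refine (norm_add_le _ _).trans ?_
      rw [Complex.norm_real, Real.norm_of_nonneg (by positivity)]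
      linarith
  intro η hη
  obtain ⟨ε, hε, H⟩ := hchain n le_rfl η hη
  refine ⟨ε, hε, fun h hd hb hs => H h hd hb hs _ ?_⟩
  have h1 : (⟨0, 1 / 3⟩ : ℂ) - ⟨-3 / 4 + n * (ρ / 4), 1 / 3⟩ = 0 := by
    have h5 : (n : ℝ) * (ρ / 4) = 3 / 4 := by rw [hρ]; field_simp
    apply Complex.ext
    · simp only [Complex.sub_re, h5, Complex.zero_re]; ring
    · simp
  rw [h1, norm_zero]
  exact hρ0.le

/-- choice of the parameters -/
theorem exists_par (E : ℕ → ℕ → ℝ) (hE : ∀ k m, 0 < E k m) :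
    ∃ P : Par, (∀ k, k * 2 ^ P.s k ≤ P.m k) ∧ ∀ k, P.cc (k + 1) ≤ E k (P.m k) := by
  have hstep : ∀ (k : ℕ) (p : ℕ × ℕ), ∃ p' : ℕ × ℕ, p.2 < p'.2 ∧ p.2 + 2 * p.1 < p'.1 ∧
      (k + 1) * 2 ^ p'.2 ≤ p'.1 ∧ (1 / 2 : ℝ) ^ p'.2 ≤ E k p.1 := by
    intro k p
    obtain ⟨n, hn⟩ := exists_pow_lt_of_lt_one (hE k p.1) (show (1 / 2 : ℝ) < 1 by norm_num)
    refine ⟨(p.2 + 2 * p.1 + 1 + (k + 1) * 2 ^ (n + p.2 + 1), n + p.2 + 1), ?_, ?_, ?_, ?_⟩
    · simp only; omega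
    · simp only
      have : 0 ≤ (k + 1) * 2 ^ (n + p.2 + 1) := Nat.zero_le _
      omega
    · simp only
      exact Nat.le_add_left _ _
    · simp only
      refine le_trans ?_ hn.le
      exact pow_le_pow_of_le_one (by norm_num) (by norm_num) (by omega)
  choose f hf1 hf2 hf3 hf4 using hstep
  let q : ℕ → ℕ × ℕ := fun k => Nat.rec (0, 4) (fun k p => f k p) k
  have hq : ∀ k, q (k + 1) = f k (q k) := fun k => rfl
  have hs' : ∀ k, (q k).2 < (q (k + 1)).2 := fun k => by rw [hq]; exact hf1 k _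
  let P : Par :=
    { m := fun k => (q k).1
      s := fun k => (q k).2
      hs := fun k => by
        induction k with
        | zero => exact le_rfl
        | succ k ih => exact ih.trans (hs' k).le
      hs' := hs'
      hm := fun k => by
        simp only [hq]
        exact hf2 k _ }
  refine ⟨P, ?_, ?_⟩
  · intro k
    cases k with
    | zero => simp
    | succ k =>
      change (k + 1) * 2 ^ (q (k + 1)).2 ≤ (q (k + 1)).1
      rw [hq]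
      exact hf3 k _
  · intro k
    have h1 : (1 / 2 : ℝ) ^ (q (k + 1)).2 ≤ E k (q k).1 := by
      rw [hq]
      exact hf4 k _
    refine le_trans ?_ h1
    change (1 / 2 : ℝ) ^ (q (k + 1)).2 / Real.sqrt 3 ≤ _
    refine div_le_self (by positivity) ?_
    exact Real.one_le_sqrt.2 (by norm_num)

end Pool.Agent.H136R3
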