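import Pool.Agent.H136R3.Dom

set_option autoImplicit false

open MeasureTheory Filter Topology Set Polynomial
open scoped NNReal ENNReal

namespace Pool.Agent.H136R3

/-- Functions which are rational with no poles on `X` (the values at the zeros of the denominator
do not matter). -/
def QX (X : Set ℂ) : Subalgebra ℂ (ℂ → ℂ) where
  carrier := {f | ∃ p q : ℂ[X], (∀ z ∈ X, q.eval z ≠ 0) ∧
    ∀ z, q.eval z ≠ 0 → f z = p.eval z / q.eval z}
  mul_mem' := by
    rintro f g ⟨p, q, hq, hf⟩ ⟨p', q', hq', hg⟩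
    refine ⟨p * p', q * q', fun z hz => ?_, fun z hz => ?_⟩
    · rw [eval_mul]; exact mul_ne_zero (hq z hz) (hq' z hz)
    · rw [eval_mul] at hz
      have h1 := left_ne_zero_of_mul hz
      have h2 := right_ne_zero_of_mul hz
      rw [Pi.mul_apply, hf z h1, hg z h2, eval_mul, eval_mul, div_mul_div_comm]
  add_mem' := by
    rintro f g ⟨p, q, hq, hf⟩ ⟨p', q', hq', hg⟩
    refine ⟨p * q' + q * p', q * q', fun z hz => ?_, fun z hz => ?_⟩
    · rw [eval_mul]; exact mul_ne_zero (hq z hz) (hq' z hz)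
    · rw [eval_mul] at hz
      have h1 := left_ne_zero_of_mul hz
      have h2 := right_ne_zero_of_mul hz
      rw [Pi.add_apply, hf z h1, hg z h2, eval_add, eval_mul, eval_mul, eval_mul,
        div_add_div _ _ h1 h2]
  algebraMap_mem' := by
    intro c
    refine ⟨C c, 1, fun z _ => by simp, fun z _ => by simp⟩

theorem QX.const_mem (X : Set ℂ) (c : ℂ) : (fun _ => c) ∈ QX X :=
  ⟨C c, 1, fun z _ => by simp, fun z _ => by simp⟩

theorem QX.id_sub_mem (X : Set ℂ) (c : ℂ) : (fun z => z - c) ∈ QX X :=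
  ⟨Polynomial.X - C c, 1, fun z _ => by simp, fun z _ => by simp⟩

theorem QX.inv_mem {X : Set ℂ} {w : ℂ} (hw : w ∉ X) : (fun z => (z - w)⁻¹) ∈ QX X := by
  refine ⟨1, Polynomial.X - C w, fun z hz => ?_, fun z _ => ?_⟩
  · rw [eval_sub, eval_X, eval_C, sub_ne_zero]
    rintro rfl
    exact hw hz
  · rw [eval_sub, eval_X, eval_C, eval_one, one_div]

theorem QX.differentiableAt {X : Set ℂ} {f : ℂ → ℂ} (hf : f ∈ QX X) {y : ℂ} (hy : y ∈ X) :
    DifferentiableAt ℂ f y := by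
  obtain ⟨p, q, hq, hfq⟩ := hf
  have h1 : f =ᶠ[𝓝 y] fun z => p.eval z / q.eval z := by
    have h2 : ∀ᶠ z in 𝓝 y, q.eval z ≠ 0 := q.continuous.continuousAt.eventually_ne (hq y hy)
    filter_upwards [h2] with z hz using hfq z hz
  refine DifferentiableAt.congr_of_eventuallyEq ?_ h1
  exact (p.differentiable y).div (q.differentiable y) (hq y hy)

theorem QX.continuousOn {X : Set ℂ} {f : ℂ → ℂ} (hf : f ∈ QX X) : ContinuousOn f X :=
  fun y hy => (QX.differentiableAt hf hy).continuousAt.continuousWithinAt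

/-- the derivative is continuous on `X` -/
theorem QX.continuousOn_deriv {X : Set ℂ} {f : ℂ → ℂ} (hf : f ∈ QX X) :
    ContinuousOn (deriv f) X := by
  intro y hy
  obtain ⟨p, q, hq, hfq⟩ := hf
  have hopen : IsOpen {z : ℂ | q.eval z ≠ 0} := isOpen_ne_fun q.continuous continuous_const
  have hd : DifferentiableOn ℂ f {z : ℂ | q.eval z ≠ 0} := by
    intro z hz
    have h1 : f =ᶠ[𝓝 z] fun z => p.eval z / q.eval z := by
      filter_upwards [hopen.mem_nhds hz] with w hw using hfq w hw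
    refine (DifferentiableAt.congr_of_eventuallyEq ?_ h1).differentiableWithinAt
    exact (p.differentiable z).div (q.differentiable z) hz
  have h2 := (hd.deriv hopen).continuousOn
  exact ((h2 y (hq y hy)).continuousAt (hopen.mem_nhds (hq y hy))).continuousWithinAt

/-- division by `z - w` for `w ∈ X` -/
theorem QX.exists_div {X : Set ℂ} {f : ℂ → ℂ} (hf : f ∈ QX X) {w : ℂ} (hw : w ∈ X) :
    ∃ h ∈ QX X, ∀ z ∈ X, f z - f w = (z - w) * h z := by
  obtain ⟨p, q, hq, hfq⟩ := hf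
  have hroot : (Polynomial.X - C w) ∣ (p * C (q.eval w) - C (p.eval w) * q) := by
    rw [dvd_iff_isRoot, IsRoot.def]
    simp [mul_comm]
  obtain ⟨s, hs⟩ := hroot
  have hqw := hq w hw
  refine ⟨fun z => s.eval z / (q.eval z * q.eval w), ?_, ?_⟩
  · refine ⟨s, q * C (q.eval w), fun z hz => ?_, fun z _ => ?_⟩
    · rw [eval_mul, eval_C]; exact mul_ne_zero (hq z hz) hqw
    · rw [eval_mul, eval_C]
  · intro z hz
    have hqz := hq z hz
    have h1 := congrArg (fun r : ℂ[X] => r.eval z) hs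
    simp only [eval_sub, eval_mul, eval_C, eval_X] at h1
    rw [hfq z hqz, hfq w hqw]
    rw [div_sub_div _ _ hqz hqw, mul_div_assoc', ← h1]
    ring

/-- bound of the derivative at `y` by the supremum norm on `X` -/
def N2 (X : Set ℂ) (K : ℝ) (y : ℂ) : Prop :=
  ∀ f ∈ QX X, ∀ M : ℝ, (∀ z ∈ X, ‖f z‖ ≤ M) → ‖deriv f y‖ ≤ K * M

/-- closeness of two evaluations -/
def Cl (X : Set ℂ) (δ : ℝ) (x y : ℂ) : Prop :=
  ∀ f ∈ QX X, ∀ M : ℝ, (∀ z ∈ X, ‖f z‖ ≤ M) → ‖f x - f y‖ ≤ δ * M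

theorem Cl.symm {X : Set ℂ} {δ : ℝ} {x y : ℂ} (h : Cl X δ x y) : Cl X δ y x := by
  intro f hf M hM
  rw [norm_sub_rev]
  exact h f hf M hM

theorem Cl.trans {X : Set ℂ} {δ δ' : ℝ} {x y z : ℂ} (h : Cl X δ x y) (h' : Cl X δ' y z) :
    Cl X (δ + δ') x z := by
  intro f hf M hM
  have h1 := h f hf M hM
  have h2 := h' f hf M hM
  have h3 : f x - f z = (f x - f y) + (f y - f z) := by ring
  rw [h3]
  refine (norm_add_le _ _).trans ?_
  linarith

theorem Cl.mono {X : Set ℂ} {δ δ' : ℝ} {x y : ℂ} (hx : x ∈ X) (h : Cl X δ x y) (hd : δ ≤ δ') :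
    Cl X δ' x y := by
  intro f hf M hM
  have hM0 : 0 ≤ M := (norm_nonneg _).trans (hM x hx)
  exact (h f hf M hM).trans (mul_le_mul_of_nonneg_right hd hM0)

/-- restriction to `X` as a continuous function -/
noncomputable def restr (X : Set ℂ) : (QX X) →ₗ[ℂ] C(X, ℂ) where
  toFun f := ⟨X.domRestrict f.1, (QX.continuousOn f.2).domRestrict⟩
  map_add' f g := by ext z; rfl
  map_smul' c f := by ext z; rfl

/-- A point with bounded derivative has a dominating measure. -/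
theorem exists_measure {X : Set ℂ} (hX : IsCompact X) {K : ℝ} {y : ℂ} (hy : y ∈ X)
    (hK : N2 X K y) : ∃ μ : Measure X, IsFiniteMeasure μ ∧ μ.real univ ≤ K ∧
      ∀ f ∈ QX X, ‖deriv f y‖ ≤ ∫ z : X, ‖f z‖ ∂μ := by
  have : CompactSpace X := isCompact_iff_compactSpace.1 hX
  have hK0 : 0 ≤ K := by
    have := hK (fun _ => 1) (QX.const_mem X 1) 1 (fun z _ => by simp)
    have h2 := (norm_nonneg _).trans this
    linarith
  let l : (QX X) →ₗ[ℂ] ℂ :=
    { toFun := fun f => deriv f.1 y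
      map_add' := fun f g => by
        change deriv (f.1 + g.1) y = _
        rw [deriv_add (QX.differentiableAt f.2 hy) (QX.differentiableAt g.2 hy)]
      map_smul' := fun c f => by
        change deriv (c • f.1) y = c • deriv f.1 y
        rw [deriv_const_smul _ (QX.differentiableAt f.2 hy)] }
  obtain ⟨Ψ, hΨ, hΨ2⟩ := Pool.Agent.H731R2.exists_functional (restr X) l K hK0 (by
    intro f
    exact hK f.1 f.2 _ (fun z hz => ContinuousMap.norm_coe_le_norm (restr X f) ⟨z, hz⟩))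
  obtain ⟨μ, h1, h2, h3⟩ := exists_dominating Ψ
  refine ⟨μ, h1, h2.trans hΨ, ?_⟩
  intro f hf
  have h4 := h3 (restr X ⟨f, hf⟩)
  rw [hΨ2] at h4
  exact h4

/-- The potential of the measure at `w`, weighted. -/
noncomputable def pot {X : Set ℂ} (μ : Measure X) (y w : ℂ) : ℝ≥0∞ :=
  ‖w - y‖ₑ * ∫⁻ z : X, ‖(z : ℂ) - y‖ₑ * (‖(z : ℂ) - w‖ₑ)⁻¹ ∂μ

/-- If the potential is `< 1` at `w` then `w ∈ X` and the evaluations at `w` and `y` are close. -/
theorem close_of_pot {X : Set ℂ} (hX : IsCompact X) {y w : ℂ} (hy : y ∈ X) (hwy : w ≠ y)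
    {μ : Measure X} [IsFiniteMeasure μ] (hμ : ∀ f ∈ QX X, ‖deriv f y‖ ≤ ∫ z : X, ‖f z‖ ∂μ)
    {q : ℝ} (hq0 : 0 ≤ q) (hq : pot μ y w ≤ ENNReal.ofReal q) (hq1 : q < 1) :
    w ∈ X ∧ Cl X (2 * q) w y := by
  have hwy' : ‖w - y‖ₑ ≠ 0 := by
    rw [enorm_ne_zero, sub_ne_zero]; exact hwy
  have hwyt : ‖w - y‖ₑ ≠ ⊤ := enorm_ne_top
  set I : ℝ≥0∞ := ∫⁻ z : X, ‖(z : ℂ) - y‖ₑ * (‖(z : ℂ) - w‖ₑ)⁻¹ ∂μ with hI
  have hIt : I ≠ ⊤ := by
    intro h
    have : pot μ y w = ⊤ := by
      unfold pot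
      rw [← hI, h, ENNReal.mul_top hwy']
    rw [this] at hq
    exact absurd (top_le_iff.1 hq) ENNReal.ofReal_ne_top
  have hmeas : Measurable fun z : X => ‖(z : ℂ) - y‖ₑ * (‖(z : ℂ) - w‖ₑ)⁻¹ := by fun_prop
  -- almost everywhere `z ≠ w`
  have hae : ∀ᵐ z : X ∂μ, (z : ℂ) ≠ w := by
    have h1 := ae_lt_top hmeas hIt
    filter_upwards [h1] with z hz hzw
    rw [hzw, sub_self, enorm_zero, ENNReal.inv_zero, ENNReal.mul_top hwy'] at hz
    exact lt_irrefl _ hz
  -- the real valued kernel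
  have hk : ∀ᵐ z : X ∂μ, ‖((z : ℂ) - y) / ((z : ℂ) - w)‖ₑ =
      ‖(z : ℂ) - y‖ₑ * (‖(z : ℂ) - w‖ₑ)⁻¹ := by
    filter_upwards [hae] with z hz
    rw [div_eq_mul_inv, enorm_mul, enorm_inv (sub_ne_zero.2 hz)]
  have hkint : Integrable (fun z : X => ((z : ℂ) - y) / ((z : ℂ) - w)) μ := by
    refine ⟨(by fun_prop : Measurable fun z : X => ((z : ℂ) - y) / ((z : ℂ) - w)).aestronglyMeasurable, ?_⟩
    rw [hasFiniteIntegral_iff_enorm, lintegral_congr_ae hk]
    exact lt_top_iff_ne_top.2 hIt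
  have hkval : ‖w - y‖ * ∫ z : X, ‖((z : ℂ) - y) / ((z : ℂ) - w)‖ ∂μ ≤ q := by
    have h1 : ENNReal.ofReal (‖w - y‖ * ∫ z : X, ‖((z : ℂ) - y) / ((z : ℂ) - w)‖ ∂μ) = pot μ y w := by
      rw [ENNReal.ofReal_mul (norm_nonneg _), ofReal_norm, pot,
        ofReal_integral_norm_eq_lintegral_enorm hkint, lintegral_congr_ae hk]
    rw [← h1] at hq
    exact (ENNReal.ofReal_le_ofReal_iff hq0).1 hq
  have hkint' : Integrable (fun z : X => ‖((z : ℂ) - y) / ((z : ℂ) - w)‖) μ := hkint.norm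
  -- the main inequality
  have key : ∀ H ∈ QX X, ∀ H1 ∈ QX X, ∀ c : ℝ,
      (∀ z ∈ X, z ≠ w → ‖H z - H1 z‖ ≤ c * (‖w - y‖ * ‖(z - y) / (z - w)‖)) →
      0 ≤ c → ‖deriv H y - deriv H1 y‖ ≤ c * q := by
    intro H hH H1 hH1 c hc hc0
    have h1 := hμ (H - H1) (sub_mem hH hH1)
    rw [deriv_sub (QX.differentiableAt hH hy) (QX.differentiableAt hH1 hy)] at h1
    refine h1.trans ?_
    calc ∫ z : X, ‖(H - H1) z‖ ∂μ
        ≤ ∫ z : X, c * (‖w - y‖ * ‖((z : ℂ) - y) / ((z : ℂ) - w)‖) ∂μ := by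
          apply integral_mono_ae
          · have : CompactSpace X := isCompact_iff_compactSpace.1 hX
            have hcont : Continuous fun z : X => ‖(H - H1) z‖ := by
              have := (QX.continuousOn (sub_mem hH hH1)).domRestrict
              exact this.norm
            exact (BoundedContinuousFunction.mkOfCompact ⟨_, hcont⟩).integrable _
          · exact (hkint'.const_mul _).const_mul _
          · filter_upwards [hae] with z hz
            exact hc z z.2 hz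
      _ = c * (‖w - y‖ * ∫ z : X, ‖((z : ℂ) - y) / ((z : ℂ) - w)‖ ∂μ) := by
          rw [integral_const_mul, integral_const_mul]
      _ ≤ c * q := mul_le_mul_of_nonneg_left hkval hc0
  have hwX : w ∈ X := by
    by_contra hw
    -- `H = (z - y)^2 / (z - w)`, `H1 = z - y`
    have hH : (fun z : ℂ => (z - y) * ((z - y) * (z - w)⁻¹)) ∈ QX X :=
      mul_mem (QX.id_sub_mem X y) (mul_mem (QX.id_sub_mem X y) (QX.inv_mem hw))
    have h1 := key _ hH _ (QX.id_sub_mem X y) 1 (by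
      intro z hz hzw
      have h2 : (z - y) * ((z - y) * (z - w)⁻¹) - (z - y) = (w - y) * ((z - y) / (z - w)) := by
        have : z - w ≠ 0 := sub_ne_zero.2 hzw
        field_simp
        ring
      rw [h2, norm_mul, one_mul]) zero_le_one
    have hd1 : deriv (fun z : ℂ => z - y) y = 1 := by simp
    have hd2 : deriv (fun z : ℂ => (z - y) * ((z - y) * (z - w)⁻¹)) y = 0 := by
      have hyw : y - w ≠ 0 := sub_ne_zero.2 (fun h => hwy h.symm)
      have hu : HasDerivAt (fun z : ℂ => z - y) 1 y := (hasDerivAt_id' y).sub_const y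
      have hv : DifferentiableAt ℂ (fun z : ℂ => (z - y) * (z - w)⁻¹) y :=
        QX.differentiableAt (mul_mem (QX.id_sub_mem X y) (QX.inv_mem hw)) hy
      have h3 := hu.fun_mul hv.hasDerivAt
      have h4 := h3.deriv
      simpa using h4
    rw [hd1, hd2] at h1
    simp at h1
    linarith
  refine ⟨hwX, ?_⟩
  intro f hf M hM
  have hM0 : 0 ≤ M := (norm_nonneg _).trans (hM y hy)
  obtain ⟨h, hh, hfh⟩ := QX.exists_div hf hwX
  -- `H = (z - y)^2 h`, `H1 = (f - f w) (z - y)`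
  have hH : (fun z : ℂ => (z - y) * ((z - y) * h z)) ∈ QX X :=
    mul_mem (QX.id_sub_mem X y) (mul_mem (QX.id_sub_mem X y) hh)
  have hH1 : (fun z : ℂ => (z - y) * (f z - f w)) ∈ QX X :=
    mul_mem (QX.id_sub_mem X y) (sub_mem hf (QX.const_mem X (f w)))
  have h1 := key _ hH _ hH1 (2 * M) (by
    intro z hz hzw
    have hne : z - w ≠ 0 := sub_ne_zero.2 hzw
    have h2 : (z - y) * ((z - y) * h z) - (z - y) * (f z - f w) =
        (f z - f w) * ((w - y) * ((z - y) / (z - w))) := by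
      rw [hfh z hz]
      field_simp
      ring
    rw [h2, norm_mul, norm_mul]
    refine mul_le_mul_of_nonneg_right ?_ (by positivity)
    refine (norm_sub_le _ _).trans ?_
    have := hM z hz
    have := hM w hwX
    linarith) (by linarith)
  have hu : HasDerivAt (fun z : ℂ => z - y) 1 y := (hasDerivAt_id' y).sub_const y
  have hd2 : deriv (fun z : ℂ => (z - y) * ((z - y) * h z)) y = 0 := by
    have hv : DifferentiableAt ℂ (fun z : ℂ => (z - y) * h z) y :=
      QX.differentiableAt (mul_mem (QX.id_sub_mem X y) hh) hy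
    have h4 := (hu.fun_mul hv.hasDerivAt).deriv
    simpa using h4
  have hd1 : deriv (fun z : ℂ => (z - y) * (f z - f w)) y = f y - f w := by
    have hv : DifferentiableAt ℂ (fun z : ℂ => f z - f w) y :=
      QX.differentiableAt (sub_mem hf (QX.const_mem X (f w))) hy
    have h4 := (hu.fun_mul hv.hasDerivAt).deriv
    simpa using h4
  rw [hd1, hd2, zero_sub, norm_neg, norm_sub_rev] at h1
  linarith

end Pool.Agent.H136R3
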