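import Pool.Agent.H136R3.Grid

set_option autoImplicit false

open MeasureTheory Filter Topology Set Metric
open scoped NNReal ENNReal Real

namespace Pool.Agent.H136R3

/-- the strip -/
def St (σ : ℝ) : Set ℂ := {z | |z.re| < 3 / 2 ∧ |z.im - 1 / 3| < σ}

theorem isOpen_St (σ : ℝ) : IsOpen (St σ) := by
  have h1 : St σ = {z : ℂ | |z.re| < 3 / 2} ∩ {z : ℂ | |z.im - 1 / 3| < σ} := rfl
  rw [h1]
  exact (isOpen_lt (by fun_prop) continuous_const).inter (isOpen_lt (by fun_prop) continuous_const)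

theorem int_gap2 (n : ℤ) (e : ℕ) : (1 / 3 : ℝ) ≤ |(n : ℝ) - 2 ^ e / 3| := by
  have h1 : (3 * n - 2 ^ e : ℤ) ≠ 0 := by
    intro h
    have h2 : (3 : ℤ) ∣ 2 ^ e := ⟨n, by linarith⟩
    have h3 : (3 : ℤ) ∣ 2 := Int.Prime.dvd_pow' (by norm_num) h2
    norm_num at h3
  have h2 : (1 : ℤ) ≤ |3 * n - 2 ^ e| := Int.one_le_abs h1
  have h3 : (1 : ℝ) ≤ |3 * (n : ℝ) - 2 ^ e| := by exact_mod_cast h2
  have h4 : (n : ℝ) - 2 ^ e / 3 = (3 * (n : ℝ) - 2 ^ e) / 3 := by ring
  rw [h4, abs_div, abs_of_pos (by norm_num : (0:ℝ) < 3)]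
  linarith

namespace Par

variable (P : Par)

theorem row_gap (j : ℕ) (v : ℤ) : P.dl j / 3 ≤ |1 / 3 - (v : ℝ) * P.dl j| := by
  have h1 : (1 / 3 : ℝ) = 2 ^ P.m j / 3 * P.dl j := by
    unfold dl
    have : (2 : ℝ) ^ P.m j * (1 / 2) ^ P.m j = 1 := by rw [← mul_pow]; norm_num
    linear_combination (-1 / 3 : ℝ) * this
  have h2 := int_gap2 v (P.m j)
  have h3 : 1 / 3 - (v : ℝ) * P.dl j = -(((v : ℝ) - 2 ^ P.m j / 3) * P.dl j) := by
    rw [h1]; ring
  rw [h3, abs_neg, abs_mul, abs_of_pos (P.dl_pos j)]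
  have := P.dl_pos j
  nlinarith

theorem far {z : ℂ} {j k : ℕ} (hjk : j ≤ k) (hz : |z.im - 1 / 3| < P.dl k / 6)
    (i : ℕ × ℤ × ℤ) (hi : i.1 = j) : P.dl j / 6 ≤ ‖z - P.ctr i‖ := by
  have h1 := Complex.abs_im_le_norm (z - P.ctr i)
  have h2 : (z - P.ctr i).im = z.im - (i.2.2 : ℝ) * P.dl j := by
    simp [ctr, hi]
  rw [h2] at h1
  have h3 := P.row_gap j i.2.2
  have h4 : 1 / 3 - (i.2.2 : ℝ) * P.dl j = (z.im - (i.2.2 : ℝ) * P.dl j) - (z.im - 1 / 3) := by ring
  rw [h4] at h3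
  have h5 := abs_sub (z.im - (i.2.2 : ℝ) * P.dl j) (z.im - 1 / 3)
  have h6 := P.dl_anti hjk
  linarith

theorem cc_pow (k n : ℕ) : P.cc (k + n) ≤ P.cc k * (1 / 2) ^ n := by
  induction n with
  | zero => simp
  | succ n ih =>
    have h1 := P.cc_half (k + n)
    rw [pow_succ, ← add_assoc]
    linarith

/-- sums over holes of stage at least `k` -/
theorem tail_sum (S : Finset (ℕ × ℤ × ℤ)) (k : ℕ) (hk : ∀ i ∈ S, k ≤ i.1)
    (hS : ∀ i ∈ S, ‖P.ctr i‖ ≤ 3) {z : ℂ} (hz : ∀ i ∈ S, P.dl i.1 / 6 ≤ ‖z - P.ctr i‖) :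
    ∑ i ∈ S, P.rr i.1 * ‖z - P.ctr i‖⁻¹ ≤ 480 * P.cc k := by
  classical
  obtain ⟨n, hn⟩ : ∃ n, ∀ i ∈ S, i.1 < k + n := by
    refine ⟨S.sup (fun i => i.1) + 1, fun i hi => ?_⟩
    have : i.1 ≤ S.sup (fun i => i.1) := Finset.le_sup (f := fun i : ℕ × ℤ × ℤ => i.1) hi
    omega
  rw [← Finset.sum_fiberwise_of_maps_to (t := Finset.Ico k (k + n)) (g := fun i => i.1)
    (fun i hi => Finset.mem_Ico.2 ⟨hk i hi, hn i hi⟩)]
  have h1 : ∀ j ∈ Finset.Ico k (k + n), ∑ i ∈ S with i.1 = j, P.rr i.1 * ‖z - P.ctr i‖⁻¹ ≤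
      240 * P.cc j := by
    intro j _
    have hd := P.dl_pos j
    have h2 := sum_inv_le (S.filter fun i => i.1 = j) P.ctr (z := z) (y := 0) (T := 3) hd
      (P.dl_le j) (by norm_num)
      (fun i hi i' hi' hne => by
        rw [Finset.mem_filter] at hi hi'
        have := P.sep_stage (hi.2.trans hi'.2.symm) hne
        rwa [hi.2] at this)
      (fun i hi => by
        rw [sub_zero]
        exact hS i (Finset.mem_filter.1 hi).1)
      (fun i hi => by
        rw [Finset.mem_filter] at hi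
        have := hz i hi.1
        rw [hi.2] at this
        linarith)
    calc ∑ i ∈ S with i.1 = j, P.rr i.1 * ‖z - P.ctr i‖⁻¹
        = ∑ i ∈ S with i.1 = j, P.rr j * ‖z - P.ctr i‖⁻¹ := by
          refine Finset.sum_congr rfl fun i hi => ?_
          rw [(Finset.mem_filter.1 hi).2]
      _ = P.rr j * ∑ i ∈ S with i.1 = j, ‖z - P.ctr i‖⁻¹ := by rw [Finset.mul_sum]
      _ ≤ P.rr j * (60 * (3 + 1) / P.dl j ^ 2) :=
          mul_le_mul_of_nonneg_left h2 (P.rr_pos j).le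
      _ = 240 * P.cc j := by
          unfold rr
          field_simp
          ring
  refine (Finset.sum_le_sum h1).trans ?_
  rw [← Finset.mul_sum, Finset.sum_Ico_eq_sum_range, add_tsub_cancel_left]
  have h3 : ∑ i ∈ Finset.range n, P.cc (k + i) ≤ P.cc k * 2 := by
    calc ∑ i ∈ Finset.range n, P.cc (k + i) ≤ ∑ i ∈ Finset.range n, P.cc k * (1 / 2) ^ i :=
          Finset.sum_le_sum fun i _ => P.cc_pow k i
      _ = P.cc k * ∑ i ∈ Finset.range n, (1 / 2 : ℝ) ^ i := by rw [Finset.mul_sum]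
      _ ≤ P.cc k * 2 := mul_le_mul_of_nonneg_left (sum_geometric_two_le n) (P.cc_pos k).le
  linarith

/-- bound for a sum of Cauchy integrals over circles -/
theorem sum_cint_le (S : Finset (ℕ × ℤ × ℤ)) (k : ℕ) (hk : ∀ i ∈ S, k ≤ i.1)
    (hS : ∀ i ∈ S, P.Good i) {z : ℂ} (hz : ∀ i ∈ S, P.dl i.1 / 6 ≤ ‖z - P.ctr i‖)
    {F : ℂ → ℂ} {B : ℝ} (hB : 0 ≤ B) (hF : ∀ w ∈ P.XX, ‖F w‖ ≤ B) :
    ‖∑ i ∈ S, cint (P.ctr i) (P.rr i.1) F z‖ ≤ 2 * π * (960 * P.cc k * B) := by
  have h1 := P.tail_sum S k hk (fun i hi => (hS i hi).1.le.trans R0_lt.le) hz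
  calc ‖∑ i ∈ S, cint (P.ctr i) (P.rr i.1) F z‖
      ≤ ∑ i ∈ S, ‖cint (P.ctr i) (P.rr i.1) F z‖ := norm_sum_le _ _
    _ ≤ ∑ i ∈ S, 2 * π * (2 * B * (P.rr i.1 * ‖z - P.ctr i‖⁻¹)) := by
        refine Finset.sum_le_sum fun i hi => ?_
        have hr := P.rr_pos i.1
        have hd := P.dl_pos i.1
        have h2 := hz i hi
        have h3 := P.rr_le' i.1
        have h4 : 0 < ‖z - P.ctr i‖ := by linarith
        have h5 := norm_cint_le (c := P.ctr i) (w := z) hr.le (F := F) (M := B)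
          (d := ‖z - P.ctr i‖ / 2) (by linarith)
          (fun w hw => hF w (P.sphere_sub (hS i hi) hw)) (fun w hw => by
            rw [mem_sphere, dist_eq_norm] at hw
            have h6 : ‖z - P.ctr i‖ ≤ ‖w - P.ctr i‖ + ‖w - z‖ := by
              have : z - P.ctr i = (w - P.ctr i) - (w - z) := by ring
              rw [this]; exact norm_sub_le _ _
            linarith)
        refine h5.trans (le_of_eq ?_)
        field_simp
    _ = 2 * π * (2 * B * ∑ i ∈ S, (P.rr i.1 * ‖z - P.ctr i‖⁻¹)) := by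
        simp only [Finset.mul_sum]
    _ ≤ 2 * π * (2 * B * (480 * P.cc k)) := by
        have := Real.pi_pos
        gcongr
    _ = _ := by ring

theorem exists_cover (s : List ℂ) (hs : ∀ b ∈ s, b ∉ P.XX) :
    ∃ S : Finset (ℕ × ℤ × ℤ), (∀ i ∈ S, P.Good i) ∧
      ∀ b ∈ s, b ∈ Ex (0 : ℂ) R0 S P.ctr (fun i => P.rr i.1) := by
  classical
  induction s with
  | nil => exact ⟨∅, by simp, by simp⟩
  | cons b s ih =>
    obtain ⟨S, hS, hS'⟩ := ih fun b' hb' => hs b' (List.mem_cons_of_mem _ hb')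
    by_cases hb : ‖b‖ ≤ R0
    · obtain ⟨i, hi, hbi⟩ := P.exists_good (hs b List.mem_cons_self) hb
      refine ⟨insert i S, ?_, ?_⟩
      · intro j hj
        rcases Finset.mem_insert.1 hj with rfl | hj
        · exact hi
        · exact hS j hj
      · intro b' hb'
        rcases List.mem_cons.1 hb' with rfl | hb'
        · exact Or.inr ⟨i, Finset.mem_insert_self _ _, hbi⟩
        · rcases hS' b' hb' with h | ⟨j, hj, hj'⟩
          · exact Or.inl h
          · exact Or.inr ⟨j, Finset.mem_insert_of_mem hj, hj'⟩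
    · refine ⟨S, hS, ?_⟩
      intro b' hb'
      rcases List.mem_cons.1 hb' with rfl | hb'
      · left
        rw [mem_closedBall, dist_zero_right]
        exact hb
      · exact hS' b' hb'

theorem mem_XX_of_line {z : ℂ} (h1 : |z.re| ≤ 1) (h2 : z.im = 1 / 3) :
    ‖z‖ < R0 ∧ ∀ i : ℕ × ℤ × ℤ, P.dl i.1 / 6 ≤ ‖z - P.ctr i‖ := by
  constructor
  · have h3 := Complex.norm_le_abs_re_add_abs_im z
    rw [h2] at h3
    have h4 : |(1 / 3 : ℝ)| = 1 / 3 := abs_of_pos (by norm_num)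
    have := lt_R0
    linarith
  · intro i
    refine P.far le_rfl ?_ i rfl
    rw [h2, sub_self, abs_zero]
    have := P.dl_pos i.1
    linarith

/-- the splitting of a function according to the stages of the holes -/
theorem split (k : ℕ) {g : ℂ → ℂ} (hg : g ∈ QX P.XX) {B : ℝ} (hB : 0 ≤ B)
    (hgB : ∀ z ∈ P.XX, ‖g z‖ ≤ B) :
    ∃ h : ℂ → ℂ, DifferentiableOn ℂ h (St (P.dl k / 6)) ∧
      (∀ z ∈ St (P.dl k / 6), ‖h z‖ ≤ 100 * B) ∧
      ∀ z : ℂ, |z.re| ≤ 1 → z.im = 1 / 3 → ‖g z - h z‖ ≤ 960 * P.cc (k + 1) * B := by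
  classical
  obtain ⟨p, q, hq, hgq⟩ := hg
  -- `XX` is nonempty
  have hx0 : (⟨0, 1 / 3⟩ : ℂ) ∈ P.XX := by
    obtain ⟨h1, h2⟩ := P.mem_XX_of_line (z := ⟨0, 1 / 3⟩) (by simp) rfl
    refine ⟨h1.le, fun i => ?_⟩
    have := h2 i
    have := P.rr_le' i.1
    have := P.dl_pos i.1
    linarith
  have hq0 : q ≠ 0 := by
    rintro rfl
    exact hq _ hx0 (by simp)
  obtain ⟨p', s, hs, hGG⟩ := exists_GG p q hq0
  have hsX : ∀ b ∈ s, b ∉ P.XX := fun b hb hbX => hq b hbX (hs b hb)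
  obtain ⟨S, hS, hS'⟩ := P.exists_cover s hsX
  have hconf := P.config S hS
  have hF : ∀ z ∈ P.XX, GG p' s z = g z := fun z hz => by rw [← hGG z, hgq z (hq z hz)]
  have hFB : ∀ z ∈ P.XX, ‖GG p' s z‖ ≤ B := fun z hz => by rw [hF z hz]; exact hgB z hz
  have hFc : ∀ z ∈ P.XX, ContinuousAt (GG p' s) z := fun z hz =>
    GG_continuousAt p' s z fun b hb => by
      rintro rfl
      exact hsX z hb hz
  set Sk := S.filter fun i => i.1 ≤ k with hSk
  have h2pi : (2 * π * Complex.I : ℂ) ≠ 0 := by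
    simp [Real.pi_ne_zero]
  have hn2pi : ‖(2 * π * Complex.I : ℂ)‖ = 2 * π := by
    simp [abs_of_pos Real.pi_pos]
  have hpi := Real.pi_pos
  refine ⟨fun w => (2 * π * Complex.I : ℂ)⁻¹ * (cint 0 R0 (GG p' s) w -
    ∑ i ∈ Sk, cint (P.ctr i) (P.rr i.1) (GG p' s) w), ?_, ?_, ?_⟩
  · intro z hz
    have hz1 : ‖z‖ < 2 := by
      have h3 := Complex.norm_le_abs_re_add_abs_im z
      have h4 := hz.1
      have h5 := hz.2
      have h6 := P.dl_le k
      have h7 := abs_lt.1 h5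
      have h8 : |z.im| < 1 / 2 := by rw [abs_lt]; constructor <;> linarith
      linarith
    refine DifferentiableAt.differentiableWithinAt ?_
    refine DifferentiableAt.const_mul (DifferentiableAt.sub ?_ ?_) _
    · refine (hasDerivAt_cint R0_pos.le (fun w hw =>
        (hFc w (P.sphere0_sub hw)).continuousWithinAt) ?_).differentiableAt
      rw [mem_sphere, dist_zero_right]
      have := lt_R0
      linarith
    · refine DifferentiableAt.fun_sum fun i hi => ?_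
      rw [hSk, Finset.mem_filter] at hi
      refine (hasDerivAt_cint (P.rr_pos i.1).le (fun w hw =>
        (hFc w (P.sphere_sub (hS i hi.1) hw)).continuousWithinAt) ?_).differentiableAt
      rw [mem_sphere, dist_eq_norm]
      have h1 := P.far hi.2 hz.2 i rfl
      have := P.rr_le' i.1
      have := P.dl_pos i.1
      intro h
      linarith
  · intro z hz
    have hz1 : ‖z‖ < 8 / 5 := by
      have h4 := hz.1
      have h5 := hz.2
      have h6 := P.dl_le k
      have h7 := abs_lt.1 h5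
      have h8 : |z.im| < 1 / 2 := by rw [abs_lt]; constructor <;> linarith
      have h9 := norm_sq_eq z
      have h10 : z.re ^ 2 < (3 / 2) ^ 2 := sq_lt_sq' (abs_lt.1 h4).1 (abs_lt.1 h4).2
      have h11 : z.im ^ 2 < (1 / 2) ^ 2 := sq_lt_sq' (abs_lt.1 h8).1 (abs_lt.1 h8).2
      nlinarith [norm_nonneg z]
    have h1 : ‖cint 0 R0 (GG p' s) z‖ ≤ 2 * π * (8 * B) := by
      have h2 := norm_cint_le (c := 0) (w := z) R0_pos.le (F := GG p' s) (M := B) (d := 2 / 5)
        (by norm_num) (fun w hw => hFB w (P.sphere0_sub hw)) (fun w hw => by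
          rw [mem_sphere, dist_zero_right] at hw
          have h6 : ‖w‖ ≤ ‖w - z‖ + ‖z‖ := by
            have : w = (w - z) + z := by ring
            conv_lhs => rw [this]
            exact norm_add_le _ _
          have := lt_R0
          linarith)
      refine h2.trans ?_
      have h3 : R0 * (B / (2 / 5)) ≤ 8 * B := by
        have := R0_lt
        rw [div_div_eq_mul_div]
        nlinarith
      gcongr
    have h2 := P.sum_cint_le Sk 0 (fun i _ => Nat.zero_le _)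
      (fun i hi => hS i (Finset.mem_filter.1 hi).1) (z := z)
      (fun i hi => P.far (Finset.mem_filter.1 hi).2 hz.2 i rfl) hB hFB
    rw [norm_mul, norm_inv, hn2pi]
    have h3 : ‖cint 0 R0 (GG p' s) z - ∑ i ∈ Sk, cint (P.ctr i) (P.rr i.1) (GG p' s) z‖ ≤
        2 * π * (100 * B) := by
      refine (norm_sub_le _ _).trans ((add_le_add h1 h2).trans ?_)
      rw [← mul_add]
      have h4 := P.cc_le 0
      have h5 : 8 * B + 960 * P.cc 0 * B ≤ 100 * B := by nlinarith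
      gcongr
    calc _ ≤ (2 * π)⁻¹ * (2 * π * (100 * B)) := by gcongr
      _ = 100 * B := by field_simp
  · intro z hz1 hz2
    obtain ⟨hz3, hz4⟩ := P.mem_XX_of_line hz1 hz2
    have hzr : ∀ i : ℕ × ℤ × ℤ, P.rr i.1 < ‖z - P.ctr i‖ := fun i => by
      have := hz4 i
      have := P.rr_le' i.1
      have := P.dl_pos i.1
      linarith
    have hzX : z ∈ P.XX := ⟨hz3.le, fun i => (hzr i).le⟩
    have hzOm : z ∈ Om (0 : ℂ) R0 S P.ctr (fun i => P.rr i.1) := by
      refine ⟨by rw [mem_ball, dist_zero_right]; exact hz3, fun i _ => ?_⟩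
      rw [mem_closedBall, dist_eq_norm, not_le]
      exact hzr i
    have h1 := (multi_cauchy hconf p' s hS').1 z hzOm
    rw [hF z hzX] at h1
    unfold II at h1
    have h2 := P.sum_cint_le (S.filter fun i => ¬ i.1 ≤ k) (k + 1)
      (fun i hi => by
        have := (Finset.mem_filter.1 hi).2
        omega)
      (fun i hi => hS i (Finset.mem_filter.1 hi).1) (z := z)
      (fun i hi => hz4 i) hB hFB
    have h3 : g z - (2 * π * Complex.I : ℂ)⁻¹ * (cint 0 R0 (GG p' s) z -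
        ∑ i ∈ Sk, cint (P.ctr i) (P.rr i.1) (GG p' s) z) = -((2 * π * Complex.I : ℂ)⁻¹ *
          ∑ i ∈ S.filter (fun i => ¬ i.1 ≤ k), cint (P.ctr i) (P.rr i.1) (GG p' s) z) := by
      rw [← Finset.sum_filter_add_sum_filter_not S (fun i => i.1 ≤ k)] at h1
      have h4 : g z = (2 * π * Complex.I : ℂ)⁻¹ * (2 * π * Complex.I * g z) := by
        rw [← mul_assoc, inv_mul_cancel₀ h2pi, one_mul]
      rw [h4, ← h1]
      ring
    rw [h3, norm_neg, norm_mul, norm_inv, hn2pi]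
    calc _ ≤ (2 * π)⁻¹ * (2 * π * (960 * P.cc (k + 1) * B)) := by gcongr
      _ = 960 * P.cc (k + 1) * B := by field_simp

end Par

end Pool.Agent.H136R3
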