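import Mathlib
import Pool.Prelude.Def_F_1cba4be7

set_option autoImplicit false

namespace Pool.Agent.H136R3.SqHit

open N3a322007

/-- certificate check: the numbers `m, m+1, …` have the listed proper divisors -/
def chk : ℕ → List ℕ → Bool
  | _, [] => true
  | m, d :: ds => Nat.blt 1 d && Nat.blt d m && Nat.beq (m % d) 0 && chk (m + 1) ds

theorem chk_sound : ∀ (ds : List ℕ) (m : ℕ), chk m ds = true → ∀ i < ds.length, ¬ Nat.Prime (m + i)
  | [], _, _, i, hi => by simp at hi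
  | d :: ds, m, h, i, hi => by
    simp only [chk, Bool.and_eq_true] at h
    obtain ⟨⟨⟨h1, h2⟩, h3⟩, h4⟩ := h
    have h1' : 1 < d := by
      have := Nat.le_of_ble_eq_true h1
      exact this
    have h2' : d < m := Nat.le_of_ble_eq_true h2
    have h3' : m % d = 0 := Nat.eq_of_beq_eq_true h3
    cases i with
    | zero =>
      intro hp
      have hd : d ∣ m + 0 := Nat.dvd_of_mod_eq_zero h3'
      rcases (Nat.dvd_prime hp).1 hd with h | h <;> omega
    | succ i =>
      have hi' : i < ds.length := by simpa using hi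
      have := chk_sound ds (m + 1) h4 i hi'
      rwa [show m + (i + 1) = m + 1 + i by ring]

theorem pc_eq (m : ℕ) (ds : List ℕ) (h : chk (m + 1) ds = true) :
    ∀ k ≤ ds.length, Nat.primeCounting (m + k) = Nat.primeCounting m := by
  intro k
  induction k with
  | zero => intro _; rfl
  | succ k ih =>
    intro hk
    have h1 := ih (by omega)
    have h2 := chk_sound ds (m + 1) h k (by omega)
    have h3 : ¬ Nat.Prime (m + k + 1) := by rwa [show m + k + 1 = m + 1 + k by ring]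
    rw [← h1]
    show Nat.count Nat.Prime (m + (k + 1) + 1) = Nat.count Nat.Prime (m + k + 1)
    rw [show m + (k + 1) + 1 = (m + k + 1) + 1 by ring, Nat.count_succ, if_neg h3]
    rfl

theorem hit (n W p q : ℕ) (ds : List ℕ) (hn : 4765516 < n) (hq : 0 < q) (hpow : n ^ q ≤ 2 ^ p)
    (hpq : p ^ 2 < (W + 1) * q ^ 2) (hlen : ds.length = W) (hchk : chk (n ^ 2 + 1) ds = true) :
    ¬ (∀ (n : ℕ) (_ : 4765516 < n), 0 < a n) := by
  intro hall
  have h0 := hall n hn
  unfold a at h0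
  rw [if_neg (by omega)] at h0
  have hnR : (1 : ℝ) ≤ (n : ℝ) := by exact_mod_cast (by omega : 1 ≤ n)
  have hlog0 : 0 ≤ Real.logb 2 n := Real.logb_nonneg (by norm_num) hnR
  have hlog : (q : ℝ) * Real.logb 2 n ≤ p := by
    have h1 : Real.logb 2 ((n : ℝ) ^ q) ≤ Real.logb 2 ((2 : ℝ) ^ p) := by
      apply Real.logb_le_logb_of_le (by norm_num) (by positivity)
      exact_mod_cast hpow
    rw [Real.logb_pow, Real.logb_pow, Real.logb_self_eq_one (by norm_num), mul_one] at h1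
    exact h1
  have hqR : (0 : ℝ) < q := by exact_mod_cast hq
  have hlog2 : (Real.logb 2 n) ^ 2 < (W : ℝ) + 1 := by
    have h1 : ((q : ℝ) * Real.logb 2 n) ^ 2 ≤ (p : ℝ) ^ 2 :=
      pow_le_pow_left₀ (by positivity) hlog 2
    have h2 : ((p : ℝ)) ^ 2 < ((W : ℝ) + 1) * (q : ℝ) ^ 2 := by exact_mod_cast hpq
    have h3 : (q : ℝ) ^ 2 * (Real.logb 2 n) ^ 2 < ((W : ℝ) + 1) * (q : ℝ) ^ 2 := by
      rw [← mul_pow]; exact lt_of_le_of_lt h1 h2
    have h4 : (0 : ℝ) < (q : ℝ) ^ 2 := by positivity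
    nlinarith
  have hfl : ⌊(n : ℝ) ^ 2 + (Real.logb 2 n) ^ 2⌋ ≤ ((n ^ 2 + W : ℕ) : ℤ) := by
    have : ⌊(n : ℝ) ^ 2 + (Real.logb 2 n) ^ 2⌋ < ((n ^ 2 + W : ℕ) : ℤ) + 1 := by
      rw [Int.floor_lt]
      push_cast
      linarith
    omega
  have htn : Int.toNat ⌊(n : ℝ) ^ 2 + (Real.logb 2 n) ^ 2⌋ ≤ n ^ 2 + W := by
    rw [Int.toNat_le]; exact hfl
  have hpc := Nat.monotone_primeCounting htn
  have heq := pc_eq (n ^ 2) ds hchk W hlen.ge
  simp only at h0
  omega

end Pool.Agent.H136R3.SqHit
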